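import Mathlib

/-! The number of residue classes of the Gaussian integers. -/

set_option autoImplicit false

namespace Pool.Agent.Y697.MQ


/-- coordinates -/
def eqv : GaussianInt ≃ₗ[ℤ] (Fin 2 → ℤ) where
  toFun a := ![a.re, a.im]
  invFun v := ⟨v 0, v 1⟩
  map_add' a b := by
    ext i
    fin_cases i <;> simp
  map_smul' n a := by
    ext i
    fin_cases i <;> simp
  left_inv a := by
    ext <;> simp
  right_inv v := by
    ext i
    fin_cases i <;> simp

/-- the basis -/
noncomputable def bas : Module.Basis (Fin 2) ℤ GaussianInt := Module.Basis.ofEquivFun eqv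

theorem algNorm (q : GaussianInt) : Algebra.norm ℤ q = q.norm := by
  rw [Algebra.norm_eq_matrix_det bas, Matrix.det_fin_two]
  have h : ∀ i j, Algebra.leftMulMatrix bas q i j = eqv (q * bas j) i := by
    intro i j
    rw [Algebra.leftMulMatrix_eq_repr_mul]
    rfl
  have hb0 : bas 0 = (⟨1, 0⟩ : GaussianInt) := by
    apply eqv.injective
    rw [bas, Module.Basis.coe_ofEquivFun]
    ext i
    fin_cases i <;> simp [eqv]
  have hb1 : bas 1 = (⟨0, 1⟩ : GaussianInt) := by
    apply eqv.injective
    rw [bas, Module.Basis.coe_ofEquivFun]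
    ext i
    fin_cases i <;> simp [eqv]
  rw [h, h, h, h, hb0, hb1]
  simp only [eqv, LinearEquiv.coe_mk, Zsqrtd.norm]
  simp

theorem card_res (m : GaussianInt) : Nat.card (GaussianInt ⧸ Ideal.span {m}) = m.norm.natAbs := by
  have : Module.Free ℤ GaussianInt := Module.Free.of_basis bas
  have : Module.Finite ℤ GaussianInt := Module.Finite.of_basis bas
  have h1 := Ideal.absNorm_span_singleton m
  rw [algNorm] at h1
  rw [← h1, Ideal.absNorm_apply, Submodule.cardQuot_apply]

end Pool.Agent.Y697.MQ
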