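import Mathlib

/-! Residue symbols for the Gaussian integers. -/

set_option autoImplicit false

namespace Pool.Agent.Y697.MQ


/-- primary elements: `g ≡ 1 mod (2 + 2 i)` -/
def Pr (g : GaussianInt) : Prop := (g.re % 4 = 1 ∧ g.im % 4 = 0) ∨ (g.re % 4 = 3 ∧ g.im % 4 = 2)

/-- the character `(i / g)` on primary elements, zero on the others -/
def ci (g : GaussianInt) : ℤ := if g.re % 4 = 1 ∧ g.im % 4 = 0 then 1 else
  if g.re % 4 = 3 ∧ g.im % 4 = 2 then -1 else 0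

theorem ci_zero {g : GaussianInt} (h : ¬ Pr g) : ci g = 0 := by
  unfold Pr at h
  unfold ci
  split_ifs with h1 h2
  · exact absurd (Or.inl h1) h
  · exact absurd (Or.inr h2) h
  · rfl

theorem ci_ne {g : GaussianInt} (h : Pr g) : ci g = 1 ∨ ci g = -1 := by
  unfold ci
  split_ifs with h1 h2
  · exact Or.inl rfl
  · exact Or.inr rfl
  · unfold Pr at h; tauto

theorem ci_sq {g : GaussianInt} (h : Pr g) : ci g * ci g = 1 := by
  rcases ci_ne h with h | h <;> rw [h] <;> rfl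

theorem Pr_iff (g : GaussianInt) : Pr g ↔ (⟨2, 2⟩ : GaussianInt) ∣ g - 1 := by
  unfold Pr
  constructor
  · intro h
    refine ⟨⟨(g.re - 1 + g.im) / 4, (g.im - (g.re - 1)) / 4⟩, ?_⟩
    ext
    · simp only [Zsqrtd.re_sub, Zsqrtd.re_one, Zsqrtd.re_mul]
      omega
    · simp only [Zsqrtd.im_sub, Zsqrtd.im_one, Zsqrtd.im_mul]
      omega
  · rintro ⟨c, hc⟩
    have h1 := congrArg Zsqrtd.re hc
    have h2 := congrArg Zsqrtd.im hc
    simp only [Zsqrtd.re_sub, Zsqrtd.re_one, Zsqrtd.re_mul, Zsqrtd.im_sub, Zsqrtd.im_one,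
      Zsqrtd.im_mul] at h1 h2
    omega

theorem Pr_one : Pr 1 := Or.inl ⟨rfl, rfl⟩

theorem ci_pos {g : GaussianInt} (h1 : g.re % 4 = 1) (h2 : g.im % 4 = 0) : ci g = 1 := by
  unfold ci
  rw [if_pos ⟨h1, h2⟩]

theorem ci_neg {g : GaussianInt} (h1 : g.re % 4 = 3) (h2 : g.im % 4 = 2) : ci g = -1 := by
  unfold ci
  rw [if_neg (by omega), if_pos ⟨h1, h2⟩]

theorem mod4 {a b : ℤ} (h : a = b) (r : ℤ) (hr : b % 4 = r) : a % 4 = r := by rw [h]; exact hr

theorem Pr.mul {g h : GaussianInt} (hg : Pr g) (hh : Pr h) : Pr (g * h) ∧ ci (g * h) = ci g * ci h := by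
  obtain ⟨a, b⟩ := g
  obtain ⟨c, d⟩ := h
  have k1 : ((⟨a, b⟩ : GaussianInt) * ⟨c, d⟩).re = a * c + -1 * b * d := Zsqrtd.re_mul _ _
  have k2 : ((⟨a, b⟩ : GaussianInt) * ⟨c, d⟩).im = a * d + b * c := Zsqrtd.im_mul _ _
  rcases hg with ⟨h1, h2⟩ | ⟨h1, h2⟩ <;> rcases hh with ⟨h3, h4⟩ | ⟨h3, h4⟩ <;>
    simp only at h1 h2 h3 h4
  · obtain ⟨x, rfl⟩ : ∃ x, a = 4 * x + 1 := ⟨a / 4, by omega⟩
    obtain ⟨y, rfl⟩ : ∃ y, b = 4 * y := ⟨b / 4, by omega⟩
    obtain ⟨z, rfl⟩ : ∃ z, c = 4 * z + 1 := ⟨c / 4, by omega⟩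
    obtain ⟨w, rfl⟩ : ∃ w, d = 4 * w := ⟨d / 4, by omega⟩
    have e1 : (4 * x + 1) * (4 * z + 1) + -1 * (4 * y) * (4 * w) =
        4 * (4 * x * z + x + z - 4 * y * w) + 1 := by ring
    have e2 : (4 * x + 1) * (4 * w) + 4 * y * (4 * z + 1) = 4 * (4 * x * w + w + 4 * y * z + y) := by
      ring
    have f1 := mod4 (k1.trans e1) 1 (by omega)
    have f2 := mod4 (k2.trans e2) 0 (by omega)
    exact ⟨Or.inl ⟨f1, f2⟩, by rw [ci_pos f1 f2, ci_pos h1 h2, ci_pos h3 h4]; rfl⟩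
  · obtain ⟨x, rfl⟩ : ∃ x, a = 4 * x + 1 := ⟨a / 4, by omega⟩
    obtain ⟨y, rfl⟩ : ∃ y, b = 4 * y := ⟨b / 4, by omega⟩
    obtain ⟨z, rfl⟩ : ∃ z, c = 4 * z + 3 := ⟨c / 4, by omega⟩
    obtain ⟨w, rfl⟩ : ∃ w, d = 4 * w + 2 := ⟨d / 4, by omega⟩
    have e1 : (4 * x + 1) * (4 * z + 3) + -1 * (4 * y) * (4 * w + 2) =
        4 * (4 * x * z + 3 * x + z - 4 * y * w - 2 * y) + 3 := by ring
    have e2 : (4 * x + 1) * (4 * w + 2) + 4 * y * (4 * z + 3) =
        4 * (4 * x * w + 2 * x + w + 4 * y * z + 3 * y) + 2 := by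
      ring
    have f1 := mod4 (k1.trans e1) 3 (by omega)
    have f2 := mod4 (k2.trans e2) 2 (by omega)
    exact ⟨Or.inr ⟨f1, f2⟩, by rw [ci_neg f1 f2, ci_pos h1 h2, ci_neg h3 h4]; rfl⟩
  · obtain ⟨x, rfl⟩ : ∃ x, a = 4 * x + 3 := ⟨a / 4, by omega⟩
    obtain ⟨y, rfl⟩ : ∃ y, b = 4 * y + 2 := ⟨b / 4, by omega⟩
    obtain ⟨z, rfl⟩ : ∃ z, c = 4 * z + 1 := ⟨c / 4, by omega⟩
    obtain ⟨w, rfl⟩ : ∃ w, d = 4 * w := ⟨d / 4, by omega⟩
    have e1 : (4 * x + 3) * (4 * z + 1) + -1 * (4 * y + 2) * (4 * w) =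
        4 * (4 * x * z + x + 3 * z - 4 * y * w - 2 * w) + 3 := by ring
    have e2 : (4 * x + 3) * (4 * w) + (4 * y + 2) * (4 * z + 1) =
        4 * (4 * x * w + 3 * w + 4 * y * z + y + 2 * z) + 2 := by
      ring
    have f1 := mod4 (k1.trans e1) 3 (by omega)
    have f2 := mod4 (k2.trans e2) 2 (by omega)
    exact ⟨Or.inr ⟨f1, f2⟩, by rw [ci_neg f1 f2, ci_neg h1 h2, ci_pos h3 h4]; rfl⟩
  · obtain ⟨x, rfl⟩ : ∃ x, a = 4 * x + 3 := ⟨a / 4, by omega⟩
    obtain ⟨y, rfl⟩ : ∃ y, b = 4 * y + 2 := ⟨b / 4, by omega⟩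
    obtain ⟨z, rfl⟩ : ∃ z, c = 4 * z + 3 := ⟨c / 4, by omega⟩
    obtain ⟨w, rfl⟩ : ∃ w, d = 4 * w + 2 := ⟨d / 4, by omega⟩
    have e1 : (4 * x + 3) * (4 * z + 3) + -1 * (4 * y + 2) * (4 * w + 2) =
        4 * (4 * x * z + 3 * x + 3 * z + 1 - 4 * y * w - 2 * w - 2 * y) + 1 := by ring
    have e2 : (4 * x + 3) * (4 * w + 2) + (4 * y + 2) * (4 * z + 3) =
        4 * (4 * x * w + 2 * x + 3 * w + 4 * y * z + 3 * y + 2 * z + 3) := by
      ring
    have f1 := mod4 (k1.trans e1) 1 (by omega)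
    have f2 := mod4 (k2.trans e2) 0 (by omega)
    exact ⟨Or.inl ⟨f1, f2⟩, by rw [ci_pos f1 f2, ci_neg h1 h2, ci_neg h3 h4]; rfl⟩

theorem Pr.congr {g h : GaussianInt} (hg : Pr g) (hh : (4 : GaussianInt) ∣ g - h) : Pr h ∧ ci h = ci g := by
  obtain ⟨c, hc⟩ := hh
  have h1 := congrArg Zsqrtd.re hc
  have h2 := congrArg Zsqrtd.im hc
  have e4 : (4 : GaussianInt) = ⟨4, 0⟩ := rfl
  rw [e4] at h1 h2
  simp only [Zsqrtd.re_sub, Zsqrtd.re_mul, Zsqrtd.im_sub, Zsqrtd.im_mul] at h1 h2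
  unfold Pr at *
  unfold ci
  rcases hg with ⟨h3, h4⟩ | ⟨h3, h4⟩
  · refine ⟨by omega, ?_⟩
    rw [if_pos ⟨by omega, by omega⟩, if_pos ⟨by omega, by omega⟩]
  · refine ⟨by omega, ?_⟩
    rw [if_neg (by omega), if_pos (by omega), if_neg (by omega), if_pos (by omega)]

/-- multiplication by a primary element -/
theorem ci_mul {g : GaussianInt} (hg : Pr g) (h : GaussianInt) : ci (g * h) = ci g * ci h := by
  by_cases hh : Pr h
  · exact (hg.mul hh).2
  · rw [ci_zero hh, mul_zero]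
    apply ci_zero
    intro h1
    apply hh
    rw [Pr_iff] at *
    obtain ⟨a, ha⟩ := hg
    obtain ⟨b, hb⟩ := h1
    refine ⟨b - a * h, ?_⟩
    linear_combination hb - h * ha

theorem Pr_of {g : GaussianInt} {x y : ℤ} (h1 : g.re = x) (h2 : g.im = y)
    (h : (x % 4 = 1 ∧ y % 4 = 0) ∨ (x % 4 = 3 ∧ y % 4 = 2)) : Pr g := by
  unfold Pr
  rw [h1, h2]
  exact h

theorem Pr.exists_star (g : GaussianInt) (h : ¬ (⟨1, 1⟩ : GaussianInt) ∣ g) : ∃ u : GaussianInt, u ^ 4 = 1 ∧ IsUnit u ∧ Pr (u * g) := by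
  obtain ⟨a, b⟩ := g
  have h1 : (a + b) % 2 = 1 := by
    by_contra hc
    apply h
    refine ⟨⟨(a + b) / 2, (b - a) / 2⟩, ?_⟩
    ext
    · simp only [Zsqrtd.re_mul]
      omega
    · simp only [Zsqrtd.im_mul]
      omega
  have hu : ∀ u : GaussianInt, u ^ 4 = 1 → IsUnit u := fun u hu =>
    IsUnit.of_mul_eq_one (u ^ 3) (by rw [← hu]; ring)
  have key : ((a % 4 = 1 ∧ b % 4 = 0) ∨ (a % 4 = 3 ∧ b % 4 = 2)) ∨
    (((-a) % 4 = 1 ∧ (-b) % 4 = 0) ∨ ((-a) % 4 = 3 ∧ (-b) % 4 = 2)) ∨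
    (((-b) % 4 = 1 ∧ a % 4 = 0) ∨ ((-b) % 4 = 3 ∧ a % 4 = 2)) ∨
    ((b % 4 = 1 ∧ (-a) % 4 = 0) ∨ (b % 4 = 3 ∧ (-a) % 4 = 2)) := by omega
  rcases key with h | h | h | h
  · exact ⟨1, by rw [one_pow], isUnit_one, Pr_of (by simp) (by simp) h⟩
  · exact ⟨⟨-1, 0⟩, by decide, hu _ (by decide), Pr_of (by simp [Zsqrtd.re_mul])
      (by simp [Zsqrtd.im_mul]) h⟩
  · exact ⟨⟨0, 1⟩, by decide, hu _ (by decide), Pr_of (by simp [Zsqrtd.re_mul])
      (by simp [Zsqrtd.im_mul]) h⟩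
  · exact ⟨⟨0, -1⟩, by decide, hu _ (by decide), Pr_of (by simp [Zsqrtd.re_mul])
      (by simp [Zsqrtd.im_mul]) h⟩

theorem Pr.unit {g : GaussianInt} (h : Pr g) (hu : IsUnit g) : g = 1 := by
  have h1 : g.norm.natAbs = 1 := Zsqrtd.norm_eq_one_iff.2 hu
  obtain ⟨a, b⟩ := g
  have h2 : a * a + b * b = 1 := by
    have h3 : (Zsqrtd.norm (⟨a, b⟩ : GaussianInt)) = a * a + b * b := by
      unfold Zsqrtd.norm; ring
    have h4 : 0 ≤ (Zsqrtd.norm (⟨a, b⟩ : GaussianInt)) := GaussianInt.norm_nonneg _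
    omega
  unfold Pr at h
  simp only at h
  have ha : a * a ≤ 1 := by nlinarith [mul_self_nonneg b]
  have hb : b * b ≤ 1 := by nlinarith [mul_self_nonneg a]
  have ha1 : a ≤ 1 := by nlinarith
  have ha2 : -1 ≤ a := by nlinarith
  have hb1 : b ≤ 1 := by nlinarith
  have hb2 : -1 ≤ b := by nlinarith
  have : a = 1 ∧ b = 0 := by omega
  rw [this.1, this.2]
  rfl

theorem Pr.assoc {g h : GaussianInt} (hg : Pr g) (hh : Pr h) (ha : Associated g h) : g = h := by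
  obtain ⟨u, hu⟩ := ha
  have h1 : Pr (u : GaussianInt) := by
    rw [Pr_iff] at *
    obtain ⟨a, ha⟩ := hg
    obtain ⟨b, hb⟩ := hh
    refine ⟨b - a * u, ?_⟩
    linear_combination hb - (u : GaussianInt) * ha + hu
  have h2 := h1.unit u.isUnit
  rw [h2, mul_one] at hu
  exact hu

theorem Pr.odd {g : GaussianInt} (h : Pr g) : ∃ b : GaussianInt, g = 1 + ⟨1, 1⟩ * b := by
  rw [Pr_iff] at h
  obtain ⟨c, hc⟩ := h
  refine ⟨2 * c, ?_⟩
  have e : (⟨2, 2⟩ : GaussianInt) = ⟨1, 1⟩ * 2 := by decide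
  rw [e] at hc
  linear_combination hc

theorem Pr.ne_zero {g : GaussianInt} (h : Pr g) : g ≠ 0 := by
  rintro rfl
  unfold Pr at h
  simp at h

/-! ### the quadratic symbol -/

open Classical in
/-- the quadratic residue symbol -/
noncomputable def leg (p a : GaussianInt) : ℤ := if p ∣ a then 0 else if ∃ b : GaussianInt, p ∣ b ^ 2 - a then 1 else -1

/-- primary primes -/
structure OP (p : GaussianInt) : Prop where
  pr : Prime p
  pm : Pr p

theorem leg_eq_zero {p a : GaussianInt} : leg p a = 0 ↔ p ∣ a := by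
  unfold leg
  split_ifs with h1 h2 <;> simp [h1]

theorem leg_cases (p a : GaussianInt) : leg p a = 0 ∨ leg p a = 1 ∨ leg p a = -1 := by
  unfold leg
  split_ifs <;> simp

theorem leg_ne {p a : GaussianInt} (h : ¬ p ∣ a) : leg p a = 1 ∨ leg p a = -1 := by
  rcases leg_cases p a with h1 | h1
  · exact absurd (leg_eq_zero.1 h1) h
  · exact h1

theorem leg_congr {p a b : GaussianInt} (h : p ∣ a - b) : leg p a = leg p b := by
  have h1 : p ∣ a ↔ p ∣ b := by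
    constructor
    · intro h2
      have := dvd_sub h2 h
      rwa [sub_sub_cancel] at this
    · intro h2
      have := dvd_add h h2
      rwa [sub_add_cancel] at this
  have h2 : (∃ c : GaussianInt, p ∣ c ^ 2 - a) ↔ (∃ c : GaussianInt, p ∣ c ^ 2 - b) := by
    constructor
    · rintro ⟨c, hc⟩
      refine ⟨c, ?_⟩
      have := dvd_add hc h
      rwa [sub_add_sub_cancel] at this
    · rintro ⟨c, hc⟩
      refine ⟨c, ?_⟩
      have := dvd_sub hc h
      rwa [show c ^ 2 - b - (a - b) = c ^ 2 - a by ring] at this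
  classical
  unfold leg
  exact if_congr h1 rfl (if_congr h2 rfl rfl)

theorem leg_sq_eq {p a : GaussianInt} (h : ¬ p ∣ a) : leg p a * leg p a = 1 := by
  rcases leg_ne h with h | h <;> rw [h] <;> rfl

/-- the residue field is finite -/
theorem fin_quot {m : GaussianInt} (hm : m ≠ 0) : Finite (GaussianInt ⧸ Ideal.span {m}) := by
  set N : ℕ := m.norm.natAbs with hN
  have hN0 : 0 < N := by
    rw [hN, Int.natAbs_pos]
    exact (GaussianInt.norm_pos.2 hm).ne'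
  have hdvd : m ∣ ((N : ℤ) : GaussianInt) := by
    have h1 : ((N : ℤ) : ℤ) = m.norm := by
      rw [hN, Int.natCast_natAbs, abs_of_nonneg (GaussianInt.norm_nonneg _)]
    rw [h1, Zsqrtd.norm_eq_mul_conj]
    exact dvd_mul_right _ _
  have hsur : Function.Surjective (fun p : Fin N × Fin N =>
      (Ideal.Quotient.mk (Ideal.span {m}) ⟨(p.1 : ℕ), (p.2 : ℕ)⟩ : GaussianInt ⧸ Ideal.span {m})) := by
    intro x
    obtain ⟨g, rfl⟩ := Ideal.Quotient.mk_surjective x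
    have hNz : (0 : ℤ) < N := by exact_mod_cast hN0
    have h1 := Int.emod_nonneg g.re hNz.ne'
    have h2 := Int.emod_lt_of_pos g.re hNz
    have h3 := Int.emod_nonneg g.im hNz.ne'
    have h4 := Int.emod_lt_of_pos g.im hNz
    refine ⟨(⟨(g.re % N).toNat, by omega⟩, ⟨(g.im % N).toNat, by omega⟩), ?_⟩
    show Ideal.Quotient.mk (Ideal.span {m}) _ = Ideal.Quotient.mk (Ideal.span {m}) g
    rw [Ideal.Quotient.mk_eq_mk_iff_sub_mem, Ideal.mem_span_singleton]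
    refine dvd_trans hdvd ⟨⟨-(g.re / N), -(g.im / N)⟩, ?_⟩
    ext
    · simp only [Zsqrtd.re_sub, Zsqrtd.re_mul, Zsqrtd.re_intCast, Zsqrtd.im_intCast]
      have := Int.emod_add_mul_ediv g.re N
      rw [Int.toNat_of_nonneg h1]
      linarith
    · simp only [Zsqrtd.im_sub, Zsqrtd.im_mul, Zsqrtd.re_intCast, Zsqrtd.im_intCast]
      have := Int.emod_add_mul_ediv g.im N
      rw [Int.toNat_of_nonneg h3]
      linarith
  exact Finite.of_surjective _ hsur

theorem Prime.max {p : GaussianInt} (hp : Prime p) : (Ideal.span {p}).IsMaximal :=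
  PrincipalIdealRing.isMaximal_of_irreducible hp.irreducible

theorem leg_mul {p : GaussianInt} (hp : Prime p) (a b : GaussianInt) : leg p (a * b) = leg p a * leg p b := by
  classical
  have := Prime.max hp
  let _ : Field (GaussianInt ⧸ Ideal.span {p}) := Ideal.Quotient.field _
  have := fin_quot hp.ne_zero
  let _ := Fintype.ofFinite (GaussianInt ⧸ Ideal.span {p})
  have key : ∀ c : GaussianInt, leg p c = quadraticChar (GaussianInt ⧸ Ideal.span {p}) (Ideal.Quotient.mk _ c) := by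
    intro c
    have h1 : p ∣ c ↔ Ideal.Quotient.mk (Ideal.span {p}) c = 0 := by
      rw [Ideal.Quotient.eq_zero_iff_mem, Ideal.mem_span_singleton]
    have h2 : (∃ b : GaussianInt, p ∣ b ^ 2 - c) ↔ IsSquare (Ideal.Quotient.mk (Ideal.span {p}) c) := by
      constructor
      · rintro ⟨d, hd⟩
        refine ⟨Ideal.Quotient.mk _ d, ?_⟩
        rw [← map_mul, ← pow_two]
        symm
        rw [Ideal.Quotient.mk_eq_mk_iff_sub_mem, Ideal.mem_span_singleton]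
        exact hd
      · rintro ⟨d, hd⟩
        obtain ⟨d, rfl⟩ := Ideal.Quotient.mk_surjective d
        refine ⟨d, ?_⟩
        rw [← map_mul, ← pow_two] at hd
        rw [← Ideal.mem_span_singleton, ← Ideal.Quotient.mk_eq_mk_iff_sub_mem]
        exact hd.symm
    rw [quadraticChar_apply]
    unfold leg quadraticCharFun
    simp only [h1, h2]
  rw [key, key, key, map_mul, map_mul]

theorem leg_one {p : GaussianInt} (hp : Prime p) : leg p 1 = 1 := by
  unfold leg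
  rw [if_neg (fun h => hp.not_isUnit (isUnit_of_dvd_one h)), if_pos ⟨1, by simp⟩]

theorem leg_of_sq {p a : GaussianInt} (h : ¬ p ∣ a) (b : GaussianInt) (hb : b ^ 2 = a) : leg p a = 1 := by
  unfold leg
  rw [if_neg h, if_pos ⟨b, by rw [hb, sub_self]; exact dvd_zero _⟩]

theorem leg_neg {p : GaussianInt} (hp : Prime p) (a : GaussianInt) : leg p (-a) = leg p a := by
  have h1 : leg p (-1) = 1 := by
    apply leg_of_sq _ ⟨0, 1⟩ (by decide)
    intro h
    exact hp.not_isUnit (isUnit_of_dvd_unit h isUnit_one.neg)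
  have h2 : -a = (-1) * a := by ring
  rw [h2, leg_mul hp, h1, one_mul]

theorem OP.odd {p : GaussianInt} (hp : OP p) : ¬ p ∣ ⟨1, 1⟩ := by
  intro h
  have h1 : Irreducible (⟨1, 1⟩ : GaussianInt) := by
    refine ⟨?_, ?_⟩
    · intro hu
      have := Zsqrtd.norm_eq_one_iff.2 hu
      revert this
      decide
    · intro a b hab
      have h2 := congrArg (fun x : GaussianInt => x.norm.natAbs) hab
      simp only [Zsqrtd.norm_mul, Int.natAbs_mul] at h2
      have h3 : (Zsqrtd.norm (⟨1, 1⟩ : GaussianInt)).natAbs = 2 := by decide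
      rw [h3] at h2
      have h4 : (Zsqrtd.norm a).natAbs ∣ 2 := ⟨_, h2⟩
      rcases (Nat.dvd_prime Nat.prime_two).1 h4 with h5 | h5
      · exact Or.inl (Zsqrtd.norm_eq_one_iff.1 h5)
      · rw [h5] at h2
        exact Or.inr (Zsqrtd.norm_eq_one_iff.1 (by omega))
  have h2 := (hp.pr.irreducible.associated_of_dvd h1 h)
  obtain ⟨b, hb⟩ := hp.pm.odd
  have h3 : (⟨1, 1⟩ : GaussianInt) ∣ p := h2.symm.dvd
  have h4 : (⟨1, 1⟩ : GaussianInt) ∣ 1 := by
    have := dvd_sub h3 (dvd_mul_right (⟨1, 1⟩ : GaussianInt) b)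
    rwa [hb, add_sub_cancel_right] at this
  exact h1.not_isUnit (isUnit_of_dvd_one h4)

theorem OP.two {p : GaussianInt} (hp : OP p) : ¬ p ∣ 2 := by
  intro h
  have e : (2 : GaussianInt) = ⟨1, 1⟩ ^ 2 * ⟨0, -1⟩ := by decide
  rw [e] at h
  rcases hp.pr.dvd_or_dvd h with h | h
  · exact hp.odd (hp.pr.dvd_of_dvd_pow h)
  · exact hp.pr.not_isUnit (isUnit_of_dvd_one (h.trans ⟨⟨0, 1⟩, by decide⟩))

theorem OP.four {p : GaussianInt} (hp : OP p) : ¬ p ∣ 4 := by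
  intro h
  have e : (4 : GaussianInt) = 2 * 2 := by decide
  rw [e] at h
  rcases hp.pr.dvd_or_dvd h with h | h <;> exact hp.two h

theorem OP.dvd {p q : GaussianInt} (hp : OP p) (hq : OP q) (h : p ∣ q) : p = q :=
  hp.pm.assoc hq.pm (hp.pr.irreducible.associated_of_dvd hq.pr.irreducible h)

/-- there is a non-residue -/
theorem OP.nonres {p : GaussianInt} (hp : OP p) : ∃ a : GaussianInt, leg p a = -1 := by
  classical
  have := Prime.max hp.pr
  let _ : Field (GaussianInt ⧸ Ideal.span {p}) := Ideal.Quotient.field _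
  have := fin_quot hp.pr.ne_zero
  let _ := Fintype.ofFinite (GaussianInt ⧸ Ideal.span {p})
  have hc : ringChar (GaussianInt ⧸ Ideal.span {p}) ≠ 2 := by
    intro h
    have h2 : ((2 : ℕ) : GaussianInt ⧸ Ideal.span {p}) = 0 := by
      rw [← h]; exact ringChar.Nat.cast_ringChar
    have h3 : Ideal.Quotient.mk (Ideal.span {p}) 2 = 0 := by
      rw [← h2]; exact map_natCast (Ideal.Quotient.mk (Ideal.span {p})) 2
    rw [Ideal.Quotient.eq_zero_iff_mem, Ideal.mem_span_singleton] at h3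
    exact hp.two h3
  obtain ⟨x, hx⟩ := FiniteField.exists_nonsquare hc
  obtain ⟨a, rfl⟩ := Ideal.Quotient.mk_surjective x
  refine ⟨a, ?_⟩
  have h1 : ¬ p ∣ a := by
    intro h
    apply hx
    rw [Ideal.Quotient.eq_zero_iff_mem.2 (Ideal.mem_span_singleton.2 h)]
    exact IsSquare.zero
  unfold leg
  rw [if_neg h1, if_neg]
  rintro ⟨d, hd⟩
  apply hx
  refine ⟨Ideal.Quotient.mk _ d, ?_⟩
  rw [← map_mul, ← pow_two]
  symm
  rw [Ideal.Quotient.mk_eq_mk_iff_sub_mem, Ideal.mem_span_singleton]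
  exact hd

end Pool.Agent.Y697.MQ
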