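import Pool.Agent.Y697.MQ.Gal2

/-! The squarefree part of a primary element; the local identities. -/

set_option autoImplicit false

open NumberField IsDedekindDomain

namespace Pool.Agent.Y697.MQ


/-- a primary element which is not one has a primary prime divisor -/
theorem exists_op {x : GaussianInt} (hx : Pr x) (h1 : x ≠ 1) : ∃ l, OP l ∧ l ∣ x := by
  by_cases hu : IsUnit x
  · exact absurd (hx.unit hu) h1
  obtain ⟨r, hr, hrg⟩ := WfDvdMonoid.exists_irreducible_factor hu hx.ne_zero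
  have hr11 : ¬ (⟨1, 1⟩ : GaussianInt) ∣ r := fun h => hx.not_dvd (h.trans hrg)
  obtain ⟨u, -, hu1, hu2⟩ := Pr.exists_star r hr11
  have hass : Associated r (u * r) := by
    obtain ⟨w, rfl⟩ := hu1
    exact ⟨w, mul_comm _ _⟩
  exact ⟨u * r, ⟨hass.prime hr.prime, hu2⟩, hass.symm.dvd.trans hrg⟩

theorem exists_ker2 (x : GaussianInt) (hx : Pr x) : ∃ T : Finset GaussianInt, (∀ l ∈ T, OP l ∧ l ∣ x) ∧
    ∃ e : GaussianInt, Pr e ∧ x = (∏ l ∈ T, l) * e ^ 2 := by
  classical
  induction hn : x.norm.natAbs using Nat.strong_induction_on generalizing x with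
  | _ n ih =>
    by_cases h1 : x = 1
    · refine ⟨∅, by simp, 1, Pr_one, by simp [h1]⟩
    · obtain ⟨l, hl, y, rfl⟩ := exists_op hx h1
      have hy : Pr y := (Pr.of_mul hl.pm).1 hx
      have hlt : y.norm.natAbs < n := by
        rw [← hn, Zsqrtd.norm_mul, Int.natAbs_mul]
        have h2 : 1 < l.norm.natAbs := by
          have h3 : l.norm.natAbs ≠ 0 := by
            intro h
            exact hl.pr.ne_zero (GaussianInt.norm_eq_zero.1 (Int.natAbs_eq_zero.1 h))
          have h4 : l.norm.natAbs ≠ 1 := fun h => hl.pr.not_isUnit (Zsqrtd.norm_eq_one_iff.1 h)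
          omega
        have h3 : 0 < y.norm.natAbs := by
          rw [Nat.pos_iff_ne_zero]
          intro h
          exact hy.ne_zero (GaussianInt.norm_eq_zero.1 (Int.natAbs_eq_zero.1 h))
        nlinarith
      obtain ⟨T, hT, e, he, hye⟩ := ih _ hlt y hy rfl
      by_cases hlT : l ∈ T
      · refine ⟨T.erase l, fun m hm => ?_, l * e, (hl.pm.mul he).1, ?_⟩
        · rw [Finset.mem_erase] at hm
          exact ⟨(hT m hm.2).1, (hT m hm.2).2.mul_left l⟩
        · conv_lhs => rw [hye, ← Finset.mul_prod_erase T (fun z => z) hlT]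
          ring
      · refine ⟨insert l T, fun m hm => ?_, e, he, ?_⟩
        · rw [Finset.mem_insert] at hm
          rcases hm with rfl | hm
          · exact ⟨hl, Dvd.intro _ rfl⟩
          · exact ⟨(hT m hm).1, (hT m hm).2.mul_left l⟩
        · rw [Finset.prod_insert hlT]
          conv_lhs => rw [hye]
          ring

theorem leg_prod {p : GaussianInt} (hp : Prime p) {I : Type} (T : Finset I) (f : I → GaussianInt) :
    leg p (∏ l ∈ T, f l) = ∏ l ∈ T, leg p (f l) := by
  classical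
  induction T using Finset.induction_on with
  | empty => simp [leg_one hp]
  | insert a T ha ih => rw [Finset.prod_insert ha, Finset.prod_insert ha, leg_mul hp, ih]

theorem leg_pow_two {p e : GaussianInt} (hp : Prime p) (he : ¬ p ∣ e) : leg p (e ^ 2) = 1 := by
  rw [sq, leg_mul hp]
  exact leg_sq_eq he

/-- the value of the character at `p` -/
theorem ch_eq {T : Finset GaussianInt} (hT : ∀ l ∈ T, OP l) {p : GaussianInt} (hp : OP p) (hpT : p ∉ T) :
    ch T p = ci p * leg p (∏ l ∈ T, l) := by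
  unfold ch
  rw [leg_prod hp.pr]
  congr 1
  refine Finset.prod_congr rfl fun l hl => ?_
  exact recip (hT l hl) hp (fun h => hpT (h ▸ hl))

theorem ch_ker {T : Finset GaussianInt} (hT : ∀ l ∈ T, OP l) {p x e : GaussianInt} (hp : OP p) (hpx : ¬ p ∣ x)
    (hx : x = (∏ l ∈ T, l) * e ^ 2) : ch T p = ci p * leg p x := by
  have h1 : ¬ p ∣ ∏ l ∈ T, l := fun h => hpx (by rw [hx]; exact h.mul_right _)
  have h2 : ¬ p ∣ e := fun h => hpx (by
    rw [hx, sq]; exact (h.mul_right e).mul_left _)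
  have h3 : p ∉ T := fun h => h1 (Finset.dvd_prod_of_mem _ h)
  rw [ch_eq hT hp h3, hx, leg_mul hp.pr, leg_pow_two hp.pr h2, mul_one]

/-! ### the local identity -/

theorem prod_signs_one {I : Type} [DecidableEq I] (t : Finset I) (ε : I → ℤ)
    (hε : ∀ i ∈ t, ε i = 1) (x : ℂ) :
    ∏ J ∈ t.powerset, (1 - ((∏ i ∈ J, ε i : ℤ) : ℂ) * x) = (1 - x) ^ (2 ^ t.card) := by
  rw [Finset.prod_congr rfl (g := fun _ => (1 - x))]
  · rw [Finset.prod_const, Finset.card_powerset]
  · intro J hJ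
    rw [Finset.mem_powerset] at hJ
    rw [Finset.prod_eq_one fun i hi => hε i (hJ hi)]
    push_cast; ring

theorem prod_signs_neg {I : Type} [DecidableEq I] (t : Finset I) (ε : I → ℤ)
    (hε : ∀ i ∈ t, ε i = 1 ∨ ε i = -1) {i0 : I} (hi0 : i0 ∈ t) (h0 : ε i0 = -1) (x : ℂ) :
    ∏ J ∈ t.powerset, (1 - ((∏ i ∈ J, ε i : ℤ) : ℂ) * x) = (1 - x ^ 2) ^ (2 ^ (t.card - 1)) := by
  have h1 : t = insert i0 (t.erase i0) := (Finset.insert_erase hi0).symm
  have h2 : i0 ∉ t.erase i0 := Finset.notMem_erase _ _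
  rw [h1, Finset.prod_powerset_insert h2, ← Finset.prod_mul_distrib, ← h1,
    ← Finset.card_erase_of_mem hi0, Finset.prod_congr rfl (g := fun _ => (1 - x ^ 2))]
  · rw [Finset.prod_const, Finset.card_powerset]
  · intro J hJ
    rw [Finset.mem_powerset] at hJ
    have h3 : i0 ∉ J := fun h => h2 (hJ h)
    rw [Finset.prod_insert h3, h0]
    have h4 : ∏ i ∈ J, ε i = 1 ∨ ∏ i ∈ J, ε i = -1 :=
      (sgn_prod J ε fun i hi => hε i (Finset.mem_of_mem_erase (hJ hi))).1
    rcases h4 with h | h <;> rw [h] <;> push_cast <;> ring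

/-- **The local identity.** -/
theorem loc_id {t : Finset GaussianInt} {p : GaussianInt} (hpt : ∀ d ∈ t, ¬ p ∣ d) {n : ℕ}
    (hn : n * fd2 p t = 2 ^ t.card) (x : ℂ) :
    ∏ J ∈ t.powerset, (1 - ((∏ d ∈ J, leg p d : ℤ) : ℂ) * x) = (1 - x ^ fd2 p t) ^ n := by
  classical
  unfold fd2 at *
  split_ifs at * with hall
  · rw [prod_signs_one t (fun d => leg p d) hall, pow_one, ← hn, mul_one]
  · push Not at hall
    obtain ⟨d0, hd0, hne⟩ := hall
    have h1 : leg p d0 = -1 := (leg_ne (hpt d0 hd0)).resolve_left hne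
    rw [prod_signs_neg t (fun d => leg p d) (fun d hd => leg_ne (hpt d hd)) hd0 h1]
    congr 1
    have h2 : 0 < t.card := Finset.card_pos.2 ⟨d0, hd0⟩
    have h3 : 2 ^ t.card = 2 ^ (t.card - 1) * 2 := by
      rw [← pow_succ]; congr 1; omega
    rw [h3] at hn
    omega

end Pool.Agent.Y697.MQ
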