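import Pool.Agent.Y697.MQ.Sum

/-! Valuations of division values, and the base value. -/

set_option autoImplicit false

open Filter Complex
open scoped Topology PeriodPair

namespace Pool.Agent.Y697.MQ

open Pool.Agent.TH936.CM Pool.Agent.W192.HK H667R3


variable {L : PeriodPair} {Ω : ℂ}

theorem c11 : ((⟨1, 1⟩ : GaussianInt) : ℂ) = 1 + I := by
  rw [GaussianInt.toComplex_def]; push_cast; ring

theorem c4 : ((4 : GaussianInt) : ℂ) = 4 := by
  rw [show (4 : GaussianInt) = ((4 : ℕ) : GaussianInt) by rfl, map_natCast]; norm_num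

theorem c2 : ((2 : GaussianInt) : ℂ) = 2 := by
  rw [show (2 : GaussianInt) = ((2 : ℕ) : GaussianInt) by rfl, map_natCast]; norm_num

theorem cI : ((⟨0, 1⟩ : GaussianInt) : ℂ) = I := by
  rw [GaussianInt.toComplex_def]; push_cast; ring

theorem not11 : ¬ IsUnit (⟨1, 1⟩ : GaussianInt) := by
  intro hu
  have := Zsqrtd.norm_eq_one_iff.2 hu
  revert this
  decide

theorem Pr.not_dvd {g : GaussianInt} (h : Pr g) : ¬ (⟨1, 1⟩ : GaussianInt) ∣ g := by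
  intro h3
  obtain ⟨b, hb⟩ := h.odd
  have h4 : (⟨1, 1⟩ : GaussianInt) ∣ 1 := by
    have := dvd_sub h3 (dvd_mul_right (⟨1, 1⟩ : GaussianInt) b)
    rwa [hb, add_sub_cancel_right] at this
  exact not11 (isUnit_of_dvd_one h4)

theorem Pr.cop {g : GaussianInt} (h : Pr g) : IsCoprime g ⟨1, 1⟩ := by
  obtain ⟨b, hb⟩ := h.odd
  exact ⟨1, -b, by rw [hb]; ring⟩

theorem Pr.cop_pow {g : GaussianInt} (h : Pr g) (n : ℕ) : IsCoprime g (⟨1, 1⟩ ^ n) := h.cop.pow_right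

theorem Pr.cop4 {g : GaussianInt} (h : Pr g) : IsCoprime g 4 := by
  have e : (4 : GaussianInt) = ⟨1, 1⟩ ^ 4 * (-1) := by decide
  rw [e]
  exact (h.cop_pow 4).mul_right (isCoprime_one_right.neg_right)

theorem Pr.cop2 {g : GaussianInt} (h : Pr g) : IsCoprime g 2 := by
  have e : (2 : GaussianInt) = ⟨1, 1⟩ ^ 2 * ⟨0, -1⟩ := by decide
  rw [e]
  refine (h.cop_pow 2).mul_right ?_
  exact ⟨0, ⟨0, 1⟩, by rw [zero_mul, zero_add]; decide⟩

theorem two_dvd {x : GaussianInt} (h : (2 : GaussianInt) ∣ ⟨1, 1⟩ * x) : (⟨1, 1⟩ : GaussianInt) ∣ x := by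
  have e : (2 : GaussianInt) = ⟨1, 1⟩ * (⟨1, 1⟩ * ⟨0, -1⟩) := by decide
  rw [e] at h
  have h0 : (⟨1, 1⟩ : GaussianInt) ≠ 0 := by decide
  exact dvd_trans (dvd_mul_right _ _) ((mul_dvd_mul_iff_left h0).1 h)

section
variable (S : Sq L Ω)
include S

omit S in
theorem wp_per {z w : ℂ} (h : w - z ∈ L.lattice) : ℘[L] w = ℘[L] z := by
  have := L.weierstrassP_add_coe z ⟨w - z, h⟩
  rw [← this]
  congr 1
  show w = z + (w - z)
  ring

theorem mem2 {a : GaussianInt} : Ω * (a : ℂ) / 2 ∈ L.lattice ↔ (2 : GaussianInt) ∣ a := by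
  rw [← memL S.toIsLat (by decide : (2 : GaussianInt) ≠ 0), c2]

theorem mem4 {a : GaussianInt} : Ω * (a : ℂ) / 4 ∈ L.lattice ↔ (4 : GaussianInt) ∣ a := by
  rw [← memL S.toIsLat (by decide : (4 : GaussianInt) ≠ 0), c4]

/-- a point of order exactly two -/
theorem two_pt {x : GaussianInt} (hx : ¬ (⟨1, 1⟩ : GaussianInt) ∣ x) : ℘[L] (Ω * (x : ℂ) / 2) ^ 2 = 1 := by
  have hΩ := S.ne
  have h1 : Ω * (x : ℂ) / 2 ∉ L.lattice := by
    rw [mem2 S]
    intro h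
    exact hx (dvd_trans ⟨⟨1, -1⟩, by decide⟩ h)
  have h2 : 2 * (Ω * (x : ℂ) / 2) ∈ L.lattice := by
    have : 2 * (Ω * (x : ℂ) / 2) = Ω * ((eR x : RI) : ℂ) := by rw [eR_coe]; ring
    rw [this]
    exact S.toIsLat.mem_mul _
  have h3 := wp'_half h2 h1
  have h4 := sq_eq S h1
  rw [h3] at h4
  by_contra hc
  have h5 : ℘[L] (Ω * (x : ℂ) / 2) = 0 := by
    rw [zero_pow (by norm_num)] at h4
    have h6 := (mul_eq_zero.1 h4.symm).resolve_right (fun h => hc (by linear_combination h))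
    exact (mul_eq_zero.1 h6).resolve_left (by norm_num)
  have h6 := wp_I S.toIsLat (Ω * (x : ℂ) / 2)
  rw [h5, neg_zero, ← h5] at h6
  have h7 : I * (Ω * (x : ℂ) / 2) = Ω * ((⟨0, 1⟩ * x : GaussianInt) : ℂ) / 2 := by
    rw [map_mul, cI]; ring
  have h8 : I * (Ω * (x : ℂ) / 2) ∉ L.lattice := by
    rw [h7, mem2 S]
    intro h
    apply hx
    have h9 : (⟨0, 1⟩ * x : GaussianInt) = ⟨1, 1⟩ * x - x := by
      have : (⟨1, 1⟩ : GaussianInt) = ⟨0, 1⟩ + 1 := by decide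
      rw [this]; ring
    have h10 : (⟨1, 1⟩ : GaussianInt) ∣ ⟨0, 1⟩ * x := dvd_trans ⟨⟨1, -1⟩, by decide⟩ h
    have h11 := h10.mul_left ⟨0, -1⟩
    have : (⟨0, -1⟩ * (⟨0, 1⟩ * x) : GaussianInt) = x := by
      rw [← mul_assoc, show (⟨0, -1⟩ * ⟨0, 1⟩ : GaussianInt) = 1 by decide, one_mul]
    rwa [this] at h11
  rcases (wp_eq_iff L h8 h1).1 h6 with h9 | h9
  · have : I * (Ω * (x : ℂ) / 2) + Ω * (x : ℂ) / 2 = Ω * ((⟨1, 1⟩ * x : GaussianInt) : ℂ) / 2 := by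
      rw [map_mul, c11]; ring
    rw [this, mem2 S] at h9
    exact hx (two_dvd h9)
  · have : I * (Ω * (x : ℂ) / 2) - Ω * (x : ℂ) / 2 = Ω * ((⟨1, 1⟩ * (⟨0, 1⟩ * x) : GaussianInt) : ℂ) / 2 := by
      rw [map_mul, map_mul, c11, cI]
      linear_combination (-Ω * x / 2) * I_sq
    rw [this, mem2 S] at h9
    apply hx
    have h11 := (two_dvd h9).mul_left ⟨0, -1⟩
    have : (⟨0, -1⟩ * (⟨0, 1⟩ * x) : GaussianInt) = x := by
      rw [← mul_assoc, show (⟨0, -1⟩ * ⟨0, 1⟩ : GaussianInt) = 1 by decide, one_mul]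
    rwa [this] at h11

/-- the fourth division values -/
theorem four_of {c : GaussianInt} (hc : Pr c) : Four (℘[L] (Ω * (c : ℂ) / 4))
    (℘[L] ((1 + I) * (Ω * (c : ℂ) / 4))) (℘'[L] (Ω * (c : ℂ) / 4)) := by
  have h1 : 2 * (Ω * (c : ℂ) / 4) ∉ L.lattice := by
    have : 2 * (Ω * (c : ℂ) / 4) = Ω * (c : ℂ) / 2 := by ring
    rw [this, mem2 S]
    intro h
    exact hc.not_dvd (dvd_trans ⟨⟨1, -1⟩, by decide⟩ h)
  have h1' := two_mul_notMem_of L h1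
  have h2 : 2 * ((1 + I) * (Ω * (c : ℂ) / 4)) ∉ L.lattice := by
    have : 2 * ((1 + I) * (Ω * (c : ℂ) / 4)) = Ω * ((⟨1, 1⟩ * c : GaussianInt) : ℂ) / 2 := by
      rw [map_mul, c11]; ring
    rw [this, mem2 S]
    intro h
    exact hc.not_dvd (two_dvd h)
  refine ⟨(wp_ne S h1).1, ?_, wp_mul S h1, sq_eq S h1'⟩
  have h3 := wp_mul S h2
  have h4 : (1 + I) * ((1 + I) * (Ω * (c : ℂ) / 4)) = Ω * ((⟨0, 1⟩ * c : GaussianInt) : ℂ) / 2 := by
    rw [map_mul, cI]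
    linear_combination (Ω * c / 4) * I_sq
  have h5 : ¬ (⟨1, 1⟩ : GaussianInt) ∣ ⟨0, 1⟩ * c := by
    intro h
    apply hc.not_dvd
    have h11 := h.mul_left ⟨0, -1⟩
    have : (⟨0, -1⟩ * (⟨0, 1⟩ * c) : GaussianInt) = c := by
      rw [← mul_assoc, show (⟨0, -1⟩ * ⟨0, 1⟩ : GaussianInt) = 1 by decide, one_mul]
    rwa [this] at h11
  have h6 := two_pt S h5
  rw [← h4] at h6
  set x := ℘[L] ((1 + I) * (Ω * (c : ℂ) / 4)) with hx
  set e := ℘[L] ((1 + I) * ((1 + I) * (Ω * (c : ℂ) / 4))) with he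
  have h7 : (x - I * e) ^ 2 = 0 := by
    linear_combination -h3 + e ^ 2 * I_sq - h6
  have h8 : x = I * e := by
    have := pow_eq_zero_iff (two_ne_zero) |>.1 h7
    linear_combination this
  rw [h8]
  linear_combination e ^ 2 * I_sq - h6

/-- the values at the points of odd order -/
theorem dyn_of {D a : GaussianInt} (hD : Pr D) (ha : ¬ D ∣ a) :
    Dyn (fun k => ℘[L] ((1 + I) ^ k * (Ω * (a : ℂ) / (D : ℂ)))) := by
  have hD0 := hD.ne_zero
  have e1 : ∀ k : ℕ, (1 + I) ^ k * (Ω * (a : ℂ) / (D : ℂ)) =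
      Ω * ((⟨1, 1⟩ ^ k * a : GaussianInt) : ℂ) / (D : ℂ) := by
    intro k
    rw [map_mul, map_pow, c11]; ring
  have nd : ∀ k : ℕ, ¬ D ∣ 2 * (⟨1, 1⟩ ^ k * a) := by
    intro k h
    exact ha ((hD.cop_pow k).dvd_of_dvd_mul_left (hD.cop2.dvd_of_dvd_mul_left h))
  have n1 : ∀ k : ℕ, 2 * ((1 + I) ^ k * (Ω * (a : ℂ) / (D : ℂ))) ∉ L.lattice := by
    intro k
    have : 2 * ((1 + I) ^ k * (Ω * (a : ℂ) / (D : ℂ))) =
        Ω * ((2 * (⟨1, 1⟩ ^ k * a) : GaussianInt) : ℂ) / (D : ℂ) := by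
      rw [e1, map_mul GaussianInt.toComplex (2 : GaussianInt), c2]; ring
    rw [this, memL S.toIsLat hD0]
    exact nd k
  refine ⟨fun k => (wp_ne S (n1 k)).1, fun k => ?_, ?_⟩
  · have := wp_mul S (n1 k)
    rw [← mul_assoc (1 + I) ((1 + I) ^ k), ← pow_succ'] at this
    exact this
  · have hf := fin_quot hD0
    have hu : IsUnit (Ideal.Quotient.mk (Ideal.span {D}) ⟨1, 1⟩) := by
      obtain ⟨x, y, hxy⟩ := hD.cop
      refine IsUnit.of_mul_eq_one (Ideal.Quotient.mk _ y) ?_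
      rw [← map_mul, ← map_one (Ideal.Quotient.mk (Ideal.span {D})),
        Ideal.Quotient.mk_eq_mk_iff_sub_mem, Ideal.mem_span_singleton]
      exact ⟨-x, by linear_combination hxy⟩
    obtain ⟨u, hu⟩ := hu
    have h3 := isOfFinOrder_of_finite u
    have h4 := pow_orderOf_eq_one u
    refine ⟨orderOf u, h3.orderOf_pos, fun k => ?_⟩
    have h5 : D ∣ ⟨1, 1⟩ ^ orderOf u - 1 := by
      rw [← Ideal.mem_span_singleton, ← Ideal.Quotient.mk_eq_mk_iff_sub_mem, map_pow, ← hu,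
        ← Units.val_pow_eq_pow_val, h4, map_one, Units.val_one]
    apply wp_per
    have h6 : (1 + I) ^ (k + orderOf u) * (Ω * (a : ℂ) / (D : ℂ)) -
        (1 + I) ^ k * (Ω * (a : ℂ) / (D : ℂ)) =
        Ω * ((⟨1, 1⟩ ^ k * a * (⟨1, 1⟩ ^ orderOf u - 1) : GaussianInt) : ℂ) / (D : ℂ) := by
      rw [e1, e1, ← mul_div_assoc', ← mul_div_assoc', ← mul_div_assoc', ← mul_sub, ← sub_div,
        ← map_sub]
      congr 3
      ring
    rw [h6, memL S.toIsLat hD0]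
    exact h5.mul_left _

theorem notMem_add {c D a : GaussianInt} (hc : Pr c) (hD : Pr D) :
    Ω * (c : ℂ) / 4 + Ω * (a : ℂ) / (D : ℂ) ∉ L.lattice ∧
    Ω * (c : ℂ) / 4 - Ω * (a : ℂ) / (D : ℂ) ∉ L.lattice := by
  have hD0 := hD.ne_zero
  have hDc := coe_ne hD0
  have h4 : (4 * D : GaussianInt) ≠ 0 := mul_ne_zero (by decide) hD0
  have h5 : ¬ (4 : GaussianInt) ∣ c * D := by
    intro h
    exact (hc.mul hD).1.not_dvd (dvd_trans ⟨⟨2, -2⟩, by decide⟩ h)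
  constructor
  · have : Ω * (c : ℂ) / 4 + Ω * (a : ℂ) / (D : ℂ) =
        Ω * ((c * D + 4 * a : GaussianInt) : ℂ) / ((4 * D : GaussianInt) : ℂ) := by
      rw [map_add, map_mul, map_mul, map_mul, c4]
      field_simp
    rw [this, memL S.toIsLat h4]
    intro h
    apply h5
    have := dvd_sub (dvd_trans (dvd_mul_right 4 D) h) (dvd_mul_right 4 a)
    rwa [add_sub_cancel_right] at this
  · have : Ω * (c : ℂ) / 4 - Ω * (a : ℂ) / (D : ℂ) =
        Ω * ((c * D - 4 * a : GaussianInt) : ℂ) / ((4 * D : GaussianInt) : ℂ) := by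
      rw [map_sub, map_mul, map_mul, map_mul, c4]
      field_simp
    rw [this, memL S.toIsLat h4]
    intro h
    apply h5
    have := dvd_add (dvd_trans (dvd_mul_right 4 D) h) (dvd_mul_right 4 a)
    rwa [sub_add_cancel] at this

theorem notMem4 {c : GaussianInt} (hc : Pr c) : Ω * (c : ℂ) / 4 ∉ L.lattice := by
  rw [mem4 S]
  intro h
  exact hc.not_dvd (dvd_trans ⟨⟨2, -2⟩, by decide⟩ h)

/-- the limit of the second difference -/
theorem lim_G {z t : ℂ} (hz : z ∉ L.lattice) (ht : t ∉ L.lattice)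
    (h1 : z + t ∉ L.lattice) (h2 : z - t ∉ L.lattice) :
    Tendsto (fun δ : ℝ => EG Ω δ (z + t) + EG Ω δ (z - t) - 2 * EG Ω δ z) (𝓝[>] 0)
      (𝓝 (Dd L z t)) := by
  simp only [EG_eq]
  exact lim_Dd S.toIsLat hz ht h1 h2

variable {Γ : Type} [LinearOrderedCommGroupWithZero Γ] (v : Valuation ℂ Γ) (h2 : v 2 < 1)
include h2

theorem v_Dd {c D a : GaussianInt} (hc : Pr c) (hD : Pr D) (ha : ¬ D ∣ a) :
    v (Dd L (Ω * (c : ℂ) / 4) (Ω * (a : ℂ) / (D : ℂ))) < v (1 + I) := by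
  have F := four_of S hc
  have h1 := F.far v h2 (dyn_of S hD ha) 0
  simp only [pow_zero, one_mul] at h1
  unfold Dd
  have h3 : 0 < v (℘[L] (Ω * (c : ℂ) / 4) - ℘[L] (Ω * (a : ℂ) / (D : ℂ))) :=
    lt_of_le_of_lt zero_le h1
  rw [map_div₀, F.vY v h2, div_lt_iff₀ h3]
  have hp := v_pi_pos v
  calc v (1 + I) ^ 3 = v (1 + I) * v 2 := by rw [← v_pi_sq, pow_succ']
    _ < v (1 + I) * v (℘[L] (Ω * (c : ℂ) / 4) - ℘[L] (Ω * (a : ℂ) / (D : ℂ))) := by
        gcongr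


/-! ### the base value -/

/-- the element `-1 + 2 i` -/
def al : GaussianInt := ⟨-1, 2⟩

omit S h2 in
theorem d5 (x : GaussianInt) : al ∣ x ↔ (x.re - 2 * x.im) % 5 = 0 := by
  constructor
  · rintro ⟨y, rfl⟩
    unfold al
    simp only [Zsqrtd.re_mul, Zsqrtd.im_mul]
    omega
  · intro h
    refine ⟨⟨(-x.re + 2 * x.im) / 5, (-x.im - 2 * x.re) / 5⟩, ?_⟩
    unfold al
    ext
    · simp only [Zsqrtd.re_mul]
      omega
    · simp only [Zsqrtd.im_mul]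
      omega

/-- representatives modulo `-1 + 2 i` -/
def A5 : Finset GaussianInt := {0, 1, -1, ⟨0, 1⟩, ⟨0, -1⟩}

omit S h2 in
theorem reps5 : Reps al A5 := by
  intro x
  have h0 : ((0 : GaussianInt).re = 0 ∧ (0 : GaussianInt).im = 0) := ⟨rfl, rfl⟩
  have h1 : ((1 : GaussianInt).re = 1 ∧ (1 : GaussianInt).im = 0) := ⟨rfl, rfl⟩
  have h2 : ((-1 : GaussianInt).re = -1 ∧ (-1 : GaussianInt).im = 0) := ⟨rfl, rfl⟩
  have key : ∀ a : GaussianInt, a ∈ A5 ↔ (a = 0 ∨ a = 1 ∨ a = -1 ∨ a = ⟨0, 1⟩ ∨ a = ⟨0, -1⟩) := by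
    intro a
    unfold A5
    simp only [Finset.mem_insert, Finset.mem_singleton]
  have hu : ∀ a b : GaussianInt, a ∈ A5 → b ∈ A5 → al ∣ x - a → al ∣ x - b → a = b := by
    intro a b ha hb h3 h4
    rw [key] at ha hb
    rw [d5, Zsqrtd.re_sub, Zsqrtd.im_sub] at h3 h4
    rcases ha with rfl | rfl | rfl | rfl | rfl <;> rcases hb with rfl | rfl | rfl | rfl | rfl <;>
      first
      | rfl
      | (exfalso; simp only [h0.1, h0.2, h1.1, h1.2, h2.1, h2.2] at h3 h4; omega)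
  have hex : ∃ a, a ∈ A5 ∧ al ∣ x - a := by
    have h6 : (x.re - 2 * x.im) % 5 = 0 ∨ (x.re - 2 * x.im) % 5 = 1 ∨ (x.re - 2 * x.im) % 5 = 4 ∨
      (x.re - 2 * x.im) % 5 = 3 ∨ (x.re - 2 * x.im) % 5 = 2 := by omega
    rcases h6 with h | h | h | h | h
    · exact ⟨0, (key _).2 (by simp), by rw [d5, Zsqrtd.re_sub, Zsqrtd.im_sub, h0.1, h0.2]; omega⟩
    · exact ⟨1, (key _).2 (by simp), by rw [d5, Zsqrtd.re_sub, Zsqrtd.im_sub, h1.1, h1.2]; omega⟩
    · exact ⟨-1, (key _).2 (by simp), by rw [d5, Zsqrtd.re_sub, Zsqrtd.im_sub, h2.1, h2.2]; omega⟩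
    · exact ⟨⟨0, 1⟩, (key _).2 (by simp), by rw [d5, Zsqrtd.re_sub, Zsqrtd.im_sub]; simp only; omega⟩
    · exact ⟨⟨0, -1⟩, (key _).2 (by simp), by rw [d5, Zsqrtd.re_sub, Zsqrtd.im_sub]; simp only; omega⟩
  obtain ⟨a, ha, ha'⟩ := hex
  exact ⟨a, ⟨ha, ha'⟩, fun b hb => hu b a hb.1 ha hb.2 ha'⟩

omit S h2 in
theorem Pr_al : Pr al := Or.inr ⟨rfl, rfl⟩

omit S h2 in
theorem c_al : (al : ℂ) = -1 + 2 * I := by
  unfold al; rw [GaussianInt.toComplex_def]; push_cast; ring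

omit h2 in
/-- the distribution relation -/
theorem dist5 {δ : ℝ} (hδ : 0 < δ) (z : ℂ) :
    ∑ a ∈ A5, EG Ω δ (z + Ω * (a : ℂ) / (al : ℂ)) = (al : ℂ) * EG Ω (δ / 5) ((al : ℂ) * z) := by
  have hal := coe_ne Pr_al.ne_zero
  have hΩ := S.ne
  have h1 : EG Ω (δ / 5) ((al : ℂ) * z) = ∑ a ∈ A5, ∑' β : GaussianInt,
      fd (δ / 5) ((al : ℂ) * z + Ω * ((a + al * β : GaussianInt) : ℂ)) := by
    unfold EG
    exact tsum_reps Pr_al.ne_zero reps5 (summ_EG S.toIsLat _ (by positivity))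
  rw [h1, Finset.mul_sum]
  refine Finset.sum_congr rfl fun a _ => ?_
  have h2 : ∀ β : GaussianInt, fd (δ / 5) ((al : ℂ) * z + Ω * ((a + al * β : GaussianInt) : ℂ)) =
      fd (δ / 5) (((al : ℂ) * z + Ω * (a : ℂ)) + (Ω * (al : ℂ)) * (β : ℂ)) := by
    intro β
    rw [map_add, map_mul]
    congr 1
    ring
  rw [tsum_congr h2, tsum_scale hΩ (mul_ne_zero hΩ hal)]
  have h3 : Complex.normSq (Ω * (al : ℂ) / Ω) = 5 := by
    rw [mul_div_cancel_left₀ _ hΩ, c_al, Complex.normSq_apply]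
    norm_num
  rw [h3]
  have h4 : Ω * ((al : ℂ) * z + Ω * (a : ℂ)) / (Ω * (al : ℂ)) = z + Ω * (a : ℂ) / (al : ℂ) := by
    field_simp
  rw [h4, div_mul_cancel₀ _ (by norm_num : (5 : ℝ) ≠ 0)]
  field_simp

/-- the base value -/
theorem base {e : ℂ} (he : Tendsto (fun δ : ℝ => EG Ω δ (Ω * ((1 : GaussianInt) : ℂ) / 4) -
    EG Ω δ (Ω * ((⟨3, 2⟩ : GaussianInt) : ℂ) / 4)) (𝓝[>] 0) (𝓝 e)) : v e = v (1 + I) := by
  have hΩ := S.ne
  have hal := coe_ne Pr_al.ne_zero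
  set z : ℂ := Ω * ((1 : GaussianInt) : ℂ) / 4 with hz
  set w : ℂ := Ω * ((⟨3, 2⟩ : GaussianInt) : ℂ) / 4 with hw
  have c32 : ((⟨3, 2⟩ : GaussianInt) : ℂ) = 3 + 2 * I := by
    rw [GaussianInt.toComplex_def]; push_cast; ring
  have hRI : ∀ a : GaussianInt, Ω * (a : ℂ) ∈ L.lattice := fun a => S.toIsLat.mem_mul (eR a)
  -- the sum
  set h : ℂ := Ω * ((⟨0, 1⟩ : GaussianInt) : ℂ) / 2 with hh
  have hh1 : h ∉ L.lattice := by
    rw [hh, mem2 S]
    rintro ⟨y, hy⟩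
    have := congrArg Zsqrtd.im hy
    rw [show (2 : GaussianInt) = ⟨2, 0⟩ by rfl, Zsqrtd.im_mul] at this
    simp only at this
    omega
  have hz1 : z ∉ L.lattice := notMem4 S Pr_one
  have hzh : z + h = -w + Ω * ((⟨1, 1⟩ : GaussianInt) : ℂ) := by
    rw [hz, hh, hw, c11, cI, c32, map_one]
    ring
  have hzh' : z - h = -w + Ω * ((1 : GaussianInt) : ℂ) := by
    rw [hz, hh, hw, cI, c32, map_one]
    ring
  have hw1 : w ∉ L.lattice := notMem4 S (Or.inr ⟨rfl, rfl⟩)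
  have h1 : z + h ∉ L.lattice := by
    rw [hzh]
    intro h1
    apply hw1
    have := sub_mem (hRI ⟨1, 1⟩) h1
    rwa [show Ω * ((⟨1, 1⟩ : GaussianInt) : ℂ) - (-w + Ω * ((⟨1, 1⟩ : GaussianInt) : ℂ)) = w by ring] at this
  have h1' : z - h ∉ L.lattice := by
    rw [hzh']
    intro h1
    apply hw1
    have := sub_mem (hRI 1) h1
    rwa [show Ω * ((1 : GaussianInt) : ℂ) - (-w + Ω * ((1 : GaussianInt) : ℂ)) = w by ring] at this
  have e1 : ∀ δ, EG Ω δ (z + h) = -EG Ω δ w := by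
    intro δ
    rw [← EG_neg]
    apply EG_per S.toIsLat
    rw [hzh]
    rw [show -w + Ω * ((⟨1, 1⟩ : GaussianInt) : ℂ) - -w = Ω * ((⟨1, 1⟩ : GaussianInt) : ℂ) by ring]
    exact hRI _
  have e1' : ∀ δ, EG Ω δ (z - h) = -EG Ω δ w := by
    intro δ
    rw [← EG_neg]
    apply EG_per S.toIsLat
    rw [hzh']
    rw [show -w + Ω * ((1 : GaussianInt) : ℂ) - -w = Ω * ((1 : GaussianInt) : ℂ) by ring]
    exact hRI _
  have l1 := lim_G S hz1 hh1 h1 h1'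
  simp only [e1, e1'] at l1
  set s : ℂ := -Dd L z h / 2 with hs
  have l2 : Tendsto (fun δ : ℝ => EG Ω δ z + EG Ω δ w) (𝓝[>] 0) (𝓝 s) := by
    have := l1.const_mul (-1 / 2 : ℂ)
    rw [show (-1 / 2 : ℂ) * Dd L z h = s by rw [hs]; ring] at this
    refine this.congr fun δ => ?_
    ring
  have l3 : Tendsto (fun δ : ℝ => EG Ω δ z) (𝓝[>] 0) (𝓝 ((s + e) / 2)) := by
    have := (l2.add he).div_const 2
    refine this.congr fun δ => ?_
    ring
  have l4 : Tendsto (fun δ : ℝ => EG Ω δ w) (𝓝[>] 0) (𝓝 ((s - e) / 2)) := by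
    have := (l2.sub he).div_const 2
    refine this.congr fun δ => ?_
    ring
  -- the distribution relation
  have hd1 : ∀ a : GaussianInt, ¬ al ∣ a → Tendsto (fun δ : ℝ => EG Ω δ (z + Ω * (a : ℂ) / (al : ℂ)) +
      EG Ω δ (z - Ω * (a : ℂ) / (al : ℂ)) - 2 * EG Ω δ z) (𝓝[>] 0)
      (𝓝 (Dd L z (Ω * (a : ℂ) / (al : ℂ)))) := by
    intro a ha
    obtain ⟨q1, q2⟩ := notMem_add S (c := 1) (D := al) (a := a) Pr_one Pr_al
    exact lim_G S hz1 (by rw [memL S.toIsLat Pr_al.ne_zero]; exact ha) q1 q2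
  have n1 : ¬ al ∣ 1 := by rw [d5]; decide
  have nI : ¬ al ∣ ⟨0, 1⟩ := by rw [d5]; decide
  set S1 : ℂ := Dd L z (Ω * ((1 : GaussianInt) : ℂ) / (al : ℂ)) +
    Dd L z (Ω * ((⟨0, 1⟩ : GaussianInt) : ℂ) / (al : ℂ)) with hS1
  have l5 : Tendsto (fun δ : ℝ => ∑ a ∈ A5, EG Ω δ (z + Ω * (a : ℂ) / (al : ℂ))) (𝓝[>] 0)
      (𝓝 (S1 + 5 * ((s + e) / 2))) := by
    have := ((hd1 1 n1).add (hd1 ⟨0, 1⟩ nI)).add (l3.const_mul 5)
    refine this.congr fun δ => ?_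
    have d1 : (0 : GaussianInt) ∉ ({1, -1, ⟨0, 1⟩, ⟨0, -1⟩} : Finset GaussianInt) := by decide
    have d2 : (1 : GaussianInt) ∉ ({-1, ⟨0, 1⟩, ⟨0, -1⟩} : Finset GaussianInt) := by decide
    have d3 : (-1 : GaussianInt) ∉ ({⟨0, 1⟩, ⟨0, -1⟩} : Finset GaussianInt) := by decide
    have d4 : (⟨0, 1⟩ : GaussianInt) ∉ ({⟨0, -1⟩} : Finset GaussianInt) := by decide
    unfold A5
    rw [Finset.sum_insert d1, Finset.sum_insert d2, Finset.sum_insert d3, Finset.sum_insert d4,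
      Finset.sum_singleton]
    have f1 : z + Ω * ((-1 : GaussianInt) : ℂ) / (al : ℂ) = z - Ω * ((1 : GaussianInt) : ℂ) / (al : ℂ) := by
      rw [map_neg]; ring
    have f2 : z + Ω * ((⟨0, -1⟩ : GaussianInt) : ℂ) / (al : ℂ) = z - Ω * ((⟨0, 1⟩ : GaussianInt) : ℂ) / (al : ℂ) := by
      have : (⟨0, -1⟩ : GaussianInt) = -⟨0, 1⟩ := by decide
      rw [this, map_neg]; ring
    have f3 : z + Ω * ((0 : GaussianInt) : ℂ) / (al : ℂ) = z := by
      rw [map_zero]; ring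
    rw [f1, f2, f3]
    ring
  have l6 : Tendsto (fun δ : ℝ => (al : ℂ) * EG Ω (δ / 5) ((al : ℂ) * z)) (𝓝[>] 0)
      (𝓝 ((al : ℂ) * ((s - e) / 2))) := by
    have := (l4.comp (tend_scale (c := 5⁻¹) (by norm_num))).const_mul (al : ℂ)
    refine this.congr fun δ => ?_
    simp only [Function.comp_apply]
    rw [div_eq_mul_inv]
    congr 1
    apply EG_per S.toIsLat
    have : w - (al : ℂ) * z = Ω * ((1 : GaussianInt) : ℂ) := by
      rw [hz, hw, c32, c_al, map_one]; ring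
    rw [this]
    exact hRI 1
  have l7 : S1 + 5 * ((s + e) / 2) = (al : ℂ) * ((s - e) / 2) := by
    refine tendsto_nhds_unique l5 (l6.congr' ?_)
    filter_upwards [self_mem_nhdsWithin] with δ (hδ : 0 < δ)
    rw [dist5 S hδ]
  have key : e * (2 + I) = (1 + I) * (-1 + 2 * I) * s - S1 := by
    rw [c_al] at l7
    linear_combination l7 + (-2 * s) * I_sq
  -- valuations
  have F := four_of S (Ω := Ω) (c := 1) Pr_one
  have hp := v_pi_pos v
  have vs : v s = 1 := by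
    have hh2 : ℘[L] h ^ 2 = 1 := two_pt S (by
      intro h5
      have h6 : IsUnit (⟨0, 1⟩ : GaussianInt) := IsUnit.of_mul_eq_one ⟨0, -1⟩ (by decide)
      exact not11 (isUnit_of_dvd_unit h5 h6))
    have h3 := F.two v h2 hh2
    have h4 := F.vY v h2
    rw [hs, map_div₀, Valuation.map_neg]
    unfold Dd
    rw [map_div₀, ← hz] at *
    rw [h3, h4, ← v_pi_sq]
    have := hp.ne'
    field_simp
  have vS : v S1 < v (1 + I) := by
    refine (v.map_add _ _).trans_lt (max_lt ?_ ?_)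
    · exact v_Dd S v h2 Pr_one Pr_al n1
    · exact v_Dd S v h2 Pr_one Pr_al nI
  have v1 : v (-1 + 2 * I) = 1 := by
    rw [← c_al]
    exact v_odd v h2 (b := ⟨0, 2⟩) (by decide)
  have v2' : v (2 + I) = 1 := by
    have : (2 + I : ℂ) = ((⟨2, 1⟩ : GaussianInt) : ℂ) := by
      rw [GaussianInt.toComplex_def]; push_cast; ring
    rw [this]
    exact v_odd v h2 (b := 1) (by decide)
  have h8 := congrArg v key
  rw [map_mul, v2', mul_one] at h8
  have h9 : v ((1 + I) * (-1 + 2 * I) * s) = v (1 + I) := by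
    rw [map_mul, map_mul, v1, vs, mul_one, mul_one]
  rw [h8, Valuation.map_sub_eq_of_lt_left v (by rw [h9]; exact vS), h9]

end

end Pool.Agent.Y697.MQ
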