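import Mathlib

/-! A recursion over the subsets of a finite set, and its value for special weights. -/

set_option autoImplicit false

namespace Pool.Agent.Y697.MQ

open Finset

variable {V : Type} [DecidableEq V]

theorem sum_ps {M : Type} [AddCommMonoid M] (f : Finset V → M) (S : Finset V) :
    ∑ T ∈ S.powerset, f T = f S + ∑ T ∈ S.ssubsets, f T := by
  rw [← Finset.add_sum_erase _ _ (Finset.mem_powerset_self S)]
  rfl

/-- the solution of the recursion -/
noncomputable def fr (w : V → Finset V → ZMod 2) : Finset V → ZMod 2 :=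
  Finset.strongInduction (fun S ih => if S = ∅ then 1 else
    ∑ T : {T : Finset V // T ∈ S.ssubsets}, ih T.1 (Finset.mem_ssubsets.1 T.2) *
      ∏ v ∈ S \ T.1, w v T.1)

theorem fr_eq (w : V → Finset V → ZMod 2) (S : Finset V) : fr w S = if S = ∅ then 1 else
    ∑ T ∈ S.ssubsets, fr w T * ∏ v ∈ S \ T, w v T := by
  unfold fr
  rw [Finset.strongInduction_eq]
  congr 1
  exact Finset.sum_coe_sort S.ssubsets (fun T => fr w T * ∏ v ∈ S \ T, w v T)

theorem fr_empty (w : V → Finset V → ZMod 2) : fr w ∅ = 1 := by
  rw [fr_eq, if_pos rfl]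

/-- the recursion -/
theorem fr_sum (w : V → Finset V → ZMod 2) (S : Finset V) :
    ∑ T ∈ S.powerset, fr w T * ∏ v ∈ S \ T, w v T = if S = ∅ then 1 else 0 := by
  split_ifs with h
  · rw [h]; simp [fr_empty]
  · rw [sum_ps]
    simp only [Finset.sdiff_self, prod_empty, mul_one]
    conv_lhs => arg 1; rw [fr_eq, if_neg h]
    rw [← two_mul]
    have : (2 : ZMod 2) = 0 := rfl
    rw [this, zero_mul]

/-- uniqueness, up to the difference -/
theorem fr_unique (w w' : V → Finset V → ZMod 2) (S : Finset V)
    (h : ∀ T ⊆ S, ∀ v ∈ S, v ∉ T → w v T = w' v T) : fr w S = fr w' S := by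
  induction S using Finset.strongInduction with
  | H S ih =>
    rw [fr_eq, fr_eq]
    split_ifs with h0
    · rfl
    · refine Finset.sum_congr rfl fun T hT => ?_
      rw [Finset.mem_ssubsets] at hT
      rw [ih T hT (fun U hU v hv hvU => h U (hU.trans hT.1) v (hT.1 hv) hvU)]
      congr 1
      refine Finset.prod_congr rfl fun v hv => ?_
      rw [Finset.mem_sdiff] at hv
      exact h T hT.1 v hv.1 hv.2

theorem sdiff_ins {q : V} {S T : Finset V} (hq : q ∉ S) (hT : T ⊆ S) :
    insert q S \ T = insert q (S \ T) := by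
  rw [Finset.insert_sdiff_of_notMem]
  exact fun h => hq (hT h)

theorem ins_sdiff_ins {q : V} {S T : Finset V} (hq : q ∉ S) :
    insert q S \ insert q T = S \ T := by
  ext x
  simp only [mem_sdiff, mem_insert, not_or]
  constructor
  · rintro ⟨h1 | h1, h2, h3⟩
    · exact absurd h1 h2
    · exact ⟨h1, h3⟩
  · rintro ⟨h1, h2⟩
    exact ⟨Or.inr h1, fun h => hq (h ▸ h1), h2⟩

/-- removing an isolated element -/
theorem fr_iso (w : V → Finset V → ZMod 2) {q : V} (S : Finset V) (hq : q ∉ S)
    (h1 : ∀ T ⊆ S, w q T = 1) (h2 : ∀ T ⊆ S, ∀ v ∈ S, v ∉ T → w v (insert q T) = w v T) :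
    fr w (insert q S) = fr w S := by
  induction S using Finset.strongInduction with
  | H S ih =>
    have h3 := fr_sum w (insert q S)
    rw [if_neg (Finset.insert_ne_empty _ _), Finset.sum_powerset_insert hq,
      ← Finset.sum_add_distrib] at h3
    have h4 : ∀ T ∈ S.powerset, fr w T * ∏ v ∈ insert q S \ T, w v T +
        fr w (insert q T) * ∏ v ∈ insert q S \ insert q T, w v (insert q T) =
        (fr w T + fr w (insert q T)) * ∏ v ∈ S \ T, w v T := by
      intro T hT
      rw [Finset.mem_powerset] at hT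
      rw [sdiff_ins hq hT, ins_sdiff_ins hq, Finset.prod_insert
        (fun h => hq (Finset.mem_sdiff.1 h).1), h1 T hT, one_mul]
      have : ∏ v ∈ S \ T, w v (insert q T) = ∏ v ∈ S \ T, w v T := by
        refine Finset.prod_congr rfl fun v hv => ?_
        rw [Finset.mem_sdiff] at hv
        exact h2 T hT v hv.1 hv.2
      rw [this]
      ring
    rw [Finset.sum_congr rfl h4, sum_ps, Finset.sum_eq_zero] at h3
    · simp only [Finset.sdiff_self, prod_empty, mul_one, add_zero] at h3
      have : fr w (insert q S) = -fr w S := by linear_combination h3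
      rw [this]
      exact ZMod.neg_eq_self_mod_two _
    · intro T hT
      rw [Finset.mem_ssubsets] at hT
      rw [ih T hT (fun h => hq (hT.1 h)) (fun U hU => h1 U (hU.trans hT.1))
        (fun U hU v hv hvU => h2 U (hU.trans hT.1) v (hT.1 hv) hvU), ← two_mul]
      have : (2 : ZMod 2) = 0 := rfl
      rw [this, zero_mul, zero_mul]

/-- removing a pair -/
theorem fr_pair (w : V → Finset V → ZMod 2) {p q : V} (hpq : p ≠ q) (R : Finset V) (hp : p ∉ R)
    (hq : q ∉ R) (h1 : ∀ T ⊆ R, w q T = 1) (h2 : ∀ T ⊆ R, w q (insert p T) = 0)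
    (h3 : ∀ T ⊆ R, w p (insert q T) = w p T + 1)
    (h4 : ∀ T ⊆ R, ∀ v ∈ R, v ∉ T → w v (insert q T) = w v T)
    (h5 : ∀ T ⊆ R, ∀ v ∈ R, v ∉ T → w v (insert q (insert p T)) = w v (insert p T)) :
    fr w (insert q (insert p R)) = fr (fun v T => w v (insert p T)) R := by
  induction R using Finset.strongInduction with
  | H R ih =>
    have hqp : q ∉ insert p R := by
      rw [Finset.mem_insert, not_or]; exact ⟨hpq.symm, hq⟩
    have e := fr_sum w (insert q (insert p R))
    rw [if_neg (Finset.insert_ne_empty _ _), Finset.sum_powerset_insert hqp,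
      Finset.sum_powerset_insert hp, Finset.sum_powerset_insert hp] at e
    have c1 : ∀ T ∈ R.powerset, fr w T * ∏ v ∈ insert q (insert p R) \ T, w v T =
        fr w T * w p T * ∏ v ∈ R \ T, w v T := by
      intro T hT
      rw [Finset.mem_powerset] at hT
      rw [sdiff_ins hqp (hT.trans (Finset.subset_insert _ _)), sdiff_ins hp hT,
        Finset.prod_insert, Finset.prod_insert (fun h => hp (Finset.mem_sdiff.1 h).1), h1 T hT]
      · ring
      · rw [Finset.mem_insert, not_or]
        exact ⟨hpq.symm, fun h => hq (Finset.mem_sdiff.1 h).1⟩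
    have c2 : ∀ T ∈ R.powerset, fr w (insert p T) * ∏ v ∈ insert q (insert p R) \ insert p T,
        w v (insert p T) = 0 := by
      intro T hT
      rw [Finset.mem_powerset] at hT
      rw [Finset.prod_eq_zero (i := q), mul_zero]
      · rw [Finset.mem_sdiff, Finset.mem_insert]
        refine ⟨Or.inl rfl, fun h => ?_⟩
        rcases Finset.mem_insert.1 h with h | h
        · exact hpq h.symm
        · exact hq (hT h)
      · exact h2 T hT
    have c3 : ∀ T ∈ R.powerset, fr w (insert q T) * ∏ v ∈ insert q (insert p R) \ insert q T,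
        w v (insert q T) = fr w T * (w p T + 1) * ∏ v ∈ R \ T, w v T := by
      intro T hT
      rw [Finset.mem_powerset] at hT
      rw [ins_sdiff_ins hqp, sdiff_ins hp hT, Finset.prod_insert
        (fun h => hp (Finset.mem_sdiff.1 h).1), h3 T hT]
      have a1 : ∏ v ∈ R \ T, w v (insert q T) = ∏ v ∈ R \ T, w v T := by
        refine Finset.prod_congr rfl fun v hv => ?_
        rw [Finset.mem_sdiff] at hv
        exact h4 T hT v hv.1 hv.2
      have a2 : fr w (insert q T) = fr w T :=
        fr_iso w T (fun h => hq (hT h)) (fun U hU => h1 U (hU.trans hT))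
          (fun U hU v hv hvU => h4 U (hU.trans hT) v (hT hv) hvU)
      rw [a1, a2]
      ring
    have c4 : ∀ T ∈ R.powerset, fr w (insert q (insert p T)) *
        ∏ v ∈ insert q (insert p R) \ insert q (insert p T), w v (insert q (insert p T)) =
        fr w (insert q (insert p T)) * ∏ v ∈ R \ T, w v (insert p T) := by
      intro T hT
      rw [Finset.mem_powerset] at hT
      rw [ins_sdiff_ins hqp, ins_sdiff_ins hp]
      congr 1
      refine Finset.prod_congr rfl fun v hv => ?_
      rw [Finset.mem_sdiff] at hv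
      exact h5 T hT v hv.1 hv.2
    rw [Finset.sum_congr rfl c1, Finset.sum_congr rfl c2, Finset.sum_congr rfl c3,
      Finset.sum_congr rfl c4, Finset.sum_const_zero, add_zero, ← add_assoc,
      ← Finset.sum_add_distrib] at e
    have c5 : ∀ T ∈ R.powerset, fr w T * w p T * ∏ v ∈ R \ T, w v T +
        fr w T * (w p T + 1) * ∏ v ∈ R \ T, w v T = fr w T * ∏ v ∈ R \ T, w v T := by
      intro T _
      have : (2 : ZMod 2) = 0 := rfl
      linear_combination (fr w T * w p T * ∏ v ∈ R \ T, w v T) * this
    rw [Finset.sum_congr rfl c5, fr_sum] at e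
    have e' := fr_sum (fun v T => w v (insert p T)) R
    rw [sum_ps] at e e'
    simp only [Finset.sdiff_self, prod_empty, mul_one] at e e'
    have c6 : ∑ T ∈ R.ssubsets, fr w (insert q (insert p T)) * ∏ v ∈ R \ T, w v (insert p T) =
        ∑ T ∈ R.ssubsets, fr (fun v T => w v (insert p T)) T * ∏ v ∈ R \ T, w v (insert p T) := by
      refine Finset.sum_congr rfl fun T hT => ?_
      rw [Finset.mem_ssubsets] at hT
      rw [ih T hT (fun h => hp (hT.1 h)) (fun h => hq (hT.1 h)) (fun U hU => h1 U (hU.trans hT.1))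
        (fun U hU => h2 U (hU.trans hT.1)) (fun U hU => h3 U (hU.trans hT.1))
        (fun U hU v hv hvU => h4 U (hU.trans hT.1) v (hT.1 hv) hvU)
        (fun U hU v hv hvU => h5 U (hU.trans hT.1) v (hT.1 hv) hvU)]
    rw [c6] at e
    have h2' : (2 : ZMod 2) = 0 := rfl
    linear_combination e - e' - (if R = ∅ then (1 : ZMod 2) else 0) * h2'

/-- the weights given by a graph -/
def gw (A : V → V → ZMod 2) (θ : V → ZMod 2) (v : V) (T : Finset V) : ZMod 2 :=
  θ v + ∑ u ∈ T, A v u

/-- the special sets -/
inductive Good (A : V → V → ZMod 2) : (V → ZMod 2) → Finset V → Prop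
  | empty (θ : V → ZMod 2) : Good A θ ∅
  | iso (θ : V → ZMod 2) (S : Finset V) (q : V) (hq : q ∉ S) (h1 : θ q = 1)
      (h2 : ∀ u ∈ S, A q u = 0) (h3 : ∀ v ∈ S, A v q = 0) (h : Good A θ S) :
      Good A θ (insert q S)
  | pair (θ : V → ZMod 2) (R : Finset V) (p q : V) (hpq : p ≠ q) (hp : p ∉ R) (hq : q ∉ R)
      (h1 : θ q = 1) (h2 : A q p = 1) (h3 : A p q = 1) (h4 : ∀ u ∈ R, A q u = 0)
      (h5 : ∀ v ∈ R, A v q = 0) (h : Good A (fun v => θ v + A v p) R) :
      Good A θ (insert q (insert p R))

theorem gw_insert (A : V → V → ZMod 2) (θ : V → ZMod 2) (v : V) {u : V} {T : Finset V}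
    (hu : u ∉ T) : gw A θ v (insert u T) = gw A θ v T + A v u := by
  unfold gw
  rw [Finset.sum_insert hu]
  ring

theorem Good.fr {A : V → V → ZMod 2} {θ : V → ZMod 2} {S : Finset V} (h : Good A θ S) :
    fr (gw A θ) S = 1 := by
  induction h with
  | empty θ => exact fr_empty _
  | iso θ S q hq h1 h2 h3 _ ih =>
    rw [fr_iso _ S hq, ih]
    · intro T hT
      unfold gw
      rw [h1, Finset.sum_eq_zero (fun u hu => h2 u (hT hu)), add_zero]
    · intro T hT v hv _
      rw [gw_insert A θ v (fun h => hq (hT h)), h3 v hv, add_zero]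
  | pair θ R p q hpq hp hq h1 h2 h3 h4 h5 _ ih =>
    have hqT : ∀ T ⊆ R, gw A θ q T = 1 := by
      intro T hT
      unfold gw
      rw [h1, Finset.sum_eq_zero (fun u hu => h4 u (hT hu)), add_zero]
    rw [fr_pair _ hpq R hp hq hqT]
    · rw [← ih]
      apply fr_unique
      intro T hT v _ _
      show gw A θ v (insert p T) = gw A (fun v => θ v + A v p) v T
      rw [gw_insert A θ v (fun h => hp (hT h))]
      unfold gw
      ring
    · intro T hT
      rw [gw_insert A θ q (fun h => hp (hT h)), hqT T hT, h2]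
      rfl
    · intro T hT
      rw [gw_insert A θ p (fun h => hq (hT h)), h3]
    · intro T hT v hv _
      rw [gw_insert A θ v (fun h => hq (hT h)), h5 v hv, add_zero]
    · intro T hT v hv _
      rw [gw_insert A θ v, h5 v hv, add_zero]
      rw [Finset.mem_insert, not_or]
      exact ⟨hpq.symm, fun h => hq (hT h)⟩

/-- the kernel is trivial -/
theorem Good.ker {A : V → V → ZMod 2} {θ : V → ZMod 2} {S : Finset V} (h : Good A θ S)
    (t : V → ZMod 2) (ht : ∀ v ∈ S, θ v * t v + ∑ u ∈ S, A v u * (t v + t u) = 0) :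
    ∀ v ∈ S, t v = 0 := by
  have h2' : (2 : ZMod 2) = 0 := rfl
  induction h with
  | empty θ => intro v hv; exact absurd hv (Finset.notMem_empty _)
  | iso θ S q hq h1 h2 h3 _ ih =>
    have htq : t q = 0 := by
      have := ht q (Finset.mem_insert_self _ _)
      rw [Finset.sum_insert hq, h1, Finset.sum_eq_zero (fun u hu => by rw [h2 u hu, zero_mul])] at this
      linear_combination this - A q q * t q * h2'
    intro v hv
    rw [Finset.mem_insert] at hv
    rcases hv with rfl | hv
    · exact htq
    · refine ih ?_ v hv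
      intro v hv
      have := ht v (Finset.mem_insert_of_mem hv)
      rw [Finset.sum_insert hq, h3 v hv, zero_mul, zero_add] at this
      exact this
  | pair θ R p q hpq hp hq h1 h2 h3 h4 h5 _ ih =>
    have hqp : q ∉ insert p R := by
      rw [Finset.mem_insert, not_or]; exact ⟨hpq.symm, hq⟩
    have htp : t p = 0 := by
      have := ht q (Finset.mem_insert_self _ _)
      rw [Finset.sum_insert hqp, Finset.sum_insert hp, h1, h2,
        Finset.sum_eq_zero (fun u hu => by rw [h4 u hu, zero_mul])] at this
      linear_combination this - (A q q * t q + t q) * h2'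
    have hR : ∀ v ∈ R, t v = 0 := by
      apply ih
      intro v hv
      have := ht v (Finset.mem_insert_of_mem (Finset.mem_insert_of_mem hv))
      rw [Finset.sum_insert hqp, Finset.sum_insert hp, h5 v hv, zero_mul, zero_add, htp,
        add_zero] at this
      rw [← this]
      ring
    have htq : t q = 0 := by
      have := ht p (Finset.mem_insert_of_mem (Finset.mem_insert_self _ _))
      rw [Finset.sum_insert hqp, Finset.sum_insert hp, h3, htp,
        Finset.sum_eq_zero (fun u hu => by rw [hR u hu]; ring)] at this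
      linear_combination this
    intro v hv
    rw [Finset.mem_insert, Finset.mem_insert] at hv
    rcases hv with rfl | rfl | hv
    · exact htq
    · exact htp
    · exact hR v hv

/-- the sets with nondegenerate symbols -/
structure Gd (A : V → V → ZMod 2) (θ : V → ZMod 2) (S : Finset V) : Prop where
  fr : fr (gw A θ) S = 1
  ker : ∀ t : V → ZMod 2, (∀ v ∈ S, θ v * t v + ∑ u ∈ S, A v u * (t v + t u) = 0) →
    ∀ v ∈ S, t v = 0

theorem Good.gd {A : V → V → ZMod 2} {θ : V → ZMod 2} {S : Finset V} (h : Good A θ S) :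
    Gd A θ S := ⟨h.fr, fun t ht => h.ker t ht⟩

theorem Gd.iso {A : V → V → ZMod 2} {θ : V → ZMod 2} {S : Finset V} (h : Gd A θ S) {q : V}
    (hq : q ∉ S) (h1 : θ q = 1) (h2 : ∀ u ∈ S, A q u = 0) (h3 : ∀ v ∈ S, A v q = 0) :
    Gd A θ (insert q S) := by
  have h2' : (2 : ZMod 2) = 0 := rfl
  refine ⟨?_, ?_⟩
  · rw [fr_iso _ S hq, h.fr]
    · intro T hT
      unfold gw
      rw [h1, Finset.sum_eq_zero (fun u hu => h2 u (hT hu)), add_zero]
    · intro T hT v hv _
      rw [gw_insert A θ v (fun h => hq (hT h)), h3 v hv, add_zero]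
  · intro t ht
    have htq : t q = 0 := by
      have := ht q (Finset.mem_insert_self _ _)
      rw [Finset.sum_insert hq, h1, Finset.sum_eq_zero (fun u hu => by rw [h2 u hu, zero_mul])] at this
      linear_combination this - A q q * t q * h2'
    intro v hv
    rw [Finset.mem_insert] at hv
    rcases hv with rfl | hv
    · exact htq
    · refine h.ker t ?_ v hv
      intro v hv
      have := ht v (Finset.mem_insert_of_mem hv)
      rw [Finset.sum_insert hq, h3 v hv, zero_mul, zero_add] at this
      exact this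

end Pool.Agent.Y697.MQ
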