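import Pool.Agent.Y697.MQ.Eul
import Pool.Agent.Y697.MQ.Gad

/-! The non-vanishing of the central values. -/

set_option autoImplicit false

open Filter Complex
open scoped Topology

namespace Pool.Agent.Y697.MQ


/-- the graph of the non-residues -/
noncomputable def gA (v u : GaussianInt) : ZMod 2 := if leg u v = -1 then 1 else 0

/-- the weights of the vertices -/
noncomputable def gθ (v : GaussianInt) : ZMod 2 := if ci v = -1 then 1 else 0

/-- the sign as an element of `ZMod 2` -/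
theorem sgn_mul {x y : ℤ} (hx : x = 1 ∨ x = -1) (hy : y = 1 ∨ y = -1) :
    (if x * y = -1 then (1 : ZMod 2) else 0) =
      (if x = -1 then 1 else 0) + (if y = -1 then 1 else 0) := by
  rcases hx with rfl | rfl <;> rcases hy with rfl | rfl <;> decide

theorem sgn_prod {ι : Type} (s : Finset ι) (f : ι → ℤ) (hf : ∀ i ∈ s, f i = 1 ∨ f i = -1) :
    (∏ i ∈ s, f i = 1 ∨ ∏ i ∈ s, f i = -1) ∧ (if ∏ i ∈ s, f i = -1 then (1 : ZMod 2) else 0) =
      ∑ i ∈ s, (if f i = -1 then 1 else 0) := by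
  classical
  induction s using Finset.induction_on with
  | empty => simp
  | insert a s ha ih =>
    obtain ⟨i1, i2⟩ := ih fun i hi => hf i (Finset.mem_insert_of_mem hi)
    have h1 := hf a (Finset.mem_insert_self _ _)
    rw [Finset.prod_insert ha, Finset.sum_insert ha, sgn_mul h1 i1, i2]
    refine ⟨?_, rfl⟩
    rcases h1 with h1 | h1 <;> rcases i1 with i1 | i1 <;> rw [h1, i1] <;> norm_num

theorem wt_gw {T : Finset GaussianInt} (hT : ∀ p ∈ T, OP p) {p : GaussianInt} (hp : OP p) (hpT : p ∉ T) :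
    ((wt p T : ℤ) : ZMod 2) = gw gA gθ p T := by
  have h1 : ∀ u ∈ T, leg u p = 1 ∨ leg u p = -1 := fun u hu => leg_ne fun h => hpT (by
    rw [← (hT u hu).dvd hp h]; exact hu)
  obtain ⟨h2, h3⟩ := sgn_prod T (fun u => leg u p) h1
  have h4 := sgn_mul (ci_ne hp.pm) h2
  rw [h3] at h4
  unfold wt gw gA gθ ch
  rw [← h4]
  split_ifs <;> simp

/-- the integral lift of the recursion -/
noncomputable def fz (T : Finset GaussianInt) : ℤ := ((fr (gw gA gθ) T).val : ℤ)

theorem fz_cast (T : Finset GaussianInt) : ((fz T : ℤ) : ZMod 2) = fr (gw gA gθ) T := by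
  unfold fz
  push_cast
  exact ZMod.natCast_zmod_val _

theorem fz_one {T : Finset GaussianInt} (h : fr (gw gA gθ) T = 1) : fz T % 2 = 1 := by
  unfold fz
  rw [h]
  rfl

theorem fz_rec {S : Finset GaussianInt} (hS : ∀ p ∈ S, OP p) (hne : S.Nonempty) :
    (∑ T ∈ S.powerset, fz T * ∏ p ∈ S \ T, wt p T) % 2 = 0 := by
  have h1 : ((∑ T ∈ S.powerset, fz T * ∏ p ∈ S \ T, wt p T : ℤ) : ZMod 2) = 0 := by
    push_cast
    rw [← (fr_sum (gw gA gθ) S).trans (if_neg hne.ne_empty)]
    refine Finset.sum_congr rfl fun T hT => ?_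
    rw [Finset.mem_powerset] at hT
    rw [fz_cast]
    congr 1
    refine Finset.prod_congr rfl fun p hp => ?_
    rw [Finset.mem_sdiff] at hp
    exact wt_gw (fun q hq => hS q (hT hq)) (hS p hp.1) hp.2
  have h2 := (ZMod.intCast_zmod_eq_zero_iff_dvd _ 2).1 h1
  exact Int.emod_eq_zero_of_dvd h2

/-- **The `L`-functions.** -/
theorem main_L {S : Finset GaussianInt} (hS : ∀ p ∈ S, OP p) (hG : Gd gA gθ S) : ∃ F : ℂ → ℂ,
    Differentiable ℂ F ∧ (∀ z : ℂ, 3 / 2 < z.re →
      HasProd (fun q : {q : GaussianInt // OP q} => (1 - lt S z q.1)⁻¹) (F z)) ∧ F 1 ≠ 0 := by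
  classical
  obtain ⟨L, Ω, Q⟩ := exists_sq
  obtain ⟨B, hB⟩ := exists_val
  set lam : Finset GaussianInt → ℂ := fun T => if h : ∀ p ∈ T, OP p then
    (starRingEnd ℂ) ((Classical.choose (exists_L h)) 1) else 0 with hlam
  have hl : ∀ T : Finset GaussianInt, (∀ p ∈ T, OP p) → Tendsto (gs T ∅) (𝓝[>] 0) (𝓝 (lam T)) := by
    intro T hT
    simp only [hlam]
    rw [dif_pos hT]
    exact (Classical.choose_spec (exists_L hT)).2.2
  have h1 := lam_ne B.valuation hB Q hl fz (fz_one (fr_empty _)) (fun S hS hne => fz_rec hS hne)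
    S hS (fz_one hG.fr)
  obtain ⟨h2, h3, -⟩ := Classical.choose_spec (exists_L hS)
  refine ⟨Classical.choose (exists_L hS), h2, h3, fun h0 => h1 ?_⟩
  simp only [hlam]
  rw [dif_pos hS, h0, map_zero]

end Pool.Agent.Y697.MQ
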