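import Pool.Agent.Y697.MQ.Sym
import Pool.Agent.Y697.MQ.Crd

/-! Quadratic reciprocity for the Gaussian integers. -/

set_option autoImplicit false

namespace Pool.Agent.Y697.MQ


theorem norm_eq (z : GaussianInt) : z.norm = z.re * z.re + z.im * z.im := by
  unfold Zsqrtd.norm; ring

/-- Euler's criterion -/
theorem euler {p : GaussianInt} (hp : OP p) (a : GaussianInt) : p ∣ a ^ (p.norm.natAbs / 2) - (leg p a : GaussianInt) := by
  classical
  have := Prime.max hp.pr
  let _ : Field (GaussianInt ⧸ Ideal.span {p}) := Ideal.Quotient.field _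
  have := fin_quot hp.pr.ne_zero
  let _ := Fintype.ofFinite (GaussianInt ⧸ Ideal.span {p})
  have hc : ringChar (GaussianInt ⧸ Ideal.span {p}) ≠ 2 := by
    intro h
    have h2 : ((2 : ℕ) : GaussianInt ⧸ Ideal.span {p}) = 0 := by
      rw [← h]; exact ringChar.Nat.cast_ringChar
    have h3 : Ideal.Quotient.mk (Ideal.span {p}) 2 = 0 := by
      rw [← h2]; exact map_natCast (Ideal.Quotient.mk (Ideal.span {p})) 2
    rw [Ideal.Quotient.eq_zero_iff_mem, Ideal.mem_span_singleton] at h3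
    exact hp.two h3
  have key : leg p a = quadraticChar (GaussianInt ⧸ Ideal.span {p}) (Ideal.Quotient.mk _ a) := by
    have h1 : p ∣ a ↔ Ideal.Quotient.mk (Ideal.span {p}) a = 0 := by
      rw [Ideal.Quotient.eq_zero_iff_mem, Ideal.mem_span_singleton]
    have h2 : (∃ b : GaussianInt, p ∣ b ^ 2 - a) ↔ IsSquare (Ideal.Quotient.mk (Ideal.span {p}) a) := by
      constructor
      · rintro ⟨d, hd⟩
        refine ⟨Ideal.Quotient.mk _ d, ?_⟩
        rw [← map_mul, ← pow_two]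
        symm
        rw [Ideal.Quotient.mk_eq_mk_iff_sub_mem, Ideal.mem_span_singleton]
        exact hd
      · rintro ⟨d, hd⟩
        obtain ⟨d, rfl⟩ := Ideal.Quotient.mk_surjective d
        refine ⟨d, ?_⟩
        rw [← map_mul, ← pow_two] at hd
        rw [← Ideal.mem_span_singleton, ← Ideal.Quotient.mk_eq_mk_iff_sub_mem]
        exact hd.symm
    rw [quadraticChar_apply]
    unfold leg quadraticCharFun
    simp only [h1, h2]
  have h3 := quadraticChar_eq_pow_of_char_ne_two' hc (Ideal.Quotient.mk (Ideal.span {p}) a)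
  have h4 : Fintype.card (GaussianInt ⧸ Ideal.span {p}) = p.norm.natAbs := by
    rw [← Nat.card_eq_fintype_card, card_res]
  rw [h4, ← key] at h3
  rw [← Ideal.mem_span_singleton, ← Ideal.Quotient.mk_eq_mk_iff_sub_mem, map_pow, map_intCast]
  exact h3.symm

/-- small integers -/
theorem small {p : GaussianInt} (hp : OP p) {x y : ℤ} (hx : x = 1 ∨ x = -1) (hy : y = 0 ∨ y = 1 ∨ y = -1)
    (h : p ∣ (x : GaussianInt) - (y : GaussianInt)) : x = y := by
  have hn1 : ¬ p ∣ 1 := fun h => hp.pr.not_isUnit (isUnit_of_dvd_one h)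
  by_contra hne
  rcases hx with rfl | rfl <;> rcases hy with rfl | rfl | rfl
  · apply hn1; simpa using h
  · exact hne rfl
  · apply hp.two
    have : ((1 : ℤ) : GaussianInt) - ((-1 : ℤ) : GaussianInt) = 2 := by decide
    rwa [this] at h
  · apply hn1
    have : ((-1 : ℤ) : GaussianInt) - ((0 : ℤ) : GaussianInt) = -1 := by decide
    rw [this, dvd_neg] at h
    exact h
  · apply hp.two
    have : ((-1 : ℤ) : GaussianInt) - ((1 : ℤ) : GaussianInt) = -2 := by decide
    rw [this, dvd_neg] at h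
    exact h
  · exact hne rfl

theorem leg_of_pow {p : GaussianInt} (hp : OP p) {a : GaussianInt} {x : ℤ} (hx : x = 1 ∨ x = -1)
    (h : p ∣ a ^ (p.norm.natAbs / 2) - (x : GaussianInt)) : leg p a = x := by
  have h1 := euler hp a
  have h2 : p ∣ (x : GaussianInt) - (leg p a : GaussianInt) := by
    have := dvd_sub h1 h
    rwa [sub_sub_sub_cancel_left] at this
  exact (small hp hx (leg_cases p a) h2).symm

/-- the types of primary primes -/
theorem types {p : GaussianInt} (hp : OP p) : ∃ q : ℕ, q.Prime ∧ p ∣ (q : GaussianInt) ∧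
    ((q % 4 = 1 ∧ p.norm.natAbs = q) ∨ (q % 4 = 3 ∧ p = -(q : GaussianInt) ∧ p.norm.natAbs = q ^ 2)) := by
  classical
  have hex : ∃ n : ℕ, 0 < n ∧ p ∣ (n : GaussianInt) := by
    refine ⟨p.norm.natAbs, ?_, ?_⟩
    · rw [Int.natAbs_pos]
      exact (GaussianInt.norm_pos.2 hp.pr.ne_zero).ne'
    · have h1 : ((p.norm.natAbs : ℕ) : GaussianInt) = ((p.norm : ℤ) : GaussianInt) := by
        have h2 : ((p.norm.natAbs : ℕ) : ℤ) = p.norm := by
          rw [Int.natCast_natAbs, abs_of_nonneg (GaussianInt.norm_nonneg _)]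
        rw [← h2]; simp
      rw [h1, Zsqrtd.norm_eq_mul_conj]
      exact dvd_mul_right _ _
  set q := Nat.find hex with hq
  obtain ⟨hq0, hqd⟩ := Nat.find_spec hex
  have hq1 : q ≠ 1 := by
    intro h
    rw [← hq, h, Nat.cast_one] at hqd
    exact hp.pr.not_isUnit (isUnit_of_dvd_one hqd)
  have hqp : q.Prime := by
    rw [Nat.prime_def_lt]
    refine ⟨by omega, fun m hm hmd => ?_⟩
    obtain ⟨k, hk⟩ := hmd
    have hm0 : 0 < m := by
      rcases Nat.eq_zero_or_pos m with h | h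
      · rw [h, zero_mul] at hk; omega
      · exact h
    have hk0 : 0 < k := by
      rcases Nat.eq_zero_or_pos k with h | h
      · rw [h, mul_zero] at hk; omega
      · exact h
    have h1 : p ∣ (m : GaussianInt) * (k : GaussianInt) := by
      rw [← Nat.cast_mul, ← hk]; exact hqd
    rcases hp.pr.dvd_or_dvd h1 with h | h
    · exact absurd ⟨hm0, h⟩ (Nat.find_min hex hm)
    · by_contra hm1
      have : k < q := by
        rw [hk]
        have : 2 ≤ m := by omega
        nlinarith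
      exact absurd ⟨hk0, h⟩ (Nat.find_min hex this)
  have : Fact q.Prime := ⟨hqp⟩
  refine ⟨q, hqp, hqd, ?_⟩
  obtain ⟨c, hc⟩ := hqd
  have hn : p.norm.natAbs * c.norm.natAbs = q ^ 2 := by
    have h1 := congrArg (fun x : GaussianInt => x.norm.natAbs) hc
    simp only [Zsqrtd.norm_mul, Int.natAbs_mul] at h1
    have h2 : ((q : GaussianInt).norm).natAbs = q ^ 2 := by
      rw [Zsqrtd.norm_natCast, Int.natAbs_mul, Int.natAbs_natCast, pow_two]
    rw [← hq, h2] at h1
    exact h1.symm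
  have hp1 : p.norm.natAbs ≠ 1 := fun h => hp.pr.not_isUnit (Zsqrtd.norm_eq_one_iff.1 h)
  obtain ⟨j, hj, hj2⟩ := (Nat.dvd_prime_pow hqp).1 ⟨_, hn.symm⟩
  have hj' : j = 1 ∨ j = 2 := by
    interval_cases j
    · rw [pow_zero] at hj2; exact absurd hj2 hp1
    · exact Or.inl rfl
    · exact Or.inr rfl
  have hpo : p.re % 2 = 1 ∧ p.im % 2 = 0 := by
    have := hp.pm
    unfold Pr at this
    omega
  rcases hj' with rfl | rfl
  · left
    rw [pow_one] at hj2
    refine ⟨?_, hj2⟩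
    have h3 : (p.norm.natAbs : ℤ) = p.re * p.re + p.im * p.im := by
      rw [Int.natCast_natAbs, abs_of_nonneg (GaussianInt.norm_nonneg _), norm_eq]
    rw [hj2] at h3
    obtain ⟨x, hx⟩ : ∃ x, p.re = 2 * x + 1 := ⟨p.re / 2, by omega⟩
    obtain ⟨y, hy⟩ : ∃ y, p.im = 2 * y := ⟨p.im / 2, by omega⟩
    rw [hx, hy] at h3
    have h4 : (q : ℤ) = 4 * (x * x + x + y * y) + 1 := by rw [h3]; ring
    omega
  · right
    have hcu : IsUnit c := by
      apply Zsqrtd.norm_eq_one_iff.1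
      rw [hj2] at hn
      have : 0 < q ^ 2 := by positivity
      exact Nat.eq_of_mul_eq_mul_left this (by rw [hn, mul_one])
    have hass : Associated p (q : GaussianInt) := by
      obtain ⟨u, rfl⟩ := hcu
      exact ⟨u, hc.symm⟩
    have h3 : q % 4 = 3 := GaussianInt.mod_four_eq_three_of_nat_prime_of_prime q
      (hass.prime hp.pr)
    refine ⟨h3, ?_, hj2⟩
    apply hp.pm.assoc
    · refine Or.inl ⟨?_, ?_⟩
      · have : (-(q : GaussianInt)).re = -(q : ℤ) := by simp
        rw [this]; omega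
      · have : (-(q : GaussianInt)).im = 0 := by simp
        rw [this]; rfl
    · exact hass.trans (Associated.neg_right (Associated.refl _))

/-- symbols of integers modulo a prime of degree one -/
theorem leg_int {p : GaussianInt} (hp : OP p) {q : ℕ} [Fact q.Prime] (hq : p.norm.natAbs = q)
    (n : ℤ) (hn : ¬ p ∣ (n : GaussianInt)) : leg p (n : GaussianInt) = legendreSym q n := by
  have hpq : p ∣ ((q : ℤ) : GaussianInt) := by
    have h1 : ((q : ℤ) : GaussianInt) = ((p.norm : ℤ) : GaussianInt) := by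
      have h2 : ((p.norm.natAbs : ℕ) : ℤ) = p.norm := by
        rw [Int.natCast_natAbs, abs_of_nonneg (GaussianInt.norm_nonneg _)]
      rw [← h2, hq]
    rw [h1, Zsqrtd.norm_eq_mul_conj]
    exact dvd_mul_right _ _
  have hq0 : ((n : ℤ) : ZMod q) ≠ 0 := by
    intro h
    rw [ZMod.intCast_zmod_eq_zero_iff_dvd] at h
    obtain ⟨c, rfl⟩ := h
    apply hn
    push_cast at hpq ⊢
    exact hpq.mul_right _
  have h1 := legendreSym.eq_pow q n
  have h2 : (q : ℤ) ∣ n ^ (q / 2) - legendreSym q n := by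
    rw [← ZMod.intCast_zmod_eq_zero_iff_dvd]
    push_cast
    rw [h1, sub_self]
  apply leg_of_pow hp (legendreSym.eq_one_or_neg_one q hq0)
  rw [hq]
  have h3 : ((q : ℤ) : GaussianInt) ∣ ((n ^ (q / 2) - legendreSym q n : ℤ) : GaussianInt) := by
    obtain ⟨c, hc⟩ := h2
    exact ⟨(c : GaussianInt), by rw [hc]; push_cast; rfl⟩
  have h4 := hpq.trans h3
  push_cast at h4 ⊢
  exact h4

theorem J_one {m k : ℤ} {N : ℕ} (hN : N % 4 = 1) (hm : m % 2 = 1) (h : (N : ℤ) = m * m + k * k)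
    (hc : IsCoprime m k) : jacobiSym m N = 1 := by
  have hNo : Odd N := Nat.odd_iff.2 (by omega)
  have hmo : Odd m.natAbs := by
    rw [Int.natAbs_odd, Int.odd_iff]; exact hm
  have h1 : jacobiSym m N = jacobiSym (m.natAbs : ℤ) N := by
    rcases Int.natAbs_eq m with h2 | h2
    · rw [← h2]
    · conv_lhs => rw [h2]
      rw [jacobiSym.neg _ hNo, ZMod.χ₄_nat_one_mod_four hN, one_mul]
  rw [h1, ← jacobiSym.quadratic_reciprocity_one_mod_four hN hmo]
  have h2 : (N : ℤ) % (m.natAbs : ℤ) = (k ^ 2) % (m.natAbs : ℤ) := by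
    rw [← Int.ModEq, Int.modEq_iff_dvd]
    rw [Int.natAbs_dvd]
    exact ⟨-m, by rw [h]; ring⟩
  rw [jacobiSym.mod_left' h2]
  apply jacobiSym.sq_one'
  have h3 : Int.gcd m k = 1 := Int.isCoprime_iff_gcd_eq_one.1 hc
  rw [Int.gcd_comm] at h3
  rw [← h3]
  unfold Int.gcd
  rw [Int.natAbs_natCast]

theorem dvd_int_iff {p : GaussianInt} {q : ℕ} (hqp : q.Prime) (hq : p.norm.natAbs = q) (n : ℤ) :
    p ∣ (n : GaussianInt) ↔ (q : ℤ) ∣ n := by
  have hnorm : ((p.norm.natAbs : ℕ) : ℤ) = p.norm := by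
    rw [Int.natCast_natAbs, abs_of_nonneg (GaussianInt.norm_nonneg _)]
  constructor
  · rintro ⟨c, hc⟩
    have h1 := congrArg Zsqrtd.norm hc
    rw [Zsqrtd.norm_mul, Zsqrtd.norm_intCast, ← hnorm, hq] at h1
    have hpq : Prime (q : ℤ) := Nat.prime_iff_prime_int.1 hqp
    have h2 : (q : ℤ) ∣ n * n := ⟨_, h1⟩
    rcases hpq.dvd_or_dvd h2 with h | h <;> exact h
  · rintro ⟨c, rfl⟩
    have h1 : ((q : ℤ) : GaussianInt) = ((p.norm : ℤ) : GaussianInt) := by
      rw [← hnorm, hq]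
    push_cast at h1 ⊢
    rw [h1, Zsqrtd.norm_eq_mul_conj, mul_assoc]
    exact dvd_mul_right _ _

/-- the symbol modulo a prime of degree one -/
theorem leg_one_deg {p : GaussianInt} (hp : OP p) {q : ℕ} [Fact q.Prime] (hq : p.norm.natAbs = q)
    (h4 : q % 4 = 1) (x : GaussianInt) (hx : ¬ p ∣ x) :
    leg p x = legendreSym q (x.re * p.re + x.im * p.im) := by
  have hqp : q.Prime := Fact.out
  have hqz : (q : ℤ) = p.re * p.re + p.im * p.im := by
    rw [← hq, Int.natCast_natAbs, abs_of_nonneg (GaussianInt.norm_nonneg _), norm_eq]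
  have hre : ¬ (q : ℤ) ∣ p.re := by
    intro h
    have h0 : p.re ≠ 0 := by
      have := hp.pm
      unfold Pr at this
      omega
    have h1 := Int.le_of_dvd (abs_pos.2 h0) ((dvd_abs _ _).2 h)
    have h2 : |p.re| * |p.re| = p.re * p.re := abs_mul_abs_self _
    have h3 := mul_self_nonneg p.im
    have h4 : 1 < (q : ℤ) := by exact_mod_cast hqp.one_lt
    nlinarith
  have hre' : ¬ p ∣ ((p.re : ℤ) : GaussianInt) := by
    rw [dvd_int_iff hqp hq]; exact hre
  -- c = re p
  have hcop : IsCoprime p.re p.im := by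
    rw [Int.isCoprime_iff_gcd_eq_one]
    by_contra hg
    obtain ⟨r, hr, hrd⟩ := Nat.exists_prime_and_dvd hg
    have h1 : (r : ℤ) ∣ p.re := (Int.natCast_dvd_natCast.2 hrd).trans (Int.gcd_dvd_left _ _)
    have h2 : (r : ℤ) ∣ p.im := (Int.natCast_dvd_natCast.2 hrd).trans (Int.gcd_dvd_right _ _)
    have h3 : (r : ℤ) ∣ q := by
      rw [hqz]; exact dvd_add (h1.mul_right _) (h2.mul_right _)
    have h4 : r = q := (Nat.prime_dvd_prime_iff_eq hr hqp).1 (by exact_mod_cast h3)
    rw [h4] at h1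
    exact hre h1
  have hpo : p.re % 2 = 1 := by
    have := hp.pm
    unfold Pr at this
    omega
  have hc1 : leg p ((p.re : ℤ) : GaussianInt) = 1 := by
    rw [leg_int hp hq _ hre', jacobiSym.legendreSym.to_jacobiSym]
    exact J_one h4 hpo hqz hcop
  have hmul : leg p (((p.re : ℤ) : GaussianInt) * x) = leg p (((x.re * p.re + x.im * p.im : ℤ)) : GaussianInt) := by
    apply leg_congr
    refine ⟨⟨0, 1⟩ * (x.im : GaussianInt), ?_⟩
    ext
    · simp [Zsqrtd.re_mul, Zsqrtd.im_mul]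
      ring
    · simp [Zsqrtd.re_mul, Zsqrtd.im_mul]
      try ring
  rw [leg_mul hp.pr, hc1, one_mul] at hmul
  rw [hmul]
  apply leg_int hp hq
  intro h
  apply hx
  rw [← leg_eq_zero, hmul, leg_eq_zero]
  exact h

/-- the symbol modulo an inert prime -/
theorem leg_inert {p : GaussianInt} (hp : OP p) {q : ℕ} [Fact q.Prime] (h3 : q % 4 = 3) (hpq : p = -(q : GaussianInt))
    (hN : p.norm.natAbs = q ^ 2) (x : GaussianInt) (hx : ¬ p ∣ x) :
    leg p x = legendreSym q x.norm := by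
  have hqp : q.Prime := Fact.out
  have hdp : ∀ y : GaussianInt, p ∣ y ↔ (q : GaussianInt) ∣ y := by
    intro y; rw [hpq, neg_dvd]
  have hdint : ∀ n : ℤ, p ∣ (n : GaussianInt) ↔ (q : ℤ) ∣ n := by
    intro n
    rw [hdp]
    constructor
    · rintro ⟨c, hc⟩
      have := congrArg Zsqrtd.re hc
      refine ⟨c.re, ?_⟩
      simpa [Zsqrtd.re_mul] using this
    · rintro ⟨c, rfl⟩
      exact ⟨(c : GaussianInt), by push_cast; rfl⟩
  -- Frobenius
  have hfrob : p ∣ x ^ q - star x := by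
    have e1 : x = (x.re : GaussianInt) + (x.im : GaussianInt) * ⟨0, 1⟩ := by
      ext <;> simp
    have e2 : star x = (x.re : GaussianInt) - (x.im : GaussianInt) * ⟨0, 1⟩ := by
      ext <;> simp
    have hI : (⟨0, 1⟩ : GaussianInt) ^ q = -⟨0, 1⟩ := by
      obtain ⟨k, hk⟩ : ∃ k, q = 4 * k + 3 := ⟨q / 4, by omega⟩
      have h4 : (⟨0, 1⟩ : GaussianInt) ^ 4 = 1 := by decide
      rw [hk, pow_add, pow_mul, h4, one_pow, one_mul]
      decide
    have hflt : ∀ n : ℤ, p ∣ ((n : GaussianInt)) ^ q - (n : GaussianInt) := by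
      intro n
      have : ((n : GaussianInt)) ^ q - (n : GaussianInt) = ((n ^ q - n : ℤ) : GaussianInt) := by push_cast; ring
      rw [this, hdint, ← ZMod.intCast_zmod_eq_zero_iff_dvd]
      push_cast
      rw [ZMod.pow_card, sub_self]
    obtain ⟨c', hc'⟩ := exists_add_pow_prime_eq hqp (x.re : GaussianInt) ((x.im : GaussianInt) * ⟨0, 1⟩)
    obtain ⟨c, hc⟩ : ∃ c, ((x.re : GaussianInt) + (x.im : GaussianInt) * ⟨0, 1⟩) ^ q = (x.re : GaussianInt) ^ q +
        ((x.im : GaussianInt) * ⟨0, 1⟩) ^ q + (q : GaussianInt) * c :=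
      ⟨(x.re : GaussianInt) * ((x.im : GaussianInt) * ⟨0, 1⟩) * c', by rw [hc']; ring⟩
    have h5 : x ^ q = (x.re : GaussianInt) ^ q + ((x.im : GaussianInt) * ⟨0, 1⟩) ^ q + (q : GaussianInt) * c := by
      conv_lhs => rw [e1]
      exact hc
    rw [h5, e2, mul_pow, hI]
    have h6 : (x.re : GaussianInt) ^ q + (x.im : GaussianInt) ^ q * -⟨0, 1⟩ + (q : GaussianInt) * c -
        ((x.re : GaussianInt) - (x.im : GaussianInt) * ⟨0, 1⟩) = ((x.re : GaussianInt) ^ q - (x.re : GaussianInt)) -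
        ((x.im : GaussianInt) ^ q - (x.im : GaussianInt)) * ⟨0, 1⟩ + (q : GaussianInt) * c := by ring
    rw [h6]
    exact dvd_add (dvd_sub (hflt _) ((hflt _).mul_right _))
      (by rw [hdp]; exact dvd_mul_right _ _)
  have hq2 : q ^ 2 / 2 = (q + 1) * (q / 2) := by
    obtain ⟨k, hk⟩ : ∃ k, q = 2 * k + 1 := ⟨q / 2, by omega⟩
    rw [hk]
    have h1 : (2 * k + 1) ^ 2 = 2 * (2 * k ^ 2 + 2 * k) + 1 := by ring
    rw [h1]
    have h2 : (2 * k + 1) / 2 = k := by omega
    rw [h2]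
    have h3 : (2 * (2 * k ^ 2 + 2 * k) + 1) / 2 = 2 * k ^ 2 + 2 * k := by omega
    rw [h3]; ring
  have hnorm : x * star x = ((x.norm : ℤ) : GaussianInt) := (Zsqrtd.norm_eq_mul_conj x).symm
  have hx1 : p ∣ x ^ (q + 1) - ((x.norm : ℤ) : GaussianInt) := by
    rw [← hnorm]
    have : x ^ (q + 1) - x * star x = x * (x ^ q - star x) := by ring
    rw [this]
    exact hfrob.mul_left _
  have hx2 : p ∣ (x ^ (q + 1)) ^ (q / 2) - (((x.norm : ℤ) : GaussianInt)) ^ (q / 2) :=
    hx1.trans (sub_dvd_pow_sub_pow _ _ _)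
  have h5 := legendreSym.eq_pow q x.norm
  have h6 : (q : ℤ) ∣ x.norm ^ (q / 2) - legendreSym q x.norm := by
    rw [← ZMod.intCast_zmod_eq_zero_iff_dvd]
    push_cast
    rw [h5, sub_self]
  have hn0 : ((x.norm : ℤ) : ZMod q) ≠ 0 := by
    intro h
    rw [ZMod.intCast_zmod_eq_zero_iff_dvd, ← hdint] at h
    rw [← hnorm] at h
    rcases hp.pr.dvd_or_dvd h with h | h
    · exact hx h
    · apply hx
      rw [hdp] at h ⊢
      obtain ⟨c, hc⟩ := h
      refine ⟨star c, ?_⟩
      rw [← star_star x, hc, star_mul]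
      simp [mul_comm]
  apply leg_of_pow hp (legendreSym.eq_one_or_neg_one q hn0)
  rw [hN, hq2, pow_mul]
  rw [← hdint] at h6
  push_cast at h6
  have := dvd_add hx2 h6
  rwa [sub_add_sub_cancel] at this

/-- **Quadratic reciprocity** for primary primes -/
theorem recip {p l : GaussianInt} (hp : OP p) (hl : OP l) (hne : p ≠ l) : leg p l = leg l p := by
  have hpl : ¬ p ∣ l := fun h => hne (hp.dvd hl h)
  have hlp : ¬ l ∣ p := fun h => hne (hl.dvd hp h).symm
  obtain ⟨q, hq, hpq, hp2⟩ := types hp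
  obtain ⟨r, hr, hlr, hl2⟩ := types hl
  have : Fact q.Prime := ⟨hq⟩
  have : Fact r.Prime := ⟨hr⟩
  have hn : ∀ z : GaussianInt, ((z.norm.natAbs : ℕ) : ℤ) = z.norm := fun z => by
    rw [Int.natCast_natAbs, abs_of_nonneg (GaussianInt.norm_nonneg _)]
  rcases hp2 with ⟨hq1, hpn⟩ | ⟨hq3, hpe, hpn⟩ <;> rcases hl2 with ⟨hr1, hln⟩ | ⟨hr3, hle, hln⟩
  · -- both of degree one
    have e1 := leg_one_deg hp hpn hq1 l hpl
    have e2 := leg_one_deg hl hln hr1 p hlp
    set m : ℤ := l.re * p.re + l.im * p.im with hm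
    have hm' : p.re * l.re + p.im * l.im = m := by rw [hm]; ring
    rw [hm'] at e2
    have hqm : ¬ (q : ℤ) ∣ m := by
      intro h
      have h1 : legendreSym q m = 0 := (legendreSym.eq_zero_iff q m).2
        ((ZMod.intCast_zmod_eq_zero_iff_dvd _ _).2 h)
      rw [h1, leg_eq_zero] at e1
      exact hpl e1
    have hrm : ¬ (r : ℤ) ∣ m := by
      intro h
      have h1 : legendreSym r m = 0 := (legendreSym.eq_zero_iff r m).2
        ((ZMod.intCast_zmod_eq_zero_iff_dvd _ _).2 h)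
      rw [h1, leg_eq_zero] at e2
      exact hlp e2
    set k : ℤ := p.re * l.im - p.im * l.re with hk
    have hqr : ((q * r : ℕ) : ℤ) = m * m + k * k := by
      push_cast
      rw [← hpn, ← hln, hn, hn, norm_eq, norm_eq, hm, hk]
      ring
    have hpp := hp.pm
    have hlm := hl.pm
    unfold Pr at hpp hlm
    have hmo : m % 2 = 1 := by
      obtain ⟨a, ha⟩ : ∃ a, p.re = 2 * a + 1 := ⟨p.re / 2, by omega⟩
      obtain ⟨b, hb⟩ : ∃ b, p.im = 2 * b := ⟨p.im / 2, by omega⟩
      obtain ⟨c, hc⟩ : ∃ c, l.re = 2 * c + 1 := ⟨l.re / 2, by omega⟩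
      obtain ⟨d, hd⟩ : ∃ d, l.im = 2 * d := ⟨l.im / 2, by omega⟩
      have : m = 2 * (2 * a * c + a + c + 2 * b * d) + 1 := by rw [hm, ha, hb, hc, hd]; ring
      omega
    have hcop : IsCoprime m k := by
      rw [Int.isCoprime_iff_gcd_eq_one]
      by_contra hg
      obtain ⟨t, ht, htd⟩ := Nat.exists_prime_and_dvd hg
      have h1 : (t : ℤ) ∣ m := (Int.natCast_dvd_natCast.2 htd).trans (Int.gcd_dvd_left _ _)
      have h2 : (t : ℤ) ∣ k := (Int.natCast_dvd_natCast.2 htd).trans (Int.gcd_dvd_right _ _)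
      have h3 : (t : ℤ) ∣ ((q * r : ℕ) : ℤ) := by
        rw [hqr]; exact dvd_add (h1.mul_right _) (h2.mul_right _)
      have h4 : t ∣ q * r := by exact_mod_cast h3
      rcases (Nat.Prime.dvd_mul ht).1 h4 with h5 | h5
      · rw [(Nat.prime_dvd_prime_iff_eq ht hq).1 h5] at h1
        exact hqm h1
      · rw [(Nat.prime_dvd_prime_iff_eq ht hr).1 h5] at h1
        exact hrm h1
    have h1 : (q * r) % 4 = 1 := by
      rw [Nat.mul_mod, hq1, hr1]
    have hJ := J_one h1 hmo hqr hcop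
    have : NeZero q := ⟨hq.ne_zero⟩
    have : NeZero r := ⟨hr.ne_zero⟩
    rw [jacobiSym.mul_right, ← jacobiSym.legendreSym.to_jacobiSym,
      ← jacobiSym.legendreSym.to_jacobiSym, ← e1, ← e2] at hJ
    rcases leg_ne hpl with h | h <;> rcases leg_ne hlp with h' | h' <;> rw [h, h'] at hJ ⊢ <;>
      simp at hJ
  · -- p of degree one, l inert
    have e1 : leg p l = legendreSym q (-(r : ℤ)) := by
      have h1 : l = ((-(r : ℤ) : ℤ) : GaussianInt) := by rw [hle]; push_cast; rfl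
      have h2 := leg_int hp hpn (-(r : ℤ)) (by rw [← h1]; exact hpl)
      rw [← h1] at h2
      exact h2
    have e2 := leg_inert hl hr3 hle hln p hlp
    rw [← hn, hpn] at e2
    rw [e1, e2, jacobiSym.legendreSym.to_jacobiSym, jacobiSym.legendreSym.to_jacobiSym,
      jacobiSym.neg _ (Nat.odd_iff.2 (by omega)), ZMod.χ₄_nat_one_mod_four hq1, one_mul]
    exact (jacobiSym.quadratic_reciprocity_one_mod_four hq1 (Nat.odd_iff.2 (by omega))).symm
  · -- p inert, l of degree one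
    have e1 : leg l p = legendreSym r (-(q : ℤ)) := by
      have h1 : p = ((-(q : ℤ) : ℤ) : GaussianInt) := by rw [hpe]; push_cast; rfl
      have h2 := leg_int hl hln (-(q : ℤ)) (by rw [← h1]; exact hlp)
      rw [← h1] at h2
      exact h2
    have e2 := leg_inert hp hq3 hpe hpn l hpl
    rw [← hn, hln] at e2
    rw [e1, e2, jacobiSym.legendreSym.to_jacobiSym, jacobiSym.legendreSym.to_jacobiSym,
      jacobiSym.neg _ (Nat.odd_iff.2 (by omega)), ZMod.χ₄_nat_one_mod_four hr1, one_mul]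
    exact (jacobiSym.quadratic_reciprocity_one_mod_four hr1 (Nat.odd_iff.2 (by omega)))
  · -- both inert
    have e1 := leg_inert hp hq3 hpe hpn l hpl
    have e2 := leg_inert hl hr3 hle hln p hlp
    have h1 : ∀ (t : ℕ) [Fact t.Prime] (z : ℤ), ((z : ℤ) : ZMod t) ≠ 0 → legendreSym t (z ^ 2) = 1 :=
      fun t _ z hz => legendreSym.sq_one' t hz
    have hl0 : ((r : ℤ) : ZMod q) ≠ 0 := by
      intro h
      rw [ZMod.intCast_zmod_eq_zero_iff_dvd] at h
      have h5 : q = r := (Nat.prime_dvd_prime_iff_eq hq hr).1 (by exact_mod_cast h)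
      apply hne
      rw [hpe, hle, h5]
    have hq0 : ((q : ℤ) : ZMod r) ≠ 0 := by
      intro h
      rw [ZMod.intCast_zmod_eq_zero_iff_dvd] at h
      have h5 : r = q := (Nat.prime_dvd_prime_iff_eq hr hq).1 (by exact_mod_cast h)
      apply hne
      rw [hpe, hle, h5]
    rw [e1, e2, ← hn l, ← hn p, hpn, hln]
    push_cast
    rw [h1 q _ hl0, h1 r _ hq0]

/-- the symbol of `i` -/
theorem leg_I {p : GaussianInt} (hp : OP p) : leg p ⟨0, 1⟩ = ci p := by
  have hpp := hp.pm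
  have hnz : (p.norm.natAbs : ℤ) = p.re * p.re + p.im * p.im := by
    rw [Int.natCast_natAbs, abs_of_nonneg (GaussianInt.norm_nonneg _), norm_eq]
  have h4 : (⟨0, 1⟩ : GaussianInt) ^ 4 = 1 := by decide
  rcases hpp with ⟨h1, h2⟩ | ⟨h1, h2⟩
  · rw [ci_pos h1 h2]
    apply leg_of_pow hp (Or.inl rfl)
    obtain ⟨a, ha⟩ : ∃ a, p.re = 4 * a + 1 := ⟨p.re / 4, by omega⟩
    obtain ⟨b, hb⟩ : ∃ b, p.im = 4 * b := ⟨p.im / 4, by omega⟩
    have e : (p.norm.natAbs : ℤ) = 8 * (2 * a * a + a + 2 * b * b) + 1 := by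
      rw [hnz, ha, hb]; ring
    have e2 : p.norm.natAbs / 2 = 4 * (p.norm.natAbs / 8) := by omega
    rw [e2, pow_mul, h4, one_pow]
    simp
  · rw [ci_neg h1 h2]
    apply leg_of_pow hp (Or.inr rfl)
    obtain ⟨a, ha⟩ : ∃ a, p.re = 4 * a + 3 := ⟨p.re / 4, by omega⟩
    obtain ⟨b, hb⟩ : ∃ b, p.im = 4 * b + 2 := ⟨p.im / 4, by omega⟩
    have e : (p.norm.natAbs : ℤ) = 8 * (2 * a * a + 3 * a + 2 * b * b + 2 * b + 1) + 5 := by
      rw [hnz, ha, hb]; ring
    have e2 : p.norm.natAbs / 2 = 4 * (p.norm.natAbs / 8) + 2 := by omega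
    have h5 : (⟨0, 1⟩ : GaussianInt) ^ 2 = -1 := by decide
    rw [e2, pow_add, pow_mul, h4, one_pow, one_mul, h5]
    simp

end Pool.Agent.Y697.MQ
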