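import Pool.Agent.W164.RC.Euler
import Pool.Agent.Y697.MQ.Lm
import Pool.Agent.Y697.MQ.Rcp

/-! Point counts of `y² = x³ + D²x` over residue fields. -/

set_option autoImplicit false

open NumberField IsDedekindDomain Complex

namespace Pool.Agent.Y697.MQ

open Pool.Agent.H921R2.TatePole (below deg nm nm_eq)
open Pool.Agent.H304R3.HK (tc)
open Pool.Agent.W164.RC (eulerFactor eulerFactor_z YY Ip Ip_spec Ip_exists dg not_mem_both)
open H385 (nrm)


theorem count_field {F : Type} [Field F] [Fintype F] [DecidableEq F] (h2 : ringChar F ≠ 2)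
    (f : F → F) : ((Nat.card {p : F × F // p.2 ^ 2 = f p.1} : ℕ) : ℤ) =
      (Fintype.card F : ℤ) + ∑ x, quadraticChar F (f x) := by
  classical
  have e : {p : F × F // p.2 ^ 2 = f p.1} ≃ Σ x : F, {y : F // y ^ 2 = f x} :=
    { toFun := fun p => ⟨p.1.1, ⟨p.1.2, p.2⟩⟩
      invFun := fun p => ⟨(p.1, p.2.1), p.2.2⟩
      left_inv := fun p => rfl
      right_inv := fun p => rfl }
  rw [Nat.card_congr e, Nat.card_sigma]
  push_cast
  have h : ∀ x : F, ((Nat.card {y : F // y ^ 2 = f x} : ℕ) : ℤ) = 1 + quadraticChar F (f x) := by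
    intro x
    have h1 := quadraticChar_card_sqrts h2 (f x)
    rw [Nat.card_eq_fintype_card, add_comm, ← h1, Set.toFinset_card]
    rfl
  rw [Finset.sum_congr rfl fun x _ => h x, Finset.sum_add_distrib]
  simp

theorem count_scale {F : Type} [Field F] [Fintype F] [DecidableEq F] (h2 : ringChar F ≠ 2)
    {δ a : F} (hδ : δ ≠ 0) (ha : a = -δ ^ 2) :
    (Fintype.card F : ℤ) - ((Nat.card {p : F × F // p.2 ^ 2 = p.1 ^ 3 + a * p.1} : ℕ) : ℤ) =
      quadraticChar F δ *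
      ((Fintype.card F : ℤ) - ((Nat.card {p : F × F // p.2 ^ 2 = p.1 ^ 3 - p.1} : ℕ) : ℤ)) := by
  rw [count_field h2 (fun x => x ^ 3 + a * x), count_field h2 (fun x => x ^ 3 - x)]
  have h1 : ∑ x : F, quadraticChar F (x ^ 3 + a * x) =
      ∑ u : F, quadraticChar F ((δ * u) ^ 3 + a * (δ * u)) :=
    (Fintype.sum_equiv (Equiv.mulLeft₀ δ hδ) _ _ fun u => rfl).symm
  have h3 : ∀ u : F, quadraticChar F ((δ * u) ^ 3 + a * (δ * u)) =
      quadraticChar F δ * quadraticChar F (u ^ 3 - u) := by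
    intro u
    have e : (δ * u) ^ 3 + a * (δ * u) = δ * δ ^ 2 * (u ^ 3 - u) := by rw [ha]; ring
    rw [e, map_mul, map_mul, quadraticChar_sq_one' hδ, mul_one]
  rw [h1, Finset.sum_congr rfl fun u _ => h3 u, ← Finset.mul_sum]
  ring

theorem pow_half {R : Type} [Monoid R] {x ε : R} {Q : ℕ} (hQ : Q % 2 = 1)
    (h1 : x ^ (Q / 2) = ε) (h2 : ε ^ 2 = 1) (f : ℕ) : x ^ (Q ^ f / 2) = ε ^ f := by
  induction f with
  | zero => simp
  | succ f ih =>
    have h3 : Q ^ (f + 1) / 2 = Q / 2 * Q ^ f + Q ^ f / 2 := by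
      obtain ⟨k, hk⟩ : ∃ k, Q = 2 * k + 1 := ⟨Q / 2, by omega⟩
      have h4 : Q / 2 = k := by omega
      rw [h4, pow_succ]
      have h5 : Q ^ f * Q = 2 * (k * Q ^ f) + Q ^ f := by
        have h6 : Q ^ f * Q = Q ^ f * (2 * k + 1) := congrArg _ hk
        rw [h6]
        ring
      rw [h5]
      omega
    have h4 : Odd (Q ^ f) := (Nat.odd_iff.2 hQ).pow
    have h5 : ε ^ (Q ^ f) = ε := by
      obtain ⟨k, hk⟩ := h4
      rw [hk, pow_succ, pow_mul, h2, one_pow, one_mul]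
    rw [h3, pow_add, pow_mul, h1, h5, ih, pow_succ']

theorem norm_odd {p : GaussianInt} (hp : OP p) : p.norm.natAbs % 2 = 1 := by
  have h1 := norm_eq p
  have h2 : p.norm % 2 = 1 := by
    rw [h1]
    rcases hp.pm with ⟨h3, h4⟩ | ⟨h3, h4⟩
    · obtain ⟨a, ha⟩ : ∃ a, p.re = 2 * a + 1 := ⟨p.re / 2, by omega⟩
      obtain ⟨b, hb⟩ : ∃ b, p.im = 2 * b := ⟨p.im / 2, by omega⟩
      rw [ha, hb]
      ring_nf
      omega
    · obtain ⟨a, ha⟩ : ∃ a, p.re = 2 * a + 1 := ⟨p.re / 2, by omega⟩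
      obtain ⟨b, hb⟩ : ∃ b, p.im = 2 * b := ⟨p.im / 2, by omega⟩
      rw [ha, hb]
      ring_nf
      omega
  omega

theorem int_inj {F : Type} [Field F] (h2 : (2 : F) ≠ 0) {x y : ℤ} (hx : x = 1 ∨ x = -1)
    (hy : y = 1 ∨ y = -1) (h : (x : F) = y) : x = y := by
  have h3 : (1 : F) ≠ -1 := by
    intro h3
    apply h2
    linear_combination h3
  rcases hx with rfl | rfl <;> rcases hy with rfl | rfl
  · rfl
  · push_cast at h
    exact absurd h h3
  · push_cast at h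
    exact absurd h.symm h3
  · rfl

theorem pm_pow {x : ℤ} (hx : x = 1 ∨ x = -1) (f : ℕ) : x ^ f = 1 ∨ x ^ f = -1 := by
  rcases hx with rfl | rfl
  · left; exact one_pow f
  · exact neg_one_pow_eq_or ℤ f

/-- the quadratic character of a residue field above `π` -/
theorem quad_char {p : GaussianInt} (hp : OP p) {F : Type} [Field F] [Fintype F] [DecidableEq F]
    (h2 : ringChar F ≠ 2) (φ : GaussianInt →+* F) (hφ : φ p = 0) {f : ℕ}
    (hf : Fintype.card F = p.norm.natAbs ^ f) {a : GaussianInt} (ha : ¬ p ∣ a) :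
    quadraticChar F (φ a) = leg p a ^ f := by
  have h20 : (2 : F) ≠ 0 := Ring.two_ne_zero h2
  have hl := leg_ne ha
  have ha0 : φ a ≠ 0 := by
    intro h0
    have hm := Prime.max hp.pr
    have h3 : RingHom.ker φ = Ideal.span {p} := by
      refine (hm.eq_of_le (RingHom.ker_ne_top φ) ?_).symm
      rw [Ideal.span_singleton_le_iff_mem, RingHom.mem_ker]
      exact hφ
    apply ha
    rw [← Ideal.mem_span_singleton, ← h3, RingHom.mem_ker]
    exact h0
  apply int_inj h20 (quadraticChar_dichotomy ha0) (pm_pow hl f)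
  rw [quadraticChar_eq_pow_of_char_ne_two' h2, hf]
  have h4 : (φ a) ^ (p.norm.natAbs / 2) = ((leg p a : ℤ) : F) := by
    obtain ⟨c, hc⟩ := euler hp a
    have h5 := congrArg φ hc
    rw [map_sub, map_mul, map_pow, hφ, zero_mul, sub_eq_zero, map_intCast] at h5
    exact h5
  rw [pow_half (norm_odd hp) h4 _ f]
  · push_cast; rfl
  · rcases hl with h | h <;> rw [h] <;> simp

/-! ### the Euler factors -/

/-- The Euler factor at the prime `v` of `K` of `y² = x³ + ax`, when `v` is a prime of good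
reduction: `(1 - a_v (Nv)^(-s) + (Nv)^(1-2s))⁻¹`, where `a_v` is `Nv` minus the number of affine
solutions `(x, y)` of the equation over the residue field `𝓞 K / v`. -/
noncomputable def eulerA {K : Type} [Field K] [NumberField K] (a : 𝓞 K) (s : ℂ)
    (v : HeightOneSpectrum (𝓞 K)) : ℂ :=
  (1 - ((((Ideal.absNorm v.asIdeal : ℕ) : ℤ) -
          ((Nat.card {p : (𝓞 K ⧸ v.asIdeal) × (𝓞 K ⧸ v.asIdeal) //
            p.2 ^ 2 = p.1 ^ 3 + Ideal.Quotient.mk v.asIdeal a * p.1} : ℕ) : ℤ) : ℤ) : ℂ)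
          * ((Ideal.absNorm v.asIdeal : ℕ) : ℂ) ^ (-s)
      + ((Ideal.absNorm v.asIdeal : ℕ) : ℂ) ^ (1 - 2 * s))⁻¹

/-- `π N(π)^(-s)` -/
noncomputable def Yp (s : ℂ) (g : GaussianInt) : ℂ := (g : ℂ) * ((Complex.normSq (g : ℂ) : ℝ) : ℂ) ^ (-s)

theorem prim_iff_Pr (z : GaussianInt) : Pool.Agent.H304R2.EC.A1.prim z ↔ Pr z := by
  unfold Pool.Agent.H304R2.EC.A1.prim Pr
  constructor
  · rintro ⟨h1, h2⟩
    omega
  · rintro (⟨h1, h2⟩ | ⟨h1, h2⟩) <;> omega

theorem OP.star {p : GaussianInt} (hp : OP p) : OP (star p) := by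
  constructor
  · have h := hp.pr
    exact (MulEquiv.prime_iff ((starRingAut : RingAut GaussianInt) : GaussianInt ≃+* GaussianInt).toMulEquiv).2 h
  · have h := hp.pm
    unfold Pr at *
    simp only [Zsqrtd.re_star, Zsqrtd.im_star]
    omega

theorem normSq_G (g : GaussianInt) : Complex.normSq (g : ℂ) = ((g.norm.natAbs : ℕ) : ℝ) := by
  rw [← GaussianInt.intCast_real_norm]
  have h := GaussianInt.abs_natCast_norm g
  rw [← h]
  simp

theorem nat_pow_cpow (Q f : ℕ) (z : ℂ) : ((Q ^ f : ℕ) : ℂ) ^ z = ((Q : ℂ) ^ z) ^ f := by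
  induction f with
  | zero => simp
  | succ n ih =>
    rw [pow_succ, pow_succ, ← ih, Nat.cast_mul, Complex.natCast_mul_natCast_cpow]

theorem YY_eq {p : ℕ} (hp : p.Prime) {z : GaussianInt} (hz : z ∈ Ip p) (s : ℂ) : YY p s z = Yp s z := by
  unfold YY Yp
  obtain ⟨-, -, h3, -⟩ := Ip_spec hp hz
  have h4 : z.norm.natAbs = p ^ dg p := h3
  rw [normSq_G, h4]
  rw [show (((p ^ dg p : ℕ) : ℝ) : ℂ) = ((p ^ dg p : ℕ) : ℂ) by push_cast; rfl, nat_pow_cpow]
  congr 1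
  
variable {K : Type} [Field K] [NumberField K]

theorem below_op (ι : GaussianInt →+* 𝓞 K) {p : GaussianInt} (hp : OP p) (v : HeightOneSpectrum (𝓞 K))
    (hv : ι p ∈ v.asIdeal) : (below v : ℕ) ≠ 2 ∧ p ∈ Ip (below v) := by
  have h3 := (nm_eq v).2.2
  have hpr := v.isPrime
  have h2 : (below v : ℕ) ≠ 2 := by
    intro hb
    rw [hb] at h3
    have h4 : IsCoprime p 2 := (hp.pr.irreducible.coprime_iff_not_dvd).2 hp.two
    apply not_mem_both h4 hv
    rw [map_ofNat]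
    exact_mod_cast h3
  refine ⟨h2, ?_⟩
  obtain ⟨z, hz, hzv⟩ := Ip_exists (below v).2 h2 ι v.asIdeal h3
  obtain ⟨h5, h6, -, -⟩ := Ip_spec (below v).2 hz
  have hz' : OP z := ⟨h6, (prim_iff_Pr z).1 h5⟩
  have h7 : p = z := by
    by_contra hne
    have h8 : IsCoprime p z := (hp.pr.irreducible.coprime_iff_not_dvd).2 fun h => hne (hp.dvd hz' h)
    exact not_mem_both h8 hv hzv
  rw [h7]
  exact hz

theorem star_mem_Ip' {p : ℕ} (hp : p.Prime) {z : GaussianInt} (hz : z ∈ Ip p) : star z ∈ Ip p :=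
  Pool.Agent.W164.RC.star_mem_Ip hp hz

theorem eulerA_z (ι : GaussianInt →+* 𝓞 K) {p : GaussianInt} (hp : OP p) (v : HeightOneSpectrum (𝓞 K))
    (hv : ι p ∈ v.asIdeal) {D : GaussianInt} (hD : ¬ p ∣ D) (f : ℕ)
    (hf : Ideal.absNorm v.asIdeal = p.norm.natAbs ^ f) (s : ℂ) :
    eulerA (ι (D ^ 2)) s v = ((1 - (((ci p * leg p D : ℤ) : ℂ) * Yp s p) ^ f) *
      (1 - (((ci p * leg p D : ℤ) : ℂ) * Yp s (star p)) ^ f))⁻¹ := by
  classical
  obtain ⟨h2, hIp⟩ := below_op ι hp v hv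
  have h3 := eulerFactor_z (p := below v) h2 hIp v rfl f hf s
  rw [YY_eq (below v).2 hIp, YY_eq (below v).2 (star_mem_Ip' (below v).2 hIp)] at h3
  have hmax : v.asIdeal.IsMaximal := v.isMaximal
  let _ : Field (𝓞 K ⧸ v.asIdeal) := Ideal.Quotient.field v.asIdeal
  have _ : Finite (𝓞 K ⧸ v.asIdeal) := Ideal.finiteQuotientOfFreeOfNeBot v.asIdeal v.ne_bot
  let _ : Fintype (𝓞 K ⧸ v.asIdeal) := Fintype.ofFinite _
  have hcard : Fintype.card (𝓞 K ⧸ v.asIdeal) = Ideal.absNorm v.asIdeal := by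
    rw [← Nat.card_eq_fintype_card]
    rfl
  set φ : GaussianInt →+* (𝓞 K ⧸ v.asIdeal) := (Ideal.Quotient.mk v.asIdeal).comp ι with hφ
  have hφp : φ p = 0 := Ideal.Quotient.eq_zero_iff_mem.2 hv
  have h2' : ringChar (𝓞 K ⧸ v.asIdeal) ≠ 2 := by
    intro h
    have h4 : ((2 : ℕ) : 𝓞 K ⧸ v.asIdeal) = 0 := by
      rw [ringChar.spec, h]
    have h5 : φ 2 = 0 := by
      rw [map_ofNat]
      exact_mod_cast h4
    have h4 : IsCoprime p 2 := (hp.pr.irreducible.coprime_iff_not_dvd).2 hp.two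
    exact not_mem_both h4 hv (Ideal.Quotient.eq_zero_iff_mem.1 h5)
  have hI : ¬ p ∣ (⟨0, 1⟩ * D : GaussianInt) := by
    rw [hp.pr.dvd_mul]
    rintro (h | h)
    · apply hp.pr.not_isUnit
      refine isUnit_of_dvd_unit h ?_
      exact IsUnit.of_mul_eq_one (⟨0, -1⟩ : GaussianInt) (by decide)
    · exact hD h
  have hδ := quad_char hp h2' φ hφp (f := f) (by rw [hcard, hf]) hI
  have hδ0 : φ (⟨0, 1⟩ * D) ≠ 0 := by
    intro h0
    rw [h0, MulChar.map_zero] at hδ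
    rcases pm_pow (leg_ne hI) f with h | h <;> rw [h] at hδ <;> norm_num at hδ
  have hs := count_scale h2' (δ := φ (⟨0, 1⟩ * D)) (a := Ideal.Quotient.mk v.asIdeal (ι (D ^ 2)))
    hδ0 (by
      rw [← map_pow, ← map_neg]
      have e : -(((⟨0, 1⟩ : GaussianInt) * D) ^ 2) = D ^ 2 := by
        have e1 : ((⟨0, 1⟩ : GaussianInt)) ^ 2 = -1 := by decide
        rw [mul_pow, e1]
        ring
      rw [e]
      rfl)
  rw [hδ, leg_mul hp.pr, leg_I hp, hcard] at hs
  set A : ℤ := ((Ideal.absNorm v.asIdeal : ℕ) : ℤ) -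
          ((Nat.card {p : (𝓞 K ⧸ v.asIdeal) × (𝓞 K ⧸ v.asIdeal) //
            p.2 ^ 2 = p.1 ^ 3 - p.1} : ℕ) : ℤ) with hA
  set ε : ℤ := ci p * leg p D with hε
  unfold eulerFactor at h3
  unfold eulerA
  rw [hs]
  rw [← hA] at h3
  rw [inv_inj] at h3
  rw [inv_inj]
  have hε2 : ε = 1 ∨ ε = -1 := by
    rcases ci_ne hp.pm with h | h <;> rcases leg_ne hD with h' | h' <;> rw [hε, h, h'] <;> norm_num
  -- the product of the roots
  have hYY : Yp s p * Yp s (star p) = ((p.norm.natAbs : ℕ) : ℂ) ^ (1 - 2 * s) := by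
    unfold Yp
    have e1 : (((star p : GaussianInt) : ℂ)) = (starRingEnd ℂ) (p : ℂ) := GaussianInt.toComplex_star p
    have e2 : Complex.normSq ((star p : GaussianInt) : ℂ) = Complex.normSq (p : ℂ) := by
      rw [e1, Complex.normSq_conj]
    have hn0 : ((p.norm.natAbs : ℕ) : ℂ) ≠ 0 := by
      have := norm_odd hp
      exact Nat.cast_ne_zero.2 (by omega)
    rw [e2, e1, normSq_G]
    have e3 : ((p : ℂ)) * (starRingEnd ℂ) (p : ℂ) = ((p.norm.natAbs : ℕ) : ℂ) := by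
      rw [Complex.mul_conj, normSq_G]
      push_cast
      rfl
    push_cast
    have e4 : (1 - 2 * s) = 1 + ((-s) + (-s)) := by ring
    rw [e4, Complex.cpow_add _ _ hn0, Complex.cpow_add _ _ hn0, Complex.cpow_one, ← e3]
    ring
  have hYYf : (Yp s p) ^ f * (Yp s (star p)) ^ f =
      ((Ideal.absNorm v.asIdeal : ℕ) : ℂ) ^ (1 - 2 * s) := by
    rw [← mul_pow, hYY, hf, nat_pow_cpow]
  have hA2 : (A : ℂ) * ((Ideal.absNorm v.asIdeal : ℕ) : ℂ) ^ (-s) =
      (Yp s p) ^ f + (Yp s (star p)) ^ f := by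
    rw [← hYYf] at h3
    linear_combination -h3
  clear_value ε
  rw [mul_pow, mul_pow]
  have hεf : ((ε : ℂ) ^ f) ^ 2 = 1 := by
    rw [← pow_mul, mul_comm, pow_mul]
    rcases hε2 with h | h <;> rw [h] <;> simp
  push_cast
  rw [← hYYf]
  linear_combination (-(ε : ℂ) ^ f) * hA2 - (Yp s p) ^ f * (Yp s (star p)) ^ f * hεf

end Pool.Agent.Y697.MQ
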