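import Pool.Agent.Y697.MQ.Hec2

/-! Euler products over the primary primes. -/

set_option autoImplicit false

open Filter Complex
open scoped Topology

namespace Pool.Agent.Y697.MQ

open Pool.Agent.TH936.CM Pool.Agent.W192.HK


/-- a completely multiplicative function on the primary elements -/
structure CM (f : GaussianInt → ℂ) : Prop where
  zero : ∀ g, ¬ Pr g → f g = 0
  one : f 1 = 1
  mul : ∀ p β, OP p → f (p * β) = f p * f β
  summ : Summable f

/-- the primary elements with prime divisors in `S` -/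
def inN (S : Finset GaussianInt) (g : GaussianInt) : Prop := Pr g ∧ ∀ q, OP q → q ∣ g → q ∈ S

theorem Pr.of_mul {p g : GaussianInt} (hp : Pr p) : Pr (p * g) ↔ Pr g := by
  constructor
  · intro h
    rw [Pr_iff] at *
    obtain ⟨a, ha⟩ := hp
    obtain ⟨b, hb⟩ := h
    refine ⟨b - a * g, ?_⟩
    linear_combination hb - g * ha
  · intro h
    exact (hp.mul h).1

open Classical in
/-- the partial sums -/
noncomputable def Phi (f : GaussianInt → ℂ) (S : Finset GaussianInt) : ℂ := ∑' g : GaussianInt, if inN S g then f g else 0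

theorem inN_empty (g : GaussianInt) : inN ∅ g ↔ g = 1 := by
  constructor
  · rintro ⟨h1, h2⟩
    apply h1.unit
    by_contra hu
    obtain ⟨r, hr, hrg⟩ := WfDvdMonoid.exists_irreducible_factor hu h1.ne_zero
    have hr11 : ¬ (⟨1, 1⟩ : GaussianInt) ∣ r := fun h => h1.not_dvd (h.trans hrg)
    obtain ⟨u, -, hu1, hu2⟩ := Pr.exists_star r hr11
    have hass : Associated r (u * r) := by
      obtain ⟨w, rfl⟩ := hu1
      exact ⟨w, mul_comm _ _⟩
    have hop : OP (u * r) := ⟨hass.prime hr.prime, hu2⟩
    exact absurd (h2 _ hop (hass.symm.dvd.trans hrg)) (Finset.notMem_empty _)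
  · rintro rfl
    refine ⟨Pr_one, fun q hq h => ?_⟩
    exact absurd (isUnit_of_dvd_one h) hq.pr.not_isUnit

theorem Phi_empty {f : GaussianInt → ℂ} (hf : CM f) : Phi f ∅ = 1 := by
  classical
  unfold Phi
  rw [tsum_eq_single 1]
  · rw [if_pos ((inN_empty 1).2 rfl), hf.one]
  · intro g hg
    rw [if_neg]
    rwa [inN_empty]

theorem Phi_insert {f : GaussianInt → ℂ} (hf : CM f) {S : Finset GaussianInt} [DecidableEq GaussianInt] {q : GaussianInt} (hq : OP q)
    (hqS : q ∉ S) : Phi f (insert q S) * (1 - f q) = Phi f S := by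
  classical
  set S' := insert q S with hS'
  have hs : Summable (fun g : GaussianInt => if inN S' g then f g else 0) :=
    Summable.of_norm_bounded hf.summ.norm fun g => by
      split_ifs
      · exact le_rfl
      · rw [norm_zero]; exact norm_nonneg _
  have h1 := tsum_res hq.pr.ne_zero 0 (fun g : GaussianInt => if inN S' g then f g else 0)
  simp only [zero_add, sub_zero] at h1
  have hiff : ∀ β : GaussianInt, inN S' (q * β) ↔ inN S' β := by
    intro β
    unfold inN
    rw [hq.pm.of_mul]
    refine and_congr Iff.rfl ⟨fun h r hr hrb => h r hr (hrb.mul_left q), fun h r hr hrb => ?_⟩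
    rcases hr.pr.dvd_or_dvd hrb with h2 | h2
    · rw [hr.dvd hq h2]
      exact Finset.mem_insert_self _ _
    · exact h r hr h2
  have h2 : ∀ β : GaussianInt, (if inN S' (q * β) then f (q * β) else 0) =
      f q * (if inN S' β then f β else 0) := by
    intro β
    simp only [hiff β]
    split_ifs
    · exact hf.mul q β hq
    · rw [mul_zero]
  rw [tsum_congr h2, tsum_mul_left] at h1
  have h3 : Phi f S = ∑' g : GaussianInt, ((if inN S' g then f g else 0) -
      (if q ∣ g then (if inN S' g then f g else 0) else 0)) := by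
    unfold Phi
    refine tsum_congr fun g => ?_
    have hiff2 : inN S g ↔ inN S' g ∧ ¬ q ∣ g := by
      unfold inN
      constructor
      · rintro ⟨a, b⟩
        exact ⟨⟨a, fun r hr hrg => Finset.mem_insert_of_mem (b r hr hrg)⟩,
          fun h => hqS (b q hq h)⟩
      · rintro ⟨⟨a, b⟩, c⟩
        refine ⟨a, fun r hr hrg => ?_⟩
        rcases Finset.mem_insert.1 (b r hr hrg) with h | h
        · rw [h] at hrg; exact absurd hrg c
        · exact h
    by_cases hd : q ∣ g
    · rw [if_pos hd, sub_self, if_neg (fun h => (hiff2.1 h).2 hd)]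
    · rw [if_neg hd, sub_zero]
      by_cases hn : inN S' g
      · rw [if_pos hn, if_pos (hiff2.2 ⟨hn, hd⟩)]
      · rw [if_neg hn, if_neg (fun h => hn (hiff2.1 h).1)]
  rw [h3, hs.tsum_sub, ← h1]
  · unfold Phi
    ring
  · refine Summable.of_norm_bounded hs.norm fun g => ?_
    split_ifs <;> simp

theorem Phi_prod {f : GaussianInt → ℂ} (hf : CM f) (S : Finset GaussianInt) (hS : ∀ p ∈ S, OP p) :
    ∏ p ∈ S, (1 - f p)⁻¹ = Phi f S := by
  classical
  have hne : ∀ q : GaussianInt, OP q → 1 - f q ≠ 0 := by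
    intro q hq h
    have h1 := Phi_insert hf hq (Finset.notMem_empty q)
    rw [h, mul_zero, Phi_empty hf] at h1
    exact zero_ne_one h1
  induction S using Finset.induction_on with
  | empty => rw [Finset.prod_empty, Phi_empty hf]
  | insert q S hq ih =>
    have hqo := hS q (Finset.mem_insert_self _ _)
    rw [Finset.prod_insert hq, ih fun p hp => hS p (Finset.mem_insert_of_mem hp),
      ← Phi_insert hf hqo hq]
    have := hne q hqo
    field_simp

theorem fin_dvd {g : GaussianInt} (hg : g ≠ 0) : {q : GaussianInt | OP q ∧ q ∣ g}.Finite := by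
  set n : ℤ := g.norm with hn
  have hsub : {q : GaussianInt | OP q ∧ q ∣ g} ⊆
      (fun p : ℤ × ℤ => (⟨p.1, p.2⟩ : GaussianInt)) '' ((Set.Icc (-n) n) ×ˢ (Set.Icc (-n) n)) := by
    rintro q ⟨-, c, hc⟩
    have hc0 : c ≠ 0 := by rintro rfl; rw [mul_zero] at hc; exact hg hc
    have h1 : g.norm = q.norm * c.norm := by rw [hc, Zsqrtd.norm_mul]
    have h2 := GaussianInt.norm_pos.2 hc0
    have h3 := GaussianInt.norm_nonneg q
    have h4 : q.norm ≤ n := by rw [hn, h1]; nlinarith
    have h5 : q.norm = q.re * q.re + q.im * q.im := by unfold Zsqrtd.norm; ring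
    rw [h5] at h4
    have h6 : |q.re| ≤ q.re * q.re := by
      rw [← abs_mul_abs_self]
      rcases (abs_nonneg q.re).eq_or_lt with h | h
      · rw [← h]; norm_num
      · nlinarith
    have h7 : |q.im| ≤ q.im * q.im := by
      rw [← abs_mul_abs_self]
      rcases (abs_nonneg q.im).eq_or_lt with h | h
      · rw [← h]; norm_num
      · nlinarith
    have h8 := mul_self_nonneg q.re
    have h9 := mul_self_nonneg q.im
    refine ⟨(q.re, q.im), ⟨?_, ?_⟩, rfl⟩
    · rw [Set.mem_Icc]
      exact abs_le.1 (by linarith)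
    · rw [Set.mem_Icc]
      exact abs_le.1 (by linarith)
  exact ((Set.finite_Icc _ _).prod (Set.finite_Icc _ _)).image _ |>.subset hsub

/-- the Euler product -/
theorem hasProd {f : GaussianInt → ℂ} (hf : CM f) :
    HasProd (fun q : {q : GaussianInt // OP q} => (1 - f q.1)⁻¹) (∑' g : GaussianInt, f g) := by
  classical
  have h1 : ∀ s : Finset {q : GaussianInt // OP q}, ∏ q ∈ s, (1 - f q.1)⁻¹ =
      Phi f (s.map (Function.Embedding.subtype _)) := by
    intro s
    rw [← Phi_prod hf, Finset.prod_map]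
    · rfl
    · intro p hp
      obtain ⟨q, -, rfl⟩ := Finset.mem_map.1 hp
      exact q.2
  have h2 : Tendsto (fun s : Finset {q : GaussianInt // OP q} => ∏ q ∈ s, (1 - f q.1)⁻¹) atTop
      (𝓝 (∑' g : GaussianInt, f g)) := by
    simp only [h1]
    unfold Phi
    refine tendsto_tsum_of_dominated_convergence (bound := fun g => ‖f g‖) hf.summ.norm ?_ ?_
    · intro g
      by_cases hg : Pr g
      · have hfin := fin_dvd hg.ne_zero
        set s0 : Finset {q : GaussianInt // OP q} := (hfin.toFinset.subtype _) with hs0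
        refine tendsto_const_nhds.congr' ?_
        filter_upwards [eventually_ge_atTop s0] with s hs
        rw [if_pos]
        refine ⟨hg, fun q hq hqg => ?_⟩
        rw [Finset.mem_map]
        refine ⟨⟨q, hq⟩, hs ?_, rfl⟩
        rw [hs0, Finset.mem_subtype, Set.Finite.mem_toFinset]
        exact ⟨hq, hqg⟩
      · rw [hf.zero g hg]
        simp
    · refine Eventually.of_forall fun s g => ?_
      split_ifs
      · exact le_rfl
      · rw [norm_zero]; exact norm_nonneg _
  exact h2

/-- the terms of the `L`-series -/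
noncomputable def lt (T : Finset GaussianInt) (z : ℂ) (g : GaussianInt) : ℂ :=
  (g : ℂ) * (ch T g : ℂ) * ((Complex.normSq (g : ℂ) : ℝ) : ℂ) ^ (-z)

theorem hasSum_lt {T : Finset GaussianInt} {F : ℂ → ℂ} (hn : ∀ α : RI, nm (sp α) = Complex.normSq (α : ℂ))
    {z : ℂ} (h : HasSum (fun J : Ideal RI => th T J * (nm J : ℂ) ^ (-z)) (F z)) :
    HasSum (lt T z) (F z) := by
  have hsupp : ∀ g : GaussianInt, lt T z g ≠ 0 → Pr g := by
    intro g hg
    by_contra hp
    apply hg
    unfold lt ch
    rw [ci_zero hp]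
    simp
  refine (hasSum_iff_hasSum_of_ne_zero_bij (fun g : Function.support (lt T z) =>
    sp (eR g.1)) ?_ ?_ ?_).1 h
  · rintro ⟨a, ha⟩ ⟨b, hb⟩ hab
    exact Subtype.ext ((hsupp a ha).assoc (hsupp b hb) (sp_eR.1 hab))
  · intro J hJ
    rw [Function.mem_support] at hJ
    have h1 : pg J ≠ 0 := by
      intro h0
      apply hJ
      unfold th
      rw [h0]
      simp
    obtain ⟨h2, h3⟩ := pg_spec h1
    refine ⟨⟨pg J, ?_⟩, h3.symm⟩
    rw [Function.mem_support]
    intro h4
    apply hJ
    unfold th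
    rw [h3, hn, eR_coe, pg_sp h2]
    exact h4
  · rintro ⟨g, hg⟩
    show th T (sp (eR g)) * (nm (sp (eR g)) : ℂ) ^ (-z) = lt T z g
    unfold th lt
    rw [hn, eR_coe, pg_sp (hsupp g hg)]

theorem cm_lt {T : Finset GaussianInt} (hT : ∀ p ∈ T, OP p) {z : ℂ} {F : ℂ} (h : HasSum (lt T z) F) :
    CM (lt T z) where
  zero := by
    intro g hg
    unfold lt ch
    rw [ci_zero hg]
    simp
  one := by
    unfold lt ch
    rw [ci_one, Finset.prod_eq_one (fun p hp => leg_one (hT p hp).pr)]
    simp
  mul := by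
    intro p β hp
    unfold lt
    rw [ch_mul hT hp.pm, map_mul, Complex.normSq_mul, Complex.ofReal_mul,
      Complex.mul_cpow_ofReal_nonneg (Complex.normSq_nonneg _) (Complex.normSq_nonneg _)]
    push_cast
    ring
  summ := h.summable

/-- the `L`-function with its Euler product -/
theorem exists_L {T : Finset GaussianInt} (hT : ∀ p ∈ T, OP p) : ∃ F : ℂ → ℂ, Differentiable ℂ F ∧
    (∀ z : ℂ, 3 / 2 < z.re → HasProd (fun q : {q : GaussianInt // OP q} => (1 - lt T z q.1)⁻¹) (F z)) ∧
    Tendsto (gs T ∅) (𝓝[>] 0) (𝓝 ((starRingEnd ℂ) (F 1))) := by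
  obtain ⟨F, h1, h2, h3⟩ := exists_F hT
  refine ⟨F, h1, fun z hz => ?_, h3⟩
  obtain ⟨-, -, -, -, b5, -⟩ := Pool.Agent.W287.HK.h_basic RI I qr
  have h4 := hasSum_lt b5 (h2 z hz)
  have h5 := hasProd (cm_lt hT h4)
  rw [h4.tsum_eq] at h5
  exact h5

end Pool.Agent.Y697.MQ
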