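import Pool.Agent.Y697.MQ.Kum
import Pool.Agent.Y697.MQ.Cnt
import Pool.Agent.W164.RC.Split

/-! Splitting of primes in multiquadratic extensions of `ℚ(i)`. -/

set_option autoImplicit false

open NumberField IsDedekindDomain

namespace Pool.Agent.Y697.MQ


variable {K : Type} [Field K] [NumberField K]

theorem ι_inj (ι : GaussianInt →+* 𝓞 K) : Function.Injective ι := by
  rw [injective_iff_map_eq_zero]
  intro a ha
  by_contra h0
  have h3 : ι ((a.norm : ℤ) : GaussianInt) = 0 := by
    rw [Zsqrtd.norm_eq_mul_conj, map_mul, ha, zero_mul]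
  rw [map_intCast] at h3
  have h4 : a.norm = 0 := by exact_mod_cast h3
  exact h0 (GaussianInt.norm_eq_zero.1 h4)

/-- `K` is generated over `ℚ(i)` by square roots of the elements of `s` -/
structure GenBy (ι : GaussianInt →+* 𝓞 K) (s : Finset GaussianInt) (r : GaussianInt → 𝓞 K) : Prop where
  sq : ∀ d ∈ s, r d ^ 2 = ι d
  gen : ∀ L : Subfield K, (∀ g : GaussianInt, (ι g : K) ∈ L) → (∀ d ∈ s, (r d : K) ∈ L) → L = ⊤

/-- a generating family which is independent -/
theorem GenBy.minimal {ι : GaussianInt →+* 𝓞 K} {s : Finset GaussianInt} {r : GaussianInt → 𝓞 K} (h : GenBy ι s r)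
    (h0 : ∀ d ∈ s, d ≠ 0) :
    ∃ t ⊆ s, GenBy ι t r ∧ ∀ J ⊆ t, J.Nonempty → ∀ a b : GaussianInt, b ≠ 0 → b ^ 2 * ∏ d ∈ J, d ≠ a ^ 2 := by
  classical
  obtain ⟨t, ht, hmin⟩ := Finset.exists_min_image (s.powerset.filter fun t => GenBy ι t r)
    Finset.card ⟨s, Finset.mem_filter.2 ⟨Finset.mem_powerset_self s, h⟩⟩
  rw [Finset.mem_filter, Finset.mem_powerset] at ht
  refine ⟨t, ht.1, ht.2, ?_⟩
  intro J hJ hne a b hb hab
  obtain ⟨d0, hd0⟩ := hne
  have hd0t := hJ hd0
  have hnew : GenBy ι (t.erase d0) r := by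
    refine ⟨fun d hd => ht.2.sq d (Finset.mem_of_mem_erase hd), fun L hL hLr => ?_⟩
    apply ht.2.gen L hL
    intro d hd
    by_cases hdd : d = d0
    · subst hdd
      have hp : ∏ x ∈ J, ((r x : 𝓞 K) : K) ∈ L := by
        have e1 : ((ι b : 𝓞 K) : K) ^ 2 * (∏ x ∈ J, ((r x : 𝓞 K) : K)) ^ 2 =
            ((ι a : 𝓞 K) : K) ^ 2 := by
          have e2 := congrArg (fun z : GaussianInt => ((ι z : 𝓞 K) : K)) hab
          simp only [map_mul, map_pow, map_prod] at e2
          rw [← e2, ← Finset.prod_pow]
          congr 1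
          refine Finset.prod_congr rfl fun x hx => ?_
          rw [← ht.2.sq x (hJ hx)]
          push_cast
          rfl
        have hb0 : ((ι b : 𝓞 K) : K) ≠ 0 := by
          intro hb0
          apply hb
          apply ι_inj ι
          rw [map_zero]
          exact_mod_cast hb0
        rw [← mul_pow] at e1
        rcases sq_eq_sq_iff_eq_or_eq_neg.1 e1 with e3 | e3
        · rw [show ∏ x ∈ J, ((r x : 𝓞 K) : K) = ((ι a : 𝓞 K) : K) / ((ι b : 𝓞 K) : K) by
            field_simp; rw [← e3]; ring]
          exact L.div_mem (hL a) (hL b)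
        · rw [show ∏ x ∈ J, ((r x : 𝓞 K) : K) = -((ι a : 𝓞 K) : K) / ((ι b : 𝓞 K) : K) by
            field_simp; rw [← e3]; ring]
          exact L.div_mem (L.neg_mem (hL a)) (hL b)
      rw [← Finset.mul_prod_erase J _ hd0] at hp
      have hq : ∏ x ∈ J.erase d, ((r x : 𝓞 K) : K) ∈ L := by
        apply L.prod_mem
        intro x hx
        rw [Finset.mem_erase] at hx
        exact hLr x (Finset.mem_erase.2 ⟨hx.1, hJ hx.2⟩)
      have hq0 : ∏ x ∈ J.erase d, ((r x : 𝓞 K) : K) ≠ 0 := by
        rw [Finset.prod_ne_zero_iff]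
        intro x hx h1
        rw [Finset.mem_erase] at hx
        have h2 : r x = 0 := by exact_mod_cast h1
        have h3 := ht.2.sq x (hJ hx.2)
        rw [h2, zero_pow (by norm_num)] at h3
        exact h0 x (ht.1 (hJ hx.2)) (ι_inj ι (by rw [← h3, map_zero]))
      rw [show ((r d : 𝓞 K) : K) = ((r d : 𝓞 K) : K) * (∏ x ∈ J.erase d, ((r x : 𝓞 K) : K)) /
        (∏ x ∈ J.erase d, ((r x : 𝓞 K) : K)) by field_simp]
      exact L.div_mem hp hq
    · exact hLr d (Finset.mem_erase.2 ⟨hdd, hd⟩)
  have h1 := hmin (t.erase d0) (Finset.mem_filter.2 ⟨Finset.mem_powerset.2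
    ((Finset.erase_subset _ _).trans ht.1), hnew⟩)
  have h2 := Finset.card_erase_lt_of_mem hd0t
  omega

/-! ### the ground field -/

section
variable {k : Type} [Field k] [Algebra GaussianInt k] [IsFractionRing GaussianInt k]

theorem k_charZero : CharZero k :=
  charZero_of_injective_algebraMap (IsFractionRing.injective GaussianInt k)

theorem k_num : NumberField k := by
  have := k_charZero (k := k)
  refine { to_charZero := inferInstance, to_finiteDimensional := ?_ }
  let f : (Fin 2 → ℚ) →ₗ[ℚ] k :=
    { toFun := fun v => (v 0 : k) + (v 1 : k) * algebraMap GaussianInt k ⟨0, 1⟩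
      map_add' := by
        intro v w
        simp only [Pi.add_apply]
        push_cast
        ring
      map_smul' := by
        intro c v
        simp only [Pi.smul_apply, smul_eq_mul, Algebra.smul_def, eq_ratCast]
        push_cast
        ring }
  refine Module.Finite.of_surjective f fun z => ?_
  obtain ⟨a, b, hb, rfl⟩ := IsFractionRing.div_surjective GaussianInt z
  have hb0 : b ≠ 0 := nonZeroDivisors.ne_zero hb
  have hn0 : b.norm ≠ 0 := fun h => hb0 (GaussianInt.norm_eq_zero.1 h)
  have hn0k : ((b.norm : ℤ) : k) ≠ 0 := Int.cast_ne_zero.2 hn0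
  have hbk : algebraMap GaussianInt k b ≠ 0 := fun h => hb0 (IsFractionRing.injective GaussianInt k (by
    rw [h, map_zero]))
  refine ⟨![((a * star b).re : ℚ) / b.norm, ((a * star b).im : ℚ) / b.norm], ?_⟩
  change (((![((a * star b).re : ℚ) / b.norm, ((a * star b).im : ℚ) / b.norm] : Fin 2 → ℚ) 0 : ℚ) : k)
    + (((![((a * star b).re : ℚ) / b.norm, ((a * star b).im : ℚ) / b.norm] : Fin 2 → ℚ) 1 : ℚ) : k)
      * algebraMap GaussianInt k ⟨0, 1⟩ = _
  simp only [Matrix.cons_val_zero, Matrix.cons_val_one]
  push_cast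
  have h1 : a * star b = (((a * star b).re : ℤ) : GaussianInt) + (((a * star b).im : ℤ) : GaussianInt) * ⟨0, 1⟩ := by
    ext <;> simp
  have h2 := congrArg (algebraMap GaussianInt k) h1
  rw [map_add, map_mul, map_mul, map_intCast, map_intCast] at h2
  have h3 : ((b.norm : ℤ) : k) = algebraMap GaussianInt k b * algebraMap GaussianInt k (star b) := by
    rw [← map_mul, ← Zsqrtd.norm_eq_mul_conj, map_intCast]
  have hsb : algebraMap GaussianInt k (star b) ≠ 0 := by
    intro h
    rw [h, mul_zero] at h3
    exact hn0k h3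
  rw [div_add' _ _ _ hn0k, div_eq_div_iff hn0k hbk]
  rw [show ((a * star b).re : k) + ((a * star b).im : k) / (b.norm : k) * algebraMap GaussianInt k ⟨0, 1⟩ *
    (b.norm : k) = ((a * star b).re : k) + ((a * star b).im : k) * algebraMap GaussianInt k ⟨0, 1⟩ by
      field_simp, ← h2, h3]
  ring

variable [Algebra k K]

theorem fin_kK : FiniteDimensional k K := by
  have := k_charZero (k := k)
  have : IsScalarTower ℚ k K := IsScalarTower.of_algebraMap_eq' (RingHom.ext_rat _ _)
  exact FiniteDimensional.right ℚ k K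

theorem isGalois_gen {ι : GaussianInt →+* 𝓞 K} (hc : ∀ g : GaussianInt, algebraMap k K (algebraMap GaussianInt k g) = (ι g : K))
    {s : Finset GaussianInt} {r : GaussianInt → 𝓞 K} (h : GenBy ι s r) : IsGalois k K ∧
    ∀ σ : K ≃ₐ[k] K, (∀ d ∈ s, σ (r d : K) = (r d : K)) → σ = 1 := by
  classical
  have := k_charZero (k := k)
  have := fin_kK (k := k) (K := K)
  refine ⟨?_, ?_⟩
  · set p : Polynomial k := ∏ d ∈ s, (Polynomial.X ^ 2 - Polynomial.C (algebraMap GaussianInt k d)) with hp
    have hfac : ∀ d ∈ s, Polynomial.map (algebraMap k K)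
        (Polynomial.X ^ 2 - Polynomial.C (algebraMap GaussianInt k d)) =
        (Polynomial.X - Polynomial.C ((r d : 𝓞 K) : K)) *
          (Polynomial.X - Polynomial.C (-((r d : 𝓞 K) : K))) := by
      intro d hd
      rw [Polynomial.map_sub, Polynomial.map_pow, Polynomial.map_X, Polynomial.map_C, hc,
        ← h.sq d hd, Polynomial.C_neg]
      push_cast
      rw [Polynomial.C_pow]
      ring
    have hp0 : p ≠ 0 := Finset.prod_ne_zero_iff.2 fun d _ => Polynomial.X_pow_sub_C_ne_zero
      (by norm_num) _
    have : Polynomial.IsSplittingField k K p := by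
      rw [isSplittingField_iff_intermediateField]
      constructor
      · rw [hp, Polynomial.map_prod]
        apply Polynomial.Splits.prod
        intro d hd
        rw [hfac d hd]
        exact (Polynomial.Splits.X_sub_C _).mul (Polynomial.Splits.X_sub_C _)
      · rw [eq_top_iff]
        intro x _
        have h1 := h.gen (IntermediateField.adjoin k (p.rootSet K)).toSubfield (by
          intro g
          rw [← hc g]
          exact (IntermediateField.adjoin k (p.rootSet K)).algebraMap_mem _) (by
          intro d hd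
          apply IntermediateField.subset_adjoin
          rw [Polynomial.mem_rootSet]
          refine ⟨hp0, ?_⟩
          rw [hp, map_prod]
          apply Finset.prod_eq_zero hd
          rw [map_sub, map_pow, Polynomial.aeval_X, Polynomial.aeval_C, hc, ← h.sq d hd]
          push_cast
          ring)
        have h2 : x ∈ (IntermediateField.adjoin k (p.rootSet K)).toSubfield := by
          rw [h1]; trivial
        exact h2
    have : Normal k K := Normal.of_isSplittingField p
    have : Algebra.IsSeparable k K := Algebra.IsAlgebraic.isSeparable_of_perfectField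
    exact ⟨⟩
  · intro σ hσ
    have h1 := h.gen (RingHom.eqLocusField (σ : K →+* K) (RingHom.id K)) (by
      intro g
      rw [← hc g]
      exact σ.commutes _) (fun d hd => hσ d hd)
    ext x
    have h2 : x ∈ (RingHom.eqLocusField (σ : K →+* K) (RingHom.id K)) := by rw [h1]; trivial
    exact h2

end

end Pool.Agent.Y697.MQ
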