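import Pool.Agent.Y697.MQ.Gal
import Pool.Agent.Y697.MQ.Crd

/-! Splitting of primes in multiquadratic extensions of `ℚ(i)`, second part. -/

set_option autoImplicit false

open NumberField IsDedekindDomain

namespace Pool.Agent.Y697.MQ

open Pool.Agent.W164.RC (not_mem_both split_abs)


open Classical in
/-- the residue degree -/
noncomputable def fd2 (p : GaussianInt) (s : Finset GaussianInt) : ℕ := if ∀ d ∈ s, leg p d = 1 then 1 else 2

variable {K : Type} [Field K] [NumberField K]

/-- no nonempty product is a square -/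
def Indep (t : Finset GaussianInt) : Prop :=
  ∀ J ⊆ t, J.Nonempty → ∀ a b : GaussianInt, b ≠ 0 → b ^ 2 * ∏ d ∈ J, d ≠ a ^ 2

theorem Indep.not_sq {t : Finset GaussianInt} (h : Indep t) {k : Type} [Field k] [Algebra GaussianInt k]
    [IsFractionRing GaussianInt k] (J : Finset GaussianInt) (hJ : J ⊆ t) (hne : J.Nonempty) :
    ¬ IsSquare (∏ d ∈ J, algebraMap GaussianInt k d) := by
  rintro ⟨x, hx⟩
  obtain ⟨a, b, hb, rfl⟩ := IsFractionRing.div_surjective GaussianInt x
  have hb0 : b ≠ 0 := nonZeroDivisors.ne_zero hb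
  have hbk : algebraMap GaussianInt k b ≠ 0 := fun h => hb0 (IsFractionRing.injective GaussianInt k (by
    rw [h, map_zero]))
  apply h J hJ hne a b hb0
  apply IsFractionRing.injective GaussianInt k
  rw [map_mul, map_prod, hx, map_pow, map_pow]
  field_simp

theorem split_aux {k : Type} [Field k] [Algebra GaussianInt k] [IsFractionRing GaussianInt k] [Algebra k K]
    (ι : GaussianInt →+* 𝓞 K) (hc : ∀ g : GaussianInt, algebraMap k K (algebraMap GaussianInt k g) = (ι g : K))
    {s : Finset GaussianInt} {r : GaussianInt → 𝓞 K} (h : GenBy ι s r)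
    (hind : Indep s) (h0 : ∀ d ∈ s, d ≠ 0) {p : GaussianInt} (hp : OP p) (hps : ∀ d ∈ s, ¬ p ∣ d) :
    (∀ v : HeightOneSpectrum (𝓞 K), ι p ∈ v.asIdeal →
      Ideal.absNorm v.asIdeal = p.norm.natAbs ^ fd2 p s) ∧
    Nat.card {v : HeightOneSpectrum (𝓞 K) // ι p ∈ v.asIdeal} * fd2 p s = 2 ^ s.card := by
  classical
  have := k_charZero (k := k)
  have := fin_kK (k := k) (K := K)
  obtain ⟨hgal, hgi⟩ := isGalois_gen hc h
  let _ : Algebra GaussianInt (𝓞 K) := ι.toAlgebra
  have halg : ∀ a : GaussianInt, algebraMap GaussianInt (𝓞 K) a = ι a := fun _ => rfl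
  have hσι : ∀ (σ : K ≃ₐ[k] K) (a : GaussianInt), σ • (ι a) = ι a := by
    intro σ a
    apply RingOfIntegers.ext
    change σ ((ι a : 𝓞 K) : K) = _
    rw [← hc, AlgEquiv.commutes]
  have hcomm : SMulCommClass (K ≃ₐ[k] K) GaussianInt (𝓞 K) := by
    constructor
    intro g a x
    rw [Algebra.smul_def, Algebra.smul_def, halg, smul_mul', hσι]
  have hinv : Algebra.IsInvariant GaussianInt (𝓞 K) (K ≃ₐ[k] K) := by
    constructor
    intro b hb
    obtain ⟨y, hy⟩ := (IsGalois.mem_range_algebraMap_iff_fixed (F := k) (b : K)).2 (fun σ =>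
      congrArg (fun z : 𝓞 K => (z : K)) (hb σ))
    have h1 : IsIntegral ℤ y := by
      have h2 : IsIntegral ℤ (algebraMap k K y) := by rw [hy]; exact b.2
      exact (isIntegral_algHom_iff ((algebraMap k K).toIntAlgHom) (algebraMap k K).injective).1 h2
    have h2 : IsIntegral GaussianInt y := h1.tower_top
    obtain ⟨g, hg⟩ := IsIntegrallyClosed.isIntegral_iff.1 h2
    refine ⟨g, ?_⟩
    apply RingOfIntegers.ext
    rw [halg, ← hc, hg, hy]
  have hp0 : p ≠ 0 := hp.pr.ne_zero
  have hmax : (Ideal.span {p}).IsMaximal := Prime.max hp.pr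
  have hfz : Finite (GaussianInt ⧸ Ideal.span {p}) := fin_quot hp0
  have hcardz : Nat.card (GaussianInt ⧸ Ideal.span {p}) = p.norm.natAbs := card_res p
  have hcopd : ∀ d ∈ s, IsCoprime p (4 * d) := fun d hd =>
    (hp.pr.irreducible.coprime_iff_not_dvd).2 fun h1 => by
      rcases hp.pr.dvd_or_dvd h1 with h2 | h2
      · exact hp.four h2
      · exact hps d hd h2
  have hcard : Nat.card (K ≃ₐ[k] K) = 2 ^ s.card := by
    have h1 := kummer_card (k := k) (K := K) (I := s) (fun d => ((r d : 𝓞 K) : K))
      (fun d => algebraMap GaussianInt k d) (fun d hd => h0 d d.2 (IsFractionRing.injective GaussianInt k (by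
        rw [hd, map_zero]))) (fun d => by
        rw [hc, ← h.sq d d.2]; push_cast; rfl) two_ne_zero (by
        intro J hJ
        have h2 := hind.not_sq (k := k) (J.map (Function.Embedding.subtype _)) (by
          intro x hx
          rw [Finset.mem_map] at hx
          obtain ⟨y, -, rfl⟩ := hx
          exact y.2) (hJ.map)
        rw [Finset.prod_map] at h2
        exact h2) (fun σ hσ => hgi σ fun d hd => hσ ⟨d, hd⟩)
    rw [h1, Fintype.card_coe]
  -- one place
  have key : ∀ v : HeightOneSpectrum (𝓞 K), ι p ∈ v.asIdeal →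
      Ideal.absNorm v.asIdeal = p.norm.natAbs ^ fd2 p s ∧
      ((Ideal.span {p} : Ideal GaussianInt).primesOver (𝓞 K)).ncard * fd2 p s = 2 ^ s.card := by
    intro v hv
    have hvpr := v.isPrime
    have hvmax : v.asIdeal.IsMaximal := v.isPrime.isMaximal v.ne_bot
    have hfv : Finite (𝓞 K ⧸ v.asIdeal) := Ideal.finiteQuotientOfFreeOfNeBot v.asIdeal v.ne_bot
    have hover : v.asIdeal.LiesOver (Ideal.span {p}) := by
      constructor
      refine hmax.eq_of_le ?_ ?_
      · exact (inferInstance : (v.asIdeal.under GaussianInt).IsPrime).ne_top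
      · rw [Ideal.span_singleton_le_iff_mem, Ideal.mem_comap]
        exact hv
    -- signs are determined modulo `v`
    have h2r : ∀ d ∈ s, 2 * r d ∉ v.asIdeal := by
      intro d hd h1
      have h3 : (2 * r d) * (2 * r d) ∈ v.asIdeal := v.asIdeal.mul_mem_left _ h1
      have h4 : (2 * r d) * (2 * r d) = ι (4 * d) := by
        rw [map_mul, ← h.sq d hd, map_ofNat]; ring
      rw [h4] at h3
      exact not_mem_both (hcopd d hd) hv h3
    have hsign : ∀ σ : K ≃ₐ[k] K, ∀ d ∈ s, σ • r d = r d ∨ σ • r d = - r d := by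
      intro σ d hd
      have h1 : (σ • r d) ^ 2 = (r d) ^ 2 := by
        rw [← smul_pow', h.sq d hd, hσι]
      rcases sq_eq_sq_iff_eq_or_eq_neg.1 h1 with h2 | h2
      · exact Or.inl h2
      · exact Or.inr h2
    obtain ⟨σ, hσ⟩ := IsArithFrobAt.exists_of_isInvariant GaussianInt (K ≃ₐ[k] K) v.asIdeal
    have hσ' : ∀ x : 𝓞 K, σ • x - x ^ Nat.card (GaussianInt ⧸ Ideal.span {p}) ∈ v.asIdeal := by
      intro x
      have h1 := hσ x
      rw [← hover.over] at h1
      exact h1
    have hleg : ∀ d ∈ s, σ • r d = ((leg p d : ℤ) : 𝓞 K) * r d := by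
      intro d hd
      have h1 := hσ' (r d)
      rw [hcardz] at h1
      have hQ := norm_odd hp
      have h3 : r d ^ p.norm.natAbs = ι d ^ (p.norm.natAbs / 2) * r d := by
        rw [← h.sq d hd, ← pow_mul, ← pow_succ]
        congr 1
        omega
      have h4 : ι d ^ (p.norm.natAbs / 2) - ((leg p d : ℤ) : 𝓞 K) ∈ v.asIdeal := by
        obtain ⟨c, hc'⟩ := euler hp d
        have h5 := congrArg ι hc'
        rw [map_sub, map_mul, map_pow, map_intCast] at h5
        rw [h5]
        exact v.asIdeal.mul_mem_right _ hv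
      have h5 : σ • r d - ((leg p d : ℤ) : 𝓞 K) * r d ∈ v.asIdeal := by
        have h6 := v.asIdeal.add_mem h1 (v.asIdeal.mul_mem_right (r d) h4)
        rw [h3] at h6
        have e : σ • r d - ι d ^ (p.norm.natAbs / 2) * r d +
          (ι d ^ (p.norm.natAbs / 2) - ((leg p d : ℤ) : 𝓞 K)) * r d =
          σ • r d - ((leg p d : ℤ) : 𝓞 K) * r d := by ring
        rwa [e] at h6
      rcases hsign σ d hd with h6 | h6 <;> rcases leg_ne (hps d hd) with h7 | h7
      · rw [h6, h7]; push_cast; ring
      · exfalso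
        rw [h6, h7] at h5
        apply h2r d hd
        have e : r d - ((-1 : ℤ) : 𝓞 K) * r d = 2 * r d := by push_cast; ring
        rwa [e] at h5
      · exfalso
        rw [h6, h7] at h5
        apply h2r d hd
        have e : -(-r d - ((1 : ℤ) : 𝓞 K) * r d) = 2 * r d := by push_cast; ring
        rw [← e]
        exact v.asIdeal.neg_mem h5
      · rw [h6, h7]; push_cast; ring
    have hext : ∀ g : K ≃ₐ[k] K, (∀ d ∈ s, g • r d = r d) → g = 1 := by
      intro g hg
      apply hgi
      intro d hd
      exact congrArg (fun z : 𝓞 K => (z : K)) (hg d hd)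
    have hord : orderOf σ = fd2 p s := by
      unfold fd2
      split_ifs with hall
      · rw [orderOf_eq_one_iff]
        apply hext
        intro d hd
        rw [hleg d hd, hall d hd]
        push_cast; ring
      · apply orderOf_eq_prime
        · apply hext
          intro d hd
          rw [sq, mul_smul, hleg d hd, smul_mul', hleg d hd, ← mul_assoc]
          have h1 : σ • ((leg p d : ℤ) : 𝓞 K) = ((leg p d : ℤ) : 𝓞 K) := by
            have := hσι σ ((leg p d : ℤ) : GaussianInt)
            rwa [map_intCast] at this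
          rw [h1]
          have h2 := leg_sq_eq (hps d hd)
          have h3 : ((leg p d : ℤ) : 𝓞 K) * ((leg p d : ℤ) : 𝓞 K) = 1 := by
            exact_mod_cast congrArg (fun n : ℤ => (n : 𝓞 K)) h2
          rw [h3, one_mul]
        · intro h1
          apply hall
          intro d hd
          have h2 := hleg d hd
          rw [h1, one_smul] at h2
          rcases leg_ne (hps d hd) with h3 | h3
          · exact h3
          · exfalso
            rw [h3] at h2
            apply h2r d hd
            have e : 2 * r d = r d - ((-1 : ℤ) : 𝓞 K) * r d := by push_cast; ring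
            rw [e, ← h2, sub_self]
            exact v.asIdeal.zero_mem
    have h5 := split_abs (K ≃ₐ[k] K) (Ideal.span {p}) v.asIdeal (by
      intro g hg
      apply hext
      intro d hd
      rcases hsign g d hd with h6 | h6
      · exact h6
      · exfalso
        have h7 := hg (r d)
        rw [h6] at h7
        apply h2r d hd
        have e : 2 * r d = -(-r d - r d) := by ring
        rw [e]
        exact v.asIdeal.neg_mem h7) σ hσ'
    rw [hcardz, hord, hcard] at h5
    refine ⟨?_, h5.2⟩
    rw [Ideal.absNorm_apply, Submodule.cardQuot_apply]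
    exact h5.1
  -- existence of a place
  have hex : ∃ v : HeightOneSpectrum (𝓞 K), ι p ∈ v.asIdeal := by
    have hnu : ¬ IsUnit (ι p) := by
      intro hun
      obtain ⟨w, hw⟩ := hun.exists_right_inv
      obtain ⟨b, hb⟩ := hinv.isInvariant w (by
        intro t
        have h4 : ι p * (t • w) = 1 := by
          rw [← hσι t p, ← smul_mul', hw, smul_one]
        exact hun.mul_left_cancel (h4.trans hw.symm))
      apply hp.pr.not_isUnit
      refine IsUnit.of_mul_eq_one b ?_
      apply ι_inj ι
      rw [map_mul, map_one, ← halg b, hb]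
      exact hw
    obtain ⟨M, hM, hzM⟩ := exists_max_ideal_of_mem_nonunits (mem_nonunits_iff.2 hnu)
    refine ⟨⟨M, hM.isPrime, ?_⟩, hzM⟩
    intro hbot
    rw [hbot, Ideal.mem_bot] at hzM
    exact hp0 (ι_inj ι (by rw [hzM, map_zero]))
  obtain ⟨v0, hv0⟩ := hex
  refine ⟨fun v hv => (key v hv).1, ?_⟩
  have h6 := (key v0 hv0).2
  have h7 : Nat.card {v : HeightOneSpectrum (𝓞 K) // ι p ∈ v.asIdeal} =
      ((Ideal.span {p} : Ideal GaussianInt).primesOver (𝓞 K)).ncard := by
    rw [← Nat.card_coe_set_eq]
    refine Nat.card_congr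
      { toFun := fun v => ⟨v.1.asIdeal, v.1.isPrime, ?_⟩
        invFun := fun P => ⟨⟨P.1, P.2.1, ?_⟩, ?_⟩
        left_inv := fun v => rfl
        right_inv := fun P => rfl }
    · constructor
      have := v.1.isPrime
      refine hmax.eq_of_le ?_ ?_
      · exact (inferInstance : (v.1.asIdeal.under GaussianInt).IsPrime).ne_top
      · rw [Ideal.span_singleton_le_iff_mem, Ideal.mem_comap]
        exact v.2
    · have h8 := P.2.2.over
      intro hbot
      have h9 : p ∈ P.1.under GaussianInt := by
        rw [← h8]; exact Ideal.mem_span_singleton_self p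
      rw [Ideal.mem_comap, hbot, Ideal.mem_bot, halg] at h9
      exact hp0 (ι_inj ι (by rw [h9, map_zero]))
    · have h8 := P.2.2.over
      have h9 : p ∈ P.1.under GaussianInt := by
        rw [← h8]; exact Ideal.mem_span_singleton_self p
      rw [Ideal.mem_comap] at h9
      exact h9
  rw [h7, h6]

theorem split_loc (ι : GaussianInt →+* 𝓞 K) {s : Finset GaussianInt} {r : GaussianInt → 𝓞 K} (h : GenBy ι s r)
    (hind : Indep s) (h0 : ∀ d ∈ s, d ≠ 0) {p : GaussianInt} (hp : OP p) (hps : ∀ d ∈ s, ¬ p ∣ d) :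
    (∀ v : HeightOneSpectrum (𝓞 K), ι p ∈ v.asIdeal →
      Ideal.absNorm v.asIdeal = p.norm.natAbs ^ fd2 p s) ∧
    Nat.card {v : HeightOneSpectrum (𝓞 K) // ι p ∈ v.asIdeal} * fd2 p s = 2 ^ s.card := by
  have hinj : Function.Injective ((algebraMap (𝓞 K) K).comp ι) := by
    intro a b hab
    apply ι_inj ι
    exact RingOfIntegers.ext hab
  let _ : Algebra (FractionRing GaussianInt) K := (IsFractionRing.lift (K := FractionRing GaussianInt) hinj).toAlgebra
  exact split_aux (k := FractionRing GaussianInt) ι (fun g => IsFractionRing.lift_algebraMap hinj g) h hind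
    h0 hp hps

end Pool.Agent.Y697.MQ
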