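import Pool.Agent.Y697.MQ.Rec
import Pool.Agent.TH936.CM.Lim

/-! The Hecke characters. -/

set_option autoImplicit false

open Filter Complex
open scoped Topology

namespace Pool.Agent.Y697.MQ

open Pool.Agent.TH936.CM Pool.Agent.W192.HK
open Pool.Agent.W192.CM (nu)


open Classical in
/-- the primary generator -/
noncomputable def pg (J : Ideal RI) : GaussianInt :=
  if h : ∃ g : GaussianInt, Pr g ∧ J = sp (eR g) then Classical.choose h else 0

theorem sp_eR {a b : GaussianInt} : sp (eR a) = sp (eR b) ↔ Associated a b := by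
  rw [Ideal.span_singleton_eq_span_singleton]
  constructor
  · intro h
    have := h.map eR.symm
    rwa [eR.symm_apply_apply, eR.symm_apply_apply] at this
  · intro h
    exact h.map eR

theorem pg_sp {g : GaussianInt} (h : Pr g) : pg (sp (eR g)) = g := by
  have hex : ∃ g' : GaussianInt, Pr g' ∧ sp (eR g) = sp (eR g') := ⟨g, h, rfl⟩
  unfold pg
  rw [dif_pos hex]
  obtain ⟨h1, h2⟩ := Classical.choose_spec hex
  exact h1.assoc h (sp_eR.1 h2).symm

theorem pg_spec {J : Ideal RI} (h : pg J ≠ 0) : Pr (pg J) ∧ J = sp (eR (pg J)) := by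
  have hex : ∃ g' : GaussianInt, Pr g' ∧ J = sp (eR g') := by
    by_contra hc
    apply h
    unfold pg
    rw [dif_neg hc]
  obtain ⟨g, h1, h2⟩ := hex
  rw [h2, pg_sp h1]
  exact ⟨h1, rfl⟩

theorem exists_gen' (J : Ideal RI) : ∃ a : GaussianInt, J = sp (eR a) := by
  have := pid
  obtain ⟨x, hx⟩ := IsPrincipalIdealRing.principal J
  refine ⟨eR.symm x, ?_⟩
  rw [eR.apply_symm_apply]
  exact hx

/-- the two cases -/
theorem pg_cases (a : GaussianInt) : (∃ u : GaussianInt, u ^ 4 = 1 ∧ IsUnit u ∧ Pr (u * a) ∧ pg (sp (eR a)) = u * a) ∨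
    ((⟨1, 1⟩ : GaussianInt) ∣ a ∧ pg (sp (eR a)) = 0) := by
  by_cases h : (⟨1, 1⟩ : GaussianInt) ∣ a
  · right
    refine ⟨h, ?_⟩
    by_contra hc
    obtain ⟨h1, h2⟩ := pg_spec hc
    have h3 := (sp_eR.1 h2)
    apply h1.not_dvd
    exact h.trans h3.dvd
  · left
    obtain ⟨u, hu4, hu, hp⟩ := Pr.exists_star a h
    refine ⟨u, hu4, hu, hp, ?_⟩
    have : sp (eR a) = sp (eR (u * a)) := by
      rw [sp_eR]
      obtain ⟨w, rfl⟩ := hu
      exact ⟨w, by ring⟩
    rw [this, pg_sp hp]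

/-- the Hecke character -/
noncomputable def th (T : Finset GaussianInt) (J : Ideal RI) : ℂ := (pg J : ℂ) * (ch T (pg J) : ℂ)

theorem sp_mul (a b : GaussianInt) : sp (eR a) * sp (eR b) = sp (eR (a * b)) := by
  rw [Ideal.span_singleton_mul_span_singleton, map_mul]

theorem pg_mul (I J : Ideal RI) : pg (I * J) = pg I * pg J ∧ (pg I = 0 ∨ Pr (pg I)) := by
  have hor : pg I = 0 ∨ Pr (pg I) := by
    by_cases h : pg I = 0
    · exact Or.inl h
    · exact Or.inr (pg_spec h).1
  refine ⟨?_, hor⟩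
  have h11 : Prime (⟨1, 1⟩ : GaussianInt) := by
    rw [← irreducible_iff_prime]
    refine ⟨not11, ?_⟩
    intro a b hab
    have h2 := congrArg (fun x : GaussianInt => x.norm.natAbs) hab
    simp only [Zsqrtd.norm_mul, Int.natAbs_mul] at h2
    have h3 : (Zsqrtd.norm (⟨1, 1⟩ : GaussianInt)).natAbs = 2 := by decide
    rw [h3] at h2
    have h4 : (Zsqrtd.norm a).natAbs ∣ 2 := ⟨_, h2⟩
    rcases (Nat.dvd_prime Nat.prime_two).1 h4 with h5 | h5
    · exact Or.inl (Zsqrtd.norm_eq_one_iff.1 h5)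
    · rw [h5] at h2
      exact Or.inr (Zsqrtd.norm_eq_one_iff.1 (by omega))
  obtain ⟨a, rfl⟩ := exists_gen' I
  obtain ⟨b, rfl⟩ := exists_gen' J
  rw [sp_mul]
  rcases pg_cases a with ⟨u, hu4, hu, hp, e⟩ | ⟨h, e⟩
  · rcases pg_cases b with ⟨u', hu4', hu', hp', e'⟩ | ⟨h', e'⟩
    · rw [e, e']
      have hpm := (hp.mul hp').1
      have : sp (eR (a * b)) = sp (eR (u * a * (u' * b))) := by
        rw [sp_eR]
        obtain ⟨w, rfl⟩ := hu
        obtain ⟨w', rfl⟩ := hu'
        exact ⟨w * w', by push_cast; ring⟩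
      rw [this, pg_sp hpm]
    · rw [e', mul_zero]
      rcases pg_cases (a * b) with ⟨u', hu4', hu', hp', e'⟩ | ⟨h'', e''⟩
      · exfalso
        exact hp'.not_dvd ((h'.mul_left a).mul_left u')
      · exact e''
  · rw [e, zero_mul]
    rcases pg_cases (a * b) with ⟨u', hu4', hu', hp', e'⟩ | ⟨h'', e''⟩
    · exfalso
      exact hp'.not_dvd ((h.mul_right b).mul_left u')
    · exact e''

theorem th_mul {T : Finset GaussianInt} (hT : ∀ p ∈ T, OP p) (I J : Ideal RI) :
    th T (I * J) = th T I * th T J := by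
  unfold th
  obtain ⟨h1, h2⟩ := pg_mul I J
  rw [h1]
  rcases h2 with h | h
  · rw [h]; simp
  · rw [ch_mul hT h]
    push_cast
    rw [map_mul]
    ring

theorem cop_iff (x y : GaussianInt) : IsCoprime (sp (eR x)) (sp (eR y)) ↔ IsCoprime x y := by
  rw [Ideal.isCoprime_span_singleton_iff]
  constructor
  · rintro ⟨a, b, hab⟩
    refine ⟨eR.symm a, eR.symm b, ?_⟩
    apply eR.injective
    rw [map_add, map_mul, map_mul, eR.apply_symm_apply, eR.apply_symm_apply, map_one]
    exact hab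
  · rintro ⟨a, b, hab⟩
    refine ⟨eR a, eR b, ?_⟩
    rw [← map_mul, ← map_mul, ← map_add, hab, map_one]

/-- the conductor -/
noncomputable def cd (T : Finset GaussianInt) : GaussianInt := 4 * ∏ p ∈ T, p

theorem cop_cd {T : Finset GaussianInt} (hT : ∀ p ∈ T, OP p) {g : GaussianInt} (hg : Pr g) :
    IsCoprime g (cd T) ↔ ∀ p ∈ T, ¬ p ∣ g := by
  unfold cd
  rw [IsCoprime.mul_right_iff, and_iff_right hg.cop4, IsCoprime.prod_right_iff]
  refine forall₂_congr fun p hp => ?_
  rw [isCoprime_comm]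
  exact ((hT p hp).pr.irreducible.coprime_iff_not_dvd)

theorem ch_ne_zero {T : Finset GaussianInt} {g : GaussianInt} (hg : Pr g) : ch T g ≠ 0 ↔ ∀ p ∈ T, ¬ p ∣ g := by
  unfold ch
  have h1 : ci g ≠ 0 := by rcases ci_ne hg with h | h <;> rw [h] <;> norm_num
  rw [mul_ne_zero_iff, and_iff_right h1, Finset.prod_ne_zero_iff]
  refine forall₂_congr fun p hp => ?_
  rw [Ne, leg_eq_zero]

theorem cd_ne {T : Finset GaussianInt} (hT : ∀ p ∈ T, OP p) : cd T ≠ 0 := by
  unfold cd
  exact mul_ne_zero (by decide) (Finset.prod_ne_zero_iff.2 fun p hp => (hT p hp).pr.ne_zero)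

theorem th_zero {T : Finset GaussianInt} (hT : ∀ p ∈ T, OP p) (J : Ideal RI) :
    th T J = 0 ↔ (J = ⊥ ∨ ¬ IsCoprime J (sp (eR (cd T)))) := by
  obtain ⟨a, rfl⟩ := exists_gen' J
  have hbot : sp (eR a) = ⊥ ↔ a = 0 := by
    rw [Ideal.span_singleton_eq_bot, map_eq_zero_iff eR eR.injective]
  rw [hbot, cop_iff]
  rcases pg_cases a with ⟨u, hu4, hu, hp, e⟩ | ⟨h, e⟩
  · unfold th
    rw [e]
    have hne := coe_ne hp.ne_zero
    have ha0 : a ≠ 0 := fun h => hp.ne_zero (by rw [h, mul_zero])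
    rw [mul_eq_zero, or_iff_right hne, or_iff_right ha0]
    have h1 : IsCoprime a (cd T) ↔ IsCoprime (u * a) (cd T) := by
      rw [IsCoprime.mul_left_iff, and_iff_right]
      obtain ⟨w, rfl⟩ := hu
      exact ⟨((w⁻¹ : GaussianIntˣ) : GaussianInt), 0, by rw [Units.inv_mul, zero_mul, add_zero]⟩
    rw [h1, cop_cd hT hp, ← ch_ne_zero hp (T := T)]
    push Not
    constructor
    · intro h; exact_mod_cast h
    · intro h; exact_mod_cast h
  · unfold th
    rw [e, map_zero, zero_mul]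
    refine iff_of_true rfl (Or.inr ?_)
    intro hc
    have h1 : (⟨1, 1⟩ : GaussianInt) ∣ cd T := by
      unfold cd
      exact Dvd.dvd.mul_right ⟨⟨2, -2⟩, by decide⟩ _
    exact not11 (hc.isUnit_of_dvd' h h1)

theorem prime11 : Prime (⟨1, 1⟩ : GaussianInt) := by
  rw [← irreducible_iff_prime]
  refine ⟨not11, ?_⟩
  intro a b hab
  have h2 := congrArg (fun x : GaussianInt => x.norm.natAbs) hab
  simp only [Zsqrtd.norm_mul, Int.natAbs_mul] at h2
  have h3 : (Zsqrtd.norm (⟨1, 1⟩ : GaussianInt)).natAbs = 2 := by decide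
  rw [h3] at h2
  have h4 : (Zsqrtd.norm a).natAbs ∣ 2 := ⟨_, h2⟩
  rcases (Nat.dvd_prime Nat.prime_two).1 h4 with h5 | h5
  · exact Or.inl (Zsqrtd.norm_eq_one_iff.1 h5)
  · rw [h5] at h2
    exact Or.inr (Zsqrtd.norm_eq_one_iff.1 (by omega))

/-- the primitivity -/
theorem prim_aux {T : Finset GaussianInt} (hT : ∀ p ∈ T, OP p) {r M : GaussianInt} (hr : r = ⟨1, 1⟩ ∨ r ∈ T)
    (hM : cd T = r * M) : ∃ a : GaussianInt, Pr a ∧ M ∣ a - 1 ∧ ch T a = -1 := by
  classical
  rcases hr with rfl | hr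
  · have hDp : Pr (∏ p ∈ T, p) := by
      clear hM
      induction T using Finset.induction_on with
      | empty => simpa using Pr_one
      | insert q U hq ih =>
        rw [Finset.prod_insert hq]
        exact ((hT q (Finset.mem_insert_self _ _)).pm.mul
          (ih fun p hp => hT p (Finset.mem_insert_of_mem hp))).1
    set D := ∏ p ∈ T, p with hD
    have hM' : M = ⟨2, -2⟩ * D := by
      have h0 : (⟨1, 1⟩ : GaussianInt) ≠ 0 := by decide
      apply mul_left_cancel₀ h0
      rw [← hM, ← mul_assoc]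
      unfold cd
      rw [← hD, show (⟨1, 1⟩ * ⟨2, -2⟩ : GaussianInt) = 4 by decide]
    obtain ⟨x, hx⟩ := (Pr_iff D).1 hDp
    have hDx : D = 1 + ⟨2, 2⟩ * x := by linear_combination hx
    have hMx : 1 + M = ⟨3, -2⟩ + 8 * x := by
      rw [hM', hDx, mul_add, ← mul_assoc, show (⟨2, -2⟩ * ⟨2, 2⟩ : GaussianInt) = 8 by decide, mul_one,
        ← add_assoc, show (1 + ⟨2, -2⟩ : GaussianInt) = ⟨3, -2⟩ by decide]
    have hre : (1 + M).re = 3 + 8 * x.re := by
      rw [hMx, show (8 : GaussianInt) = ⟨8, 0⟩ by rfl, Zsqrtd.re_add, Zsqrtd.re_mul]; ring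
    have him : (1 + M).im = -2 + 8 * x.im := by
      rw [hMx, show (8 : GaussianInt) = ⟨8, 0⟩ by rfl, Zsqrtd.im_add, Zsqrtd.im_mul]; ring
    have h1 : (1 + M).re % 4 = 3 := by omega
    have h2 : (1 + M).im % 4 = 2 := by omega
    refine ⟨1 + M, Or.inr ⟨h1, h2⟩, ⟨1, by ring⟩, ?_⟩
    unfold ch
    rw [ci_neg h1 h2, Finset.prod_eq_one, mul_one]
    intro p hp
    refine (leg_congr (b := 1) ?_).trans (leg_one (hT p hp).pr)
    rw [add_sub_cancel_left, hM']
    exact (Finset.dvd_prod_of_mem _ hp).mul_left _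
  · obtain ⟨n, hn⟩ := (hT r hr).nonres
    have hM' : M = 4 * ∏ p ∈ T.erase r, p := by
      apply mul_left_cancel₀ (hT r hr).pr.ne_zero
      rw [← hM]
      unfold cd
      rw [← Finset.mul_prod_erase T (fun p => p) hr]
      ring
    have hcop : IsCoprime M r := by
      rw [isCoprime_comm, (hT r hr).pr.irreducible.coprime_iff_not_dvd, hM']
      intro h
      rcases (hT r hr).pr.dvd_or_dvd h with h | h
      · exact (hT r hr).four h
      · obtain ⟨p, hp, hd⟩ := (hT r hr).pr.exists_mem_finset_dvd h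
        have := (hT r hr).dvd (hT p (Finset.mem_of_mem_erase hp)) hd
        exact (Finset.ne_of_mem_erase hp) this.symm
    obtain ⟨u, w, huw⟩ := hcop
    set a : GaussianInt := 1 + M * (u * (n - 1)) with ha
    have h4 : (4 : GaussianInt) ∣ 1 - a := by
      rw [ha, show (1 : GaussianInt) - (1 + M * (u * (n - 1))) = -(M * (u * (n - 1))) by ring, dvd_neg, hM']
      exact ((dvd_mul_right _ _).mul_right _)
    obtain ⟨g1, g2⟩ := Pr_one.congr h4
    refine ⟨a, g1, ⟨u * (n - 1), by rw [ha]; ring⟩, ?_⟩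
    unfold ch
    rw [g2, ci_one, one_mul, ← Finset.mul_prod_erase T (fun p => leg p a) hr, Finset.prod_eq_one,
      mul_one, ← hn]
    · apply leg_congr
      exact ⟨-w * (n - 1), by rw [ha]; linear_combination (n - 1) * huw⟩
    · intro p hp
      refine (leg_congr (b := 1) ?_).trans (leg_one (hT p (Finset.mem_of_mem_erase hp)).pr)
      rw [ha, add_sub_cancel_left, hM']
      exact ((Finset.dvd_prod_of_mem _ hp).mul_left _).mul_right _

theorem hc {T : Finset GaussianInt} (hT : ∀ p ∈ T, OP p) : HC 1 (sp (eR (cd T))) (th T) where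
  ne := by
    rw [Ne, Ideal.span_singleton_eq_bot, map_eq_zero_iff eR eR.injective]
    exact cd_ne hT
  mul := th_mul hT
  zero := th_zero hT
  princ := by
    intro α hα h
    obtain ⟨a, rfl⟩ := eR.surjective α
    rw [Ideal.mem_span_singleton, ← map_one eR, ← map_sub] at h
    have h1 : cd T ∣ a - 1 := (map_dvd_iff eR).1 h
    have h4 : (4 : GaussianInt) ∣ 1 - a := by
      rw [← neg_sub, dvd_neg]
      exact (dvd_mul_right 4 _).trans h1
    obtain ⟨g1, g2⟩ := Pr_one.congr h4
    unfold th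
    rw [pg_sp g1, pow_one]
    have : ch T a = 1 := by
      unfold ch
      rw [g2, ci_one, one_mul]
      apply Finset.prod_eq_one
      intro p hp
      refine (leg_congr (b := 1) ?_).trans (leg_one (hT p hp).pr)
      refine Dvd.dvd.trans ?_ h1
      exact (Finset.dvd_prod_of_mem _ hp).mul_left _
    rw [this, Int.cast_one, mul_one, eR_coe]
  prim := by
    classical
    intro q' hq'
    obtain ⟨m, rfl⟩ := exists_gen' q'
    have hle : m ∣ cd T := by
      have := hq'.le
      rw [Ideal.span_singleton_le_span_singleton] at this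
      exact (map_dvd_iff eR).1 this
    obtain ⟨k, hk⟩ := hle
    have hku : ¬ IsUnit k := by
      intro h
      apply hq'.ne
      rw [sp_eR, hk]
      obtain ⟨w, rfl⟩ := h
      exact ⟨w⁻¹, by rw [mul_assoc, Units.mul_inv, mul_one]⟩
    have hk0 : k ≠ 0 := by
      rintro rfl
      rw [mul_zero] at hk
      exact cd_ne hT hk
    obtain ⟨l, hl, hlk⟩ := WfDvdMonoid.exists_irreducible_factor hku hk0
    have hlp := hl.prime
    have hlc : l ∣ cd T := by rw [hk]; exact hlk.mul_left m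
    have hex : ∃ r : GaussianInt, (r = ⟨1, 1⟩ ∨ r ∈ T) ∧ r ∣ k := by
      unfold cd at hlc
      rcases hlp.dvd_or_dvd hlc with h | h
      · have e : (4 : GaussianInt) = ⟨1, 1⟩ ^ 4 * (-1) := by decide
        rw [e] at h
        have h2 : l ∣ ⟨1, 1⟩ ^ 4 := by
          rcases hlp.dvd_or_dvd h with h | h
          · exact h
          · exact absurd (isUnit_of_dvd_unit h isUnit_one.neg) hl.not_isUnit
        have h3 := hlp.dvd_of_dvd_pow h2
        have h4 := hl.associated_of_dvd prime11.irreducible h3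
        exact ⟨_, Or.inl rfl, h4.symm.dvd.trans hlk⟩
      · obtain ⟨p, hp, hd⟩ := hlp.exists_mem_finset_dvd h
        have h4 := hl.associated_of_dvd (hT p hp).pr.irreducible hd
        exact ⟨p, Or.inr hp, h4.symm.dvd.trans hlk⟩
    obtain ⟨r, hr, hrk⟩ := hex
    obtain ⟨k', hk'⟩ := hrk
    obtain ⟨a, h1, h2, h3⟩ := prim_aux hT hr (M := m * k') (by rw [hk, hk']; ring)
    have ha0 : eR a ≠ 0 := by
      rw [Ne, map_eq_zero_iff eR eR.injective]
      exact h1.ne_zero
    have hth : th T (sp (eR a)) = -(a : ℂ) := by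
      unfold th
      rw [pg_sp h1, h3]
      push_cast
      ring
    refine ⟨eR a, ha0, ?_, ?_, ?_⟩
    · rw [Ideal.mem_span_singleton, ← map_one eR, ← map_sub]
      exact (map_dvd eR ((dvd_mul_right m k').trans h2))
    · have hz := th_zero hT (sp (eR a))
      rw [hth] at hz
      by_contra hc
      have := hz.2 (Or.inr hc)
      rw [neg_eq_zero] at this
      exact coe_ne h1.ne_zero this
    · rw [hth, pow_one, eR_coe]
      intro h
      have : (a : ℂ) = 0 := by linear_combination (-1 / 2 : ℂ) * h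
      exact coe_ne h1.ne_zero this

end Pool.Agent.Y697.MQ
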