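import Pool.Agent.Y697.MQ.Rec

/-! The congruence for the central values. -/

set_option autoImplicit false

open Filter Complex
open scoped Topology PeriodPair

namespace Pool.Agent.Y697.MQ

open Pool.Agent.TH936.CM Pool.Agent.W192.HK H667R3


variable {L : PeriodPair} {Ω : ℂ}

theorem Pr_prod {S : Finset GaussianInt} (hS : ∀ p ∈ S, Pr p) : Pr (∏ p ∈ S, p) := by
  classical
  induction S using Finset.induction_on with
  | empty => simpa using Pr_one
  | insert q U hq ih =>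
    rw [Finset.prod_insert hq]
    exact ((hS q (Finset.mem_insert_self _ _)).mul
      (ih fun p hp => hS p (Finset.mem_insert_of_mem hp))).1

section
variable {Γ : Type} [LinearOrderedCommGroupWithZero Γ] (v : Valuation ℂ Γ)

theorem v_le_int (n : ℤ) : v (n : ℂ) ≤ 1 := v_int v n

variable (h2 : v 2 < 1)
include h2

theorem v_one_of_odd {n : ℤ} (h : n % 2 = 1) : v (n : ℂ) = 1 := by
  have e : (n : ℂ) = 1 + 2 * ((n / 2 : ℤ) : ℂ) := by
    have : n = 1 + 2 * (n / 2) := by omega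
    exact_mod_cast congrArg (Int.cast : ℤ → ℂ) this
  rw [e]
  apply Valuation.map_one_add_of_lt
  rw [map_mul]
  calc v 2 * v _ ≤ v 2 * 1 := by gcongr; exact v_int v _
    _ < 1 := by rw [mul_one]; exact h2

theorem v_even {n : ℤ} (h : n % 2 = 0) : v (n : ℂ) < 1 := by
  have e : (n : ℂ) = 2 * ((n / 2 : ℤ) : ℂ) := by
    have : n = 2 * (n / 2) := by omega
    exact_mod_cast congrArg (Int.cast : ℤ → ℂ) this
  rw [e, map_mul]
  calc v 2 * v _ ≤ v 2 * 1 := by gcongr; exact v_int v _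
    _ < 1 := by rw [mul_one]; exact h2

theorem v_Pr {D : GaussianInt} (h : Pr D) : v (D : ℂ) = 1 := by
  obtain ⟨b, hb⟩ := h.odd
  exact v_odd v h2 hb

end

/-- the limit of the difference of the two series -/
theorem lim_e (hL : IsLat L RI Ω) {l : ℂ} (hl : Tendsto (gs ∅ ∅) (𝓝[>] 0) (𝓝 l)) :
    Tendsto (fun δ : ℝ => EG Ω δ (Ω * ((1 : GaussianInt) : ℂ) / 4) - EG Ω δ (Ω * (c3 : ℂ) / 4)) (𝓝[>] 0)
      (𝓝 ((4 / Ω) * l)) := by
  have hΩ := hL.ne
  have hn : 0 < Complex.normSq (4 / Ω) :=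
    Complex.normSq_pos.2 (div_ne_zero (by norm_num) hΩ)
  have h1 := (hl.comp (tend_scale (inv_pos.2 hn))).const_mul (4 / Ω)
  refine h1.congr' ?_
  filter_upwards [self_mem_nhdsWithin] with δ (hδ : 0 < δ)
  simp only [Function.comp_apply]
  rw [gs_empty hL (mul_pos hδ (inv_pos.2 hn)), mul_assoc, inv_mul_cancel₀ hn.ne', mul_one,
    ← mul_assoc, div_mul_div_comm, mul_comm 4 Ω, div_self (mul_ne_zero hΩ (by norm_num)), one_mul]

theorem main_lim (Q : Sq L Ω) {S : Finset GaussianInt} (hS : ∀ p ∈ S, OP p) (hne : S.Nonempty)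
    {lam : Finset GaussianInt → ℂ} (hl : ∀ T : Finset GaussianInt, (∀ p ∈ T, OP p) →
      Tendsto (gs T ∅) (𝓝[>] 0) (𝓝 (lam T))) :
    ∃ (D : GaussianInt) (C : Finset GaussianInt), Pr D ∧ (∀ a ∈ C, ¬ D ∣ a) ∧
      ∑ T ∈ S.powerset, lam T * ∏ p ∈ S \ T, (1 - (ch T p : ℂ) / p) =
        2 ^ S.card * ((ci D : ℂ) * (Ω / (4 * D)) *
          (∑ a ∈ C, Dd L (Ω * ((1 : GaussianInt) : ℂ) / 4) (Ω * (a : ℂ) / D) -
            ∑ a ∈ C, Dd L (Ω * (c3 : ℂ) / 4) (Ω * (a : ℂ) / D) +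
              2 * (C.card : ℂ) * ((4 / Ω) * lam ∅))) := by
  classical
  have hΩ := Q.ne
  set D : GaussianInt := ∏ p ∈ S, p with hD
  have hDp : Pr D := Pr_prod fun p hp => (hS p hp).pm
  have hD0 := hDp.ne_zero
  have hDc := coe_ne hD0
  obtain ⟨A, hA⟩ := exists_reps hD0
  have hpD : ∀ p ∈ S, p ∣ D := fun p hp => by rw [hD]; exact Finset.dvd_prod_of_mem _ hp
  set C := A.filter (CC S) with hC
  choose σ hσ using fun a : GaussianInt => (hA (-a)).exists
  have hσ1 : ∀ a, σ a ∈ A := fun a => (hσ a).1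
  have hσ2 : ∀ a, D ∣ -a - σ a := fun a => (hσ a).2
  have hCC : ∀ a, CC S a → CC S (σ a) := by
    intro a ha p hp
    rw [← ha p hp, ← leg_neg (hS p hp).pr a]
    apply leg_congr
    have := (hpD p hp).trans (hσ2 a)
    rw [← neg_sub]
    exact (dvd_neg).2 this
  have hnd : ∀ a ∈ C, ¬ D ∣ a := by
    intro a ha h
    obtain ⟨p, hp⟩ := hne
    have h1 := (Finset.mem_filter.1 ha).2 p hp
    rw [leg_eq_zero.2 ((hpD p hp).trans h)] at h1
    exact absurd h1 (by norm_num)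
  obtain ⟨C', hC', hf⟩ := half C.card C rfl σ
    (fun a ha => by
      rw [hC, Finset.mem_filter] at ha ⊢
      exact ⟨hσ1 a, hCC a ha.2⟩)
    (fun a ha => by
      rw [hC, Finset.mem_filter] at ha
      obtain ⟨b, -, hu⟩ := hA a
      have h1 := hu a ⟨ha.1, by simp⟩
      have h2 := hu (σ (σ a)) ⟨hσ1 _, by
        have := dvd_sub (hσ2 (σ a)) (hσ2 a)
        rwa [show -σ a - σ (σ a) - (-a - σ a) = a - σ (σ a) by ring] at this⟩
      exact h2.trans h1.symm)
    (fun a ha h => by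
      apply hnd a ha
      have h1 := hσ2 a
      rw [h, show -a - a = -(2 * a) by ring, dvd_neg] at h1
      exact hDp.cop2.dvd_of_dvd_mul_left h1)
  refine ⟨D, C', hDp, fun a ha => hnd a (hC' ha), ?_⟩
  -- the limit of the left side
  have l1 : Tendsto (fun δ : ℝ => ∑ T ∈ S.powerset, gs T (S \ T) δ) (𝓝[>] 0)
      (𝓝 (∑ T ∈ S.powerset, lam T * ∏ p ∈ S \ T, (1 - (ch T p : ℂ) / p))) := by
    refine tendsto_finsetSum _ fun T hT => ?_
    have hTS := Finset.mem_powerset.1 hT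
    exact lim_gs (fun p hp => hS p (hTS hp)) (hl T fun p hp => hS p (hTS hp)) _
      fun p hp => hS p (Finset.mem_sdiff.1 hp).1
  have hn : 0 < Complex.normSq (4 * D / Ω) :=
    Complex.normSq_pos.2 (div_ne_zero (mul_ne_zero (by norm_num) hDc) hΩ)
  have hsec : ∀ c : GaussianInt, Pr c → ∀ a ∈ C', Tendsto (fun δ : ℝ =>
      EG Ω (δ * Complex.normSq (4 * D / Ω)) (Ω * (c : ℂ) / 4 + Ω * (a : ℂ) / D) +
      EG Ω (δ * Complex.normSq (4 * D / Ω)) (Ω * (c : ℂ) / 4 - Ω * (a : ℂ) / D) -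
      2 * EG Ω (δ * Complex.normSq (4 * D / Ω)) (Ω * (c : ℂ) / 4)) (𝓝[>] 0)
      (𝓝 (Dd L (Ω * (c : ℂ) / 4) (Ω * (a : ℂ) / D))) := by
    intro c hc a ha
    obtain ⟨q1, q2⟩ := notMem_add Q (c := c) (D := D) (a := a) hc hDp
    exact (lim_G Q (notMem4 Q hc) (by rw [memL Q.toIsLat hD0]; exact hnd a (hC' ha)) q1 q2).comp
      (tend_scale hn)
  have l2 := (lim_e Q.toIsLat (hl ∅ (by simp))).comp (tend_scale hn)
  have l3 := ((((tendsto_finsetSum C' (hsec 1 Pr_one)).sub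
    (tendsto_finsetSum C' (hsec c3 Pr_c3))).add (l2.const_mul (2 * (C'.card : ℂ)))).const_mul
      ((ci D : ℂ) * (Ω / (4 * D)))).const_mul (2 ^ S.card : ℂ)
  refine tendsto_nhds_unique l1 (l3.congr' ?_)
  filter_upwards [self_mem_nhdsWithin] with δ (hδ : 0 < δ)
  rw [sum_gs S hδ, sum_CC Q.toIsLat hS hD hDp hA hδ]
  have hne3 : (1 : GaussianInt) ≠ c3 := by unfold c3; decide
  rw [Finset.sum_pair hne3, ci_one, ci_c3, ← hC, hf, hf]
  have hper : ∀ c a : GaussianInt, EG Ω (δ * Complex.normSq (4 * D / Ω))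
      (Ω * (c : ℂ) / 4 + Ω * ((σ a : GaussianInt) : ℂ) / D) =
      EG Ω (δ * Complex.normSq (4 * D / Ω)) (Ω * (c : ℂ) / 4 - Ω * (a : ℂ) / D) := by
    intro c a
    apply EG_per Q.toIsLat
    have : Ω * (c : ℂ) / 4 + Ω * ((σ a : GaussianInt) : ℂ) / D - (Ω * (c : ℂ) / 4 - Ω * (a : ℂ) / D) =
        Ω * ((-(-a - σ a) : GaussianInt) : ℂ) / D := by
      rw [map_neg, map_sub, map_neg]
      field_simp
      ring
    rw [this, memL Q.toIsLat hD0]
    exact (dvd_neg).2 (hσ2 a)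
  simp only [hper, Function.comp_apply, Finset.sum_add_distrib, Finset.sum_sub_distrib,
    Finset.sum_const, nsmul_eq_mul]
  push_cast
  ring

section
variable {Γ : Type} [LinearOrderedCommGroupWithZero Γ] (v : Valuation ℂ Γ) (h2 : v 2 < 1)
include h2

/-- the normalized value -/
noncomputable def av (Ω : ℂ) (lam : Finset GaussianInt → ℂ) (T : Finset GaussianInt) : ℂ :=
  lam T / Ω * (1 + I) ^ 3 / 2 ^ T.card

theorem av_empty (Q : Sq L Ω) {lam : Finset GaussianInt → ℂ} (hl : ∀ T : Finset GaussianInt, (∀ p ∈ T, OP p) →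
    Tendsto (gs T ∅) (𝓝[>] 0) (𝓝 (lam T))) : v (av Ω lam ∅) = 1 := by
  have hΩ := Q.ne
  have h1 := base Q v h2 (lim_e Q.toIsLat (hl ∅ (by simp)))
  have hp := v_pi_pos v
  unfold av
  rw [Finset.card_empty, pow_zero, div_one]
  have h3 : lam ∅ / Ω * (1 + I) ^ 3 = (4 / Ω * lam ∅) * ((1 + I) ^ 3 / 4) := by ring
  have h4 : v (4 : ℂ) = v (1 + I) ^ 4 := by
    rw [show (4 : ℂ) = 2 ^ 2 by norm_num, map_pow, ← v_pi_sq, ← pow_mul]
  rw [h3, map_mul, h1, map_div₀, map_pow, h4]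
  have := hp.ne'
  rw [mul_div_assoc', ← pow_succ', div_self (pow_ne_zero _ this)]

theorem key_val (Q : Sq L Ω) {S : Finset GaussianInt} (hS : ∀ p ∈ S, OP p) (hne : S.Nonempty)
    {lam : Finset GaussianInt → ℂ} (hl : ∀ T : Finset GaussianInt, (∀ p ∈ T, OP p) →
      Tendsto (gs T ∅) (𝓝[>] 0) (𝓝 (lam T))) :
    v (∑ T ∈ S.powerset, av Ω lam T * ∏ p ∈ S \ T, ((1 - (ch T p : ℂ) / p) / 2)) < 1 := by
  have hΩ := Q.ne
  obtain ⟨D, C, hD, hC, h⟩ := main_lim Q hS hne hl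
  have hDc := coe_ne hD.ne_zero
  have e1 : ∑ T ∈ S.powerset, av Ω lam T * ∏ p ∈ S \ T, ((1 - (ch T p : ℂ) / p) / 2) =
      (∑ T ∈ S.powerset, lam T * ∏ p ∈ S \ T, (1 - (ch T p : ℂ) / p)) / Ω * (1 + I) ^ 3 /
        2 ^ S.card := by
    rw [Finset.sum_div, Finset.sum_mul, Finset.sum_div]
    refine Finset.sum_congr rfl fun T hT => ?_
    rw [Finset.prod_div_distrib, Finset.prod_const]
    have h3 := Finset.card_sdiff_add_card_eq_card (Finset.mem_powerset.1 hT)
    have h4 : (2 : ℂ) ^ S.card = 2 ^ (S \ T).card * 2 ^ T.card := by rw [← pow_add, h3]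
    unfold av
    rw [h4]
    field_simp
  rw [e1, h]
  set B : ℂ := ∑ a ∈ C, Dd L (Ω * ((1 : GaussianInt) : ℂ) / 4) (Ω * (a : ℂ) / D) -
            ∑ a ∈ C, Dd L (Ω * (c3 : ℂ) / 4) (Ω * (a : ℂ) / D) +
              2 * (C.card : ℂ) * ((4 / Ω) * lam ∅) with hB
  have e2 : 2 ^ S.card * ((ci D : ℂ) * (Ω / (4 * D)) * B) / Ω * (1 + I) ^ 3 / 2 ^ S.card =
      (ci D : ℂ) * (B * (1 + I) ^ 3 / 4) / D := by
    field_simp
  rw [e2]
  have hp := v_pi_pos v
  have vci : v (ci D : ℂ) = 1 := by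
    rcases ci_ne hD with h | h <;> rw [h] <;> simp
  have h4 : v (4 : ℂ) = v (1 + I) * v (1 + I) ^ 3 := by
    rw [show (4 : ℂ) = 2 ^ 2 by norm_num, map_pow, ← v_pi_sq, ← pow_mul, ← pow_succ']
  have vB : v B < v (1 + I) := by
    have hcard : v (C.card : ℂ) ≤ 1 := by
      have := v_int v (C.card : ℤ)
      exact_mod_cast this
    refine (v.map_add _ _).trans_lt (max_lt ((v.map_sub _ _).trans_lt (max_lt ?_ ?_)) ?_)
    · exact v.map_sum_lt hp.ne' fun a ha => v_Dd Q v h2 Pr_one hD (hC a ha)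
    · exact v.map_sum_lt hp.ne' fun a ha => v_Dd Q v h2 Pr_c3 hD (hC a ha)
    · rw [map_mul, map_mul, base Q v h2 (lim_e Q.toIsLat (hl ∅ (by simp)))]
      calc v 2 * v (C.card : ℂ) * v (1 + I) ≤ v 2 * 1 * v (1 + I) := by gcongr
        _ = v 2 * v (1 + I) := by rw [mul_one]
        _ < 1 * v (1 + I) := by gcongr
        _ = v (1 + I) := one_mul _
  rw [map_div₀, map_mul, vci, one_mul, v_Pr v h2 hD, div_one, map_div₀, map_mul, map_pow, h4,
    mul_div_mul_right _ _ (pow_ne_zero _ hp.ne')]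
  rw [div_lt_one₀ hp]
  exact vB

/-- the weights -/
noncomputable def wt (p : GaussianInt) (T : Finset GaussianInt) : ℤ := if ch T p = -1 then 1 else 0

omit h2 in
theorem ch_ne {T : Finset GaussianInt} (hT : ∀ p ∈ T, OP p) {p : GaussianInt} (hp : OP p) (hpT : p ∉ T) :
    ch T p = 1 ∨ ch T p = -1 := by
  unfold ch
  have h1 : ∏ q ∈ T, leg q p = 1 ∨ ∏ q ∈ T, leg q p = -1 := by
    have : (∏ q ∈ T, leg q p) * ∏ q ∈ T, leg q p = 1 := by
      rw [← Finset.prod_mul_distrib]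
      apply Finset.prod_eq_one
      intro q hq
      apply leg_sq_eq
      intro h
      have := (hT q hq).dvd hp h
      rw [this] at hq
      exact hpT hq
    exact mul_self_eq_one_iff.1 this
  rcases ci_ne hp.pm with h | h <;> rcases h1 with h1 | h1 <;> rw [h, h1] <;> simp

theorem v_fac {T : Finset GaussianInt} (hT : ∀ p ∈ T, OP p) {p : GaussianInt} (hp : OP p) (hpT : p ∉ T) :
    v ((1 - (ch T p : ℂ) / p) / 2 - wt p T) < 1 := by
  have hpc := coe_ne hp.pm.ne_zero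
  have hvp := v_Pr v h2 hp.pm
  obtain ⟨b, hb⟩ := (Pr_iff p).1 hp.pm
  have hpe : (p : ℂ) = 1 + 2 * (1 + I) * (b : ℂ) := by
    have : p = 1 + ⟨2, 2⟩ * b := by linear_combination hb
    rw [this, map_add, map_mul, map_one]
    congr 2
    rw [GaussianInt.toComplex_def]; push_cast; ring
  have hpi : v ((1 + I) * (b : ℂ)) < 1 := by
    rw [map_mul]
    calc v (1 + I) * v (b : ℂ) ≤ v (1 + I) * 1 := by gcongr; exact v_gauss v b
      _ < 1 := by rw [mul_one]; exact v_pi_lt v h2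
  rcases ch_ne hT hp hpT with h | h
  · have hw : wt p T = 0 := by unfold wt; rw [if_neg (by rw [h]; norm_num)]
    rw [h, hw]
    have : ((1 - ((1 : ℤ) : ℂ) / p) / 2 - ((0 : ℤ) : ℂ)) = (1 + I) * (b : ℂ) / p := by
      field_simp
      rw [hpe]; push_cast; ring
    rw [this, map_div₀, hvp, div_one]
    exact hpi
  · have hw : wt p T = 1 := by unfold wt; rw [if_pos h]
    rw [h, hw]
    have : ((1 - ((-1 : ℤ) : ℂ) / p) / 2 - ((1 : ℤ) : ℂ)) = -((1 + I) * (b : ℂ)) / p := by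
      field_simp
      rw [hpe]; push_cast; ring
    rw [this, map_div₀, hvp, div_one, Valuation.map_neg]
    exact hpi

omit h2 in
theorem v_le_of_sub {x y : ℂ} (h : v (x - y) < 1) (hy : v y ≤ 1) : v x ≤ 1 := by
  have : x = (x - y) + y := by ring
  rw [this]
  exact (v.map_add _ _).trans (max_le h.le hy)

theorem v_prod_sub {ι : Type} (s : Finset ι) (f g : ι → ℂ) (hg : ∀ i ∈ s, v (g i) ≤ 1)
    (h : ∀ i ∈ s, v (f i - g i) < 1) : v (∏ i ∈ s, f i - ∏ i ∈ s, g i) < 1 ∧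
      v (∏ i ∈ s, g i) ≤ 1 := by
  classical
  induction s using Finset.induction_on with
  | empty => simp
  | insert a s ha ih =>
    obtain ⟨i1, i2⟩ := ih (fun i hi => hg i (Finset.mem_insert_of_mem hi))
      (fun i hi => h i (Finset.mem_insert_of_mem hi))
    have h1 := h a (Finset.mem_insert_self _ _)
    have h3 := hg a (Finset.mem_insert_self _ _)
    rw [Finset.prod_insert ha, Finset.prod_insert ha]
    constructor
    · have : f a * ∏ i ∈ s, f i - g a * ∏ i ∈ s, g i =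
        (f a - g a) * ∏ i ∈ s, f i + g a * (∏ i ∈ s, f i - ∏ i ∈ s, g i) := by ring
      rw [this]
      refine (v.map_add _ _).trans_lt (max_lt ?_ ?_)
      · rw [map_mul]
        exact mul_lt_one_of_nonneg_of_lt_one_left zero_le h1 (v_le_of_sub v i1 i2)
      · rw [map_mul]
        exact mul_lt_one_of_nonneg_of_lt_one_right h3 zero_le i1
    · rw [map_mul]
      exact mul_le_one' h3 i2

/-- the congruence between the central values and a recursion -/
theorem cong_av (Q : Sq L Ω) {lam : Finset GaussianInt → ℂ} (hl : ∀ T : Finset GaussianInt, (∀ p ∈ T, OP p) →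
    Tendsto (gs T ∅) (𝓝[>] 0) (𝓝 (lam T))) (F : Finset GaussianInt → ℤ) (hF0 : F ∅ % 2 = 1)
    (hF : ∀ S : Finset GaussianInt, (∀ p ∈ S, OP p) → S.Nonempty →
      (∑ T ∈ S.powerset, F T * ∏ p ∈ S \ T, wt p T) % 2 = 0) (S : Finset GaussianInt)
    (hS : ∀ p ∈ S, OP p) : v (av Ω lam S - F S * av Ω lam ∅) < 1 := by
  classical
  induction S using Finset.strongInduction with
  | H S ih =>
    have ha := av_empty v h2 Q hl
    rcases S.eq_empty_or_nonempty with h | hne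
    · rw [h]
      have : av Ω lam ∅ - F ∅ * av Ω lam ∅ = ((1 - F ∅ : ℤ) : ℂ) * av Ω lam ∅ := by
        push_cast; ring
      rw [this, map_mul, ha, mul_one]
      exact v_even v h2 (by omega)
    · have hk := key_val v h2 Q hS hne hl
      have hterm : ∀ T ∈ S.powerset.erase S, v (av Ω lam T *
          ∏ p ∈ S \ T, ((1 - (ch T p : ℂ) / p) / 2) -
          ((F T * ∏ p ∈ S \ T, wt p T : ℤ) : ℂ) * av Ω lam ∅) < 1 := by
        intro T hT
        rw [Finset.mem_erase, Finset.mem_powerset] at hT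
        have hss : T ⊂ S := Finset.ssubset_iff_subset_ne.2 ⟨hT.2, hT.1⟩
        have hTo : ∀ p ∈ T, OP p := fun p hp => hS p (hT.2 hp)
        have i1 := ih T hss hTo
        obtain ⟨i2, i3⟩ := v_prod_sub v h2 (S \ T) (fun p => (1 - (ch T p : ℂ) / p) / 2)
          (fun p => ((wt p T : ℤ) : ℂ)) (fun p _ => v_int v _)
          (fun p hp => v_fac v h2 hTo (hS p (Finset.mem_sdiff.1 hp).1) (Finset.mem_sdiff.1 hp).2)
        have i4 : v (F T * av Ω lam ∅) ≤ 1 := by
          rw [map_mul, ha, mul_one]; exact v_int v _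
        have e : av Ω lam T * ∏ p ∈ S \ T, ((1 - (ch T p : ℂ) / p) / 2) -
          ((F T * ∏ p ∈ S \ T, wt p T : ℤ) : ℂ) * av Ω lam ∅ =
          (av Ω lam T - F T * av Ω lam ∅) * ∏ p ∈ S \ T, ((1 - (ch T p : ℂ) / p) / 2) +
          (F T * av Ω lam ∅) * (∏ p ∈ S \ T, ((1 - (ch T p : ℂ) / p) / 2) -
            ∏ p ∈ S \ T, ((wt p T : ℤ) : ℂ)) := by
          push_cast; ring
        rw [e]
        refine (v.map_add _ _).trans_lt (max_lt ?_ ?_)
        · rw [map_mul]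
          exact mul_lt_one_of_nonneg_of_lt_one_left zero_le i1 (v_le_of_sub v i2 i3)
        · rw [map_mul]
          exact mul_lt_one_of_nonneg_of_lt_one_right i4 zero_le i2
      have hSm : S ∈ S.powerset := Finset.mem_powerset_self S
      have hev := hF S hS hne
      rw [← Finset.add_sum_erase _ _ hSm] at hk hev
      simp only [Finset.sdiff_self, Finset.prod_empty, mul_one] at hk hev
      have hsum := v.map_sum_lt one_ne_zero hterm
      rw [Finset.sum_sub_distrib, ← Finset.sum_mul, ← Int.cast_sum] at hsum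
      set X := ∑ T ∈ S.powerset.erase S, av Ω lam T *
          ∏ p ∈ S \ T, ((1 - (ch T p : ℂ) / p) / 2) with hX
      set Y : ℤ := ∑ T ∈ S.powerset.erase S, F T * ∏ p ∈ S \ T, wt p T with hY
      have e : av Ω lam S - F S * av Ω lam ∅ = (av Ω lam S + X) - (X - Y * av Ω lam ∅) -
          ((F S + Y : ℤ) : ℂ) * av Ω lam ∅ := by push_cast; ring
      rw [e]
      refine (v.map_sub _ _).trans_lt (max_lt ((v.map_sub _ _).trans_lt (max_lt hk hsum)) ?_)
      rw [map_mul, ha, mul_one]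
      exact v_even v h2 hev

theorem lam_ne (Q : Sq L Ω) {lam : Finset GaussianInt → ℂ} (hl : ∀ T : Finset GaussianInt, (∀ p ∈ T, OP p) →
    Tendsto (gs T ∅) (𝓝[>] 0) (𝓝 (lam T))) (F : Finset GaussianInt → ℤ) (hF0 : F ∅ % 2 = 1)
    (hF : ∀ S : Finset GaussianInt, (∀ p ∈ S, OP p) → S.Nonempty →
      (∑ T ∈ S.powerset, F T * ∏ p ∈ S \ T, wt p T) % 2 = 0) (S : Finset GaussianInt)
    (hS : ∀ p ∈ S, OP p) (hFS : F S % 2 = 1) : lam S ≠ 0 := by
  intro h0
  have h1 := cong_av v h2 Q hl F hF0 hF S hS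
  have ha := av_empty v h2 Q hl
  have : av Ω lam S = 0 := by unfold av; rw [h0]; simp
  rw [this, zero_sub, Valuation.map_neg, map_mul, ha, mul_one, v_one_of_odd v h2 hFS] at h1
  exact lt_irrefl _ h1

end

end Pool.Agent.Y697.MQ
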