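import Pool.Agent.Y697.MQ.Hec
import Pool.Agent.Y697.MQ.Rec2
import Pool.Agent.W287.HK.Basic
import Pool.Agent.W571.HK.Cls
import Pool.Agent.W53.HK.Fp
import Pool.Agent.W366.HK.Fpr
import Pool.Agent.W585.HK.LAT
import Pool.Agent.W692.HK.Ker
import Pool.Agent.W584.HK.CNT
import Pool.Agent.W856.HK.Dec
import Pool.Agent.W636.HK.Gauss
import Pool.Agent.W348.HK.Pois

/-! The central values as limits. -/

set_option autoImplicit false

open Filter Complex
open scoped Topology

namespace Pool.Agent.Y697.MQ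

open Pool.Agent.TH936.CM Pool.Agent.W192.HK
open Pool.Agent.W192.CM (nu)


theorem sys {T : Finset GaussianInt} (hT : ∀ p ∈ T, OP p) : ∃ (R0 : Finset RI),
    Sys (sp (eR (cd T))) {⊤} ⊤ (eR (cd T)) R0 := by
  classical
  obtain ⟨A, hA⟩ := exists_reps (cd_ne hT)
  refine ⟨A.image eR, ?_⟩
  have htop : (⊤ : Ideal RI) ≠ ⊥ := top_ne_bot
  refine ⟨⟨?_, ?_⟩, ?_, ?_, htop, ?_, ?_, ⟨?_, ?_⟩⟩
  · intro b hb
    rw [Finset.mem_singleton] at hb
    rw [hb]; exact htop
  · intro J _
    refine ⟨⊤, ⟨Finset.mem_singleton_self _, ?_⟩, ?_⟩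
    · obtain ⟨a, ha⟩ := exists_gen' J
      exact ⟨eR a, by rw [Ideal.mul_top, ha]⟩
    · rintro b ⟨hb, -⟩
      exact Finset.mem_singleton.1 hb
  · intro b hb
    rw [Finset.mem_singleton] at hb
    rw [hb, Ideal.isCoprime_iff_sup_eq]
    exact top_sup_eq _
  · intro b hb
    rw [Finset.mem_singleton] at hb
    rw [hb]
  · rw [Ideal.isCoprime_iff_sup_eq]
    exact top_sup_eq _
  · rw [Ideal.mul_top]
  · intro x _
    exact Submodule.mem_top
  · intro α
    obtain ⟨a, rfl⟩ := eR.surjective α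
    obtain ⟨b, ⟨hb, hb'⟩, hu⟩ := hA a
    refine ⟨eR b, ⟨Finset.mem_image_of_mem _ hb, ?_⟩, ?_⟩
    · rw [Ideal.mem_span_singleton, ← map_sub]
      exact map_dvd eR hb'
    · rintro y ⟨hy, hy'⟩
      rw [Finset.mem_image] at hy
      obtain ⟨c, hc, rfl⟩ := hy
      rw [Ideal.mem_span_singleton, ← map_sub] at hy'
      rw [hu c ⟨hc, (map_dvd_iff eR).1 hy'⟩]

theorem SS_eq {T : Finset GaussianInt} (hb : Finite RIˣ) {δ : ℝ} (hδ : 0 < δ) :
    SS (cb (th T) ⊤) δ = (nu RI : ℂ) * gs T ∅ δ := by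
  classical
  have := Fintype.ofFinite RIˣ
  set g : RI → ℂ := fun x => (ch T (eR.symm x) : ℂ) * fd δ (x : ℂ) with hg
  have hgG : ∑' x : RI, g x = gs T ∅ δ := by
    rw [← eR.toEquiv.tsum_eq g]
    unfold gs
    refine tsum_congr fun β => ?_
    rw [Finset.prod_empty, mul_one]
    show (ch T (eR.symm (eR β)) : ℂ) * fd δ ((eR β : RI) : ℂ) = _
    rw [eR.symm_apply_apply, eR_coe]
  have hgs : Summable g := by
    have := summ_gs T ∅ hδ
    rw [← eR.toEquiv.summable_iff]
    refine this.congr fun β => ?_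
    rw [Finset.prod_empty, mul_one]
    show _ = (ch T (eR.symm (eR β)) : ℂ) * fd δ ((eR β : RI) : ℂ)
    rw [eR.symm_apply_apply, eR_coe]
  have hg0 : ∀ x : RI, ¬ Pr (eR.symm x) → g x = 0 := by
    intro x hx
    simp only [hg]
    unfold ch
    rw [ci_zero hx]
    simp
  have key : ∀ x : RI, cb (th T) ⊤ x * fd δ (x : ℂ) = ∑ w : RIˣ, g ((w : RI) * x) := by
    intro x
    obtain ⟨a, rfl⟩ := eR.surjective x
    unfold cb
    rw [if_pos Submodule.mem_top]
    unfold fp
    rw [pow_one, eR_coe]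
    rcases pg_cases a with ⟨u, hu4, hu, hp, e⟩ | ⟨h, e⟩
    · obtain ⟨w0, hw0⟩ := (hu.map eR)
      have hmul : (w0 : RI) * eR a = eR (u * a) := by rw [hw0, map_mul]
      rw [Finset.sum_eq_single w0]
      · rw [hmul]
        simp only [hg]
        rw [eR.symm_apply_apply, eR_coe]
        unfold th
        rw [e]
        have ha0 : (a : ℂ) ≠ 0 := by
          apply coe_ne
          rintro rfl
          rw [mul_zero] at hp
          exact hp.ne_zero rfl
        have hu0 : (u : ℂ) ≠ 0 := coe_ne hu.ne_zero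
        have hn : Complex.normSq (u : ℂ) = 1 := by
          have h4 : (u : ℂ) ^ 4 = 1 := by rw [← map_pow, hu4, map_one]
          have h5 : Complex.normSq (u : ℂ) ^ 4 = 1 := by rw [← map_pow, h4, map_one]
          exact (pow_eq_one_iff_of_nonneg (Complex.normSq_nonneg _) (by norm_num)).1 h5
        have hc : (starRingEnd ℂ) (u : ℂ) = (u : ℂ)⁻¹ := by
          rw [Complex.inv_def, hn]; simp
        have h6 : ((u * a : GaussianInt) : ℂ) * (ch T (u * a) : ℂ) / (a : ℂ) = (u : ℂ) * (ch T (u * a) : ℂ) := by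
          rw [map_mul]
          field_simp
        rw [h6, map_mul, hc, map_intCast, map_mul, fd_mul, hn, mul_one]
        ring
      · intro w _ hw
        apply hg0
        intro hp'
        apply hw
        have h1 : Pr (eR.symm (w : RI) * a) := by
          rw [map_mul, eR.symm_apply_apply] at hp'
          exact hp'
        have h2 : Associated (u * a) (eR.symm (w : RI) * a) := by
          obtain ⟨y, rfl⟩ := hu
          obtain ⟨z, hz⟩ := (w.isUnit.map eR.symm)
          rw [← hz]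
          exact ⟨y⁻¹ * z, by push_cast; rw [mul_assoc, mul_comm a, ← mul_assoc, ← mul_assoc,
            Units.mul_inv, one_mul]⟩
        have h3 := hp.assoc h1 h2
        have ha0 : a ≠ 0 := by
          rintro rfl
          rw [mul_zero] at hp
          exact hp.ne_zero rfl
        have h4 := mul_right_cancel₀ ha0 h3
        apply Units.ext
        rw [hw0, h4, eR.apply_symm_apply]
      · intro h; exact absurd (Finset.mem_univ _) h
    · unfold th
      rw [e, map_zero, zero_mul, zero_div, map_zero, zero_mul]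
      symm
      apply Finset.sum_eq_zero
      intro w _
      apply hg0
      intro hp'
      rw [map_mul, eR.symm_apply_apply] at hp'
      exact hp'.not_dvd (h.mul_left _)
  unfold SS
  rw [tsum_congr key, Summable.tsum_finsetSum]
  · have h1 : ∀ w : RIˣ, ∑' x : RI, g ((w : RI) * x) = gs T ∅ δ := by
      intro w
      rw [← hgG]
      exact (Units.mulLeft w).tsum_eq g
    rw [Finset.sum_congr rfl fun w _ => h1 w, Finset.sum_const, nsmul_eq_mul]
    unfold nu
    rw [Nat.card_eq_fintype_card]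
    rfl
  · intro w _
    exact ((Units.mulLeft w).summable_iff (f := g)).2 hgs

theorem exists_F {T : Finset GaussianInt} (hT : ∀ p ∈ T, OP p) : ∃ F : ℂ → ℂ, Differentiable ℂ F ∧
    (∀ z : ℂ, 3 / 2 < z.re → HasSum (fun J : Ideal RI => th T J * (nm J : ℂ) ^ (-z)) (F z)) ∧
    Tendsto (gs T ∅) (𝓝[>] 0) (𝓝 ((starRingEnd ℂ) (F 1))) := by
  classical
  have hbasic := Pool.Agent.W287.HK.h_basic
  have hcls := Pool.Agent.W571.HK.h_cls hbasic
  have hfp := Pool.Agent.W53.HK.h_fp hbasic hcls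
  have hfpr := Pool.Agent.W366.HK.h_fpr hbasic hcls
  have hlat := Pool.Agent.W585.HK.h_lat hbasic
  have hker := Pool.Agent.W692.HK.h_ker hbasic hcls hfpr
  have hcnt := Pool.Agent.W584.HK.h_cnt hbasic hcls hfpr hlat hker
  have hdec := Pool.Agent.W856.HK.h_dec hbasic
  have hgauss := Pool.Agent.W636.HK.h_gauss hbasic hfp
  have hpois := Pool.Agent.W348.HK.h_pois hbasic
  have htheta := Pool.Agent.TH936.HK.h_theta hbasic hfp hdec hgauss hpois hcnt
  have hafe := Pool.Agent.TH936.HK.h_afe hbasic hfp hcnt hgauss htheta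
  obtain ⟨R0, hS⟩ := sys hT
  obtain ⟨F, h1, h2, h3⟩ := lim_L hbasic hfp hcnt hdec hafe qr (hc hT) hS
  refine ⟨F, h1, h2, ?_⟩
  obtain ⟨-, -, -, -, b5, -, b7, -, b9⟩ := hbasic RI I qr
  have hν : (nu RI : ℂ) ≠ 0 := by
    have : nu RI ≠ 0 := by
      unfold nu
      have := b9
      exact Nat.card_pos.ne'
    exact_mod_cast this
  have htop : nm (⊤ : Ideal RI) = 1 := (b7 ⊤).2 rfl
  have hθ1 : th T (⊤ : Ideal RI) = 1 := by
    have e : (⊤ : Ideal RI) = sp (eR 1) := by
      rw [map_one]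
      exact Ideal.span_singleton_one.symm
    unfold th
    rw [e, pg_sp Pr_one, map_one, one_mul]
    unfold ch
    rw [ci_one, one_mul, Finset.prod_eq_one]
    · simp
    · intro p hp
      exact leg_one (hT p hp).pr
  have h4 := h3.const_mul ((nu RI : ℂ)⁻¹)
  rw [← mul_assoc, inv_mul_cancel₀ hν, one_mul] at h4
  refine h4.congr' ?_
  filter_upwards [self_mem_nhdsWithin] with δ (hδ : 0 < δ)
  rw [Finset.sum_singleton, hθ1, htop, div_one, one_mul, SS_eq b9 hδ, ← mul_assoc,
    inv_mul_cancel₀ hν, one_mul]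

end Pool.Agent.Y697.MQ
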