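import Mathlib

/-! Kummer theory of exponent two: signs. -/

set_option autoImplicit false

namespace Pool.Agent.Y697.MQ

/-- the sign attached to an element of `ZMod 2` -/
def sg (x : ZMod 2) : ℤ := if x = 0 then 1 else -1

theorem sg_add (x y : ZMod 2) : sg (x + y) = sg x * sg y := by
  revert x y; decide

theorem sg_zero : sg 0 = 1 := rfl

theorem sg_one : sg 1 = -1 := rfl

theorem sg_sq (x : ZMod 2) : sg x * sg x = 1 := by
  revert x; decide

theorem sg_cases (x : ZMod 2) : sg x = 1 ∨ sg x = -1 := by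
  revert x; decide

theorem sg_inj {x y : ZMod 2} (h : sg x = sg y) : x = y := by
  revert x y; decide

theorem sg_sum {I : Type} (s : Finset I) (f : I → ZMod 2) : sg (∑ i ∈ s, f i) = ∏ i ∈ s, sg (f i) := by
  classical
  induction s using Finset.induction_on with
  | empty => rfl
  | insert a s ha ih => rw [Finset.sum_insert ha, Finset.prod_insert ha, sg_add, ih]

section
variable {k K : Type} [Field k] [Field K] [Algebra k K] [FiniteDimensional k K]

theorem sign_of (r : K) (c : k) (hr : r ^ 2 = algebraMap k K c) (σ : K ≃ₐ[k] K) :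
    ∃ x : ZMod 2, σ r = (sg x : K) * r := by
  have h1 : (σ r) ^ 2 = r ^ 2 := by rw [← map_pow, hr, AlgEquiv.commutes]
  rcases sq_eq_sq_iff_eq_or_eq_neg.1 h1 with h | h
  · exact ⟨0, by rw [h, sg_zero]; push_cast; ring⟩
  · exact ⟨1, by rw [h, sg_one]; push_cast; ring⟩

/-- **Signs can be prescribed.** -/
theorem kummer [IsGalois k K] {I : Type} [Fintype I] [DecidableEq I] (r : I → K) (c : I → k)
    (hc0 : ∀ i, c i ≠ 0) (hr : ∀ i, r i ^ 2 = algebraMap k K (c i)) (h2 : (2 : K) ≠ 0)
    (hind : ∀ J : Finset I, J.Nonempty → ¬ IsSquare (∏ i ∈ J, c i)) (v : I → ZMod 2) :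
    ∃ σ : K ≃ₐ[k] K, ∀ i, σ (r i) = (sg (v i) : K) * r i := by
  classical
  let H : Submodule (ZMod 2) (I → ZMod 2) :=
    { carrier := {v | ∃ σ : K ≃ₐ[k] K, ∀ i, σ (r i) = (sg (v i) : K) * r i}
      zero_mem' := ⟨1, fun i => by simp [sg_zero]⟩
      add_mem' := by
        rintro a b ⟨σ, hσ⟩ ⟨τ, hτ⟩
        refine ⟨σ * τ, fun i => ?_⟩
        rw [AlgEquiv.mul_apply, hτ, map_mul, map_intCast, hσ, Pi.add_apply, sg_add]
        push_cast
        ring
      smul_mem' := by
        rintro x b ⟨σ, hσ⟩
        have hx : x = 0 ∨ x = 1 := by revert x; decide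
        rcases hx with rfl | rfl
        · exact ⟨1, fun i => by simp [sg_zero]⟩
        · exact ⟨σ, fun i => by rw [one_smul]; exact hσ i⟩ }
  by_contra hcon
  have hlt : H < ⊤ := lt_top_iff_ne_top.2 fun h => hcon (by
    have : v ∈ H := by rw [h]; trivial
    exact this)
  obtain ⟨φ, hφ0, hφ⟩ := Submodule.exists_le_ker_of_lt_top H hlt
  set J : Finset I := Finset.univ.filter (fun i => φ (Pi.single i 1) = 1) with hJ
  have hφv : ∀ w : I → ZMod 2, φ w = ∑ i ∈ J, w i := by
    intro w
    have h1 : w = ∑ i, w i • (Pi.single i (1 : ZMod 2) : I → ZMod 2) := by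
      ext j
      rw [Finset.sum_apply, Finset.sum_eq_single j]
      · simp
      · intro b _ hb
        rw [Pi.smul_apply, Pi.single_eq_of_ne hb.symm, smul_zero]
      · intro h; exact absurd (Finset.mem_univ _) h
    conv_lhs => rw [h1]
    rw [map_sum, hJ, Finset.sum_filter]
    refine Finset.sum_congr rfl fun i _ => ?_
    rw [map_smul, smul_eq_mul]
    have hx : ∀ x : ZMod 2, x = 0 ∨ x = 1 := by decide
    rcases hx (φ (Pi.single i 1)) with h | h
    · rw [h, mul_zero, if_neg (by decide)]
    · rw [h, mul_one, if_pos rfl]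
  have hne : J.Nonempty := by
    rw [Finset.nonempty_iff_ne_empty]
    intro h
    apply hφ0
    ext w
    have := hφv (Pi.single w 1)
    rw [h, Finset.sum_empty] at this
    simpa using this
  apply hind J hne
  -- the product of the roots is invariant
  have hfix : ∀ σ : K ≃ₐ[k] K, σ (∏ i ∈ J, r i) = ∏ i ∈ J, r i := by
    intro σ
    choose w hw using fun i => sign_of (r i) (c i) (hr i) σ
    have h1 : w ∈ H := ⟨σ, hw⟩
    have h2 := hφ h1
    rw [LinearMap.mem_ker, hφv] at h2
    rw [map_prod, Finset.prod_congr rfl fun i _ => hw i, Finset.prod_mul_distrib]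
    have h3 : ∏ i ∈ J, (sg (w i) : K) = 1 := by
      have h4 := sg_sum J w
      rw [h2, sg_zero] at h4
      have h5 := congrArg (fun n : ℤ => (n : K)) h4
      push_cast at h5
      exact h5.symm
    rw [h3, one_mul]
  obtain ⟨e, he⟩ := (IsGalois.mem_range_algebraMap_iff_fixed (F := k) (∏ i ∈ J, r i)).2 hfix
  refine ⟨e, ?_⟩
  apply (algebraMap k K).injective
  rw [map_mul, he, map_prod, ← Finset.prod_mul_distrib]
  refine Finset.prod_congr rfl fun i _ => ?_
  rw [← hr i, sq]

/-- the order of the group -/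
theorem kummer_card [IsGalois k K] {I : Type} [Fintype I] [DecidableEq I] (r : I → K) (c : I → k)
    (hc0 : ∀ i, c i ≠ 0) (hr : ∀ i, r i ^ 2 = algebraMap k K (c i)) (h2 : (2 : K) ≠ 0)
    (hind : ∀ J : Finset I, J.Nonempty → ¬ IsSquare (∏ i ∈ J, c i))
    (hinj : ∀ σ : K ≃ₐ[k] K, (∀ i, σ (r i) = r i) → σ = 1) :
    Nat.card (K ≃ₐ[k] K) = 2 ^ Fintype.card I := by
  classical
  choose w hw using fun (σ : K ≃ₐ[k] K) i => sign_of (r i) (c i) (hr i) σ
  have hr0 : ∀ i, r i ≠ 0 := by
    intro i h
    have h1 := hr i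
    rw [h] at h1
    exact hc0 i ((algebraMap k K).injective (by rw [← h1, map_zero]; ring))
  have h11 : (1 : K) ≠ -1 := by
    intro h
    apply h2
    linear_combination h
  have hsg : ∀ x y : ZMod 2, (sg x : K) = sg y → x = y := by
    intro x y h
    apply sg_inj
    rcases sg_cases x with hx | hx <;> rcases sg_cases y with hy | hy <;> rw [hx, hy] at h ⊢
    · push_cast at h; exact absurd h h11
    · push_cast at h; exact absurd h.symm h11
  have hbij : Function.Bijective (fun σ : K ≃ₐ[k] K => w σ) := by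
    constructor
    · intro σ τ hστ
      have h3 : τ⁻¹ * σ = 1 := by
        apply hinj
        intro i
        rw [AlgEquiv.mul_apply, hw σ i]
        have h4 := congrFun hστ i
        simp only at h4
        rw [h4, ← hw τ i]
        exact τ.symm_apply_apply _
      rw [inv_mul_eq_one] at h3
      exact h3.symm
    · intro v
      obtain ⟨σ, hσ⟩ := kummer r c hc0 hr h2 hind v
      refine ⟨σ, ?_⟩
      funext i
      apply hsg
      have h3 := hw σ i
      rw [hσ i] at h3
      exact (mul_right_cancel₀ (hr0 i) h3).symm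
  rw [Nat.card_congr (Equiv.ofBijective _ hbij)]
  simp

end

end Pool.Agent.Y697.MQ
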