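import Pool.Agent.TH936.CM.Lat
import Pool.Agent.TH936.CM.Jal

/-! The square lattice with invariants `g₂ = 4`, `g₃ = 0`. -/

set_option autoImplicit false

open Filter
open scoped Topology PeriodPair

namespace Pool.Agent.Y697.MQ

open Pool.Agent.TH936.CM Pool.Agent.W192.HK H667R3

/-- `ℤ[i]` inside `ℂ` -/
def RI : Subring ℂ := GaussianInt.toComplex.range

/-- the Gaussian integers and `RI` -/
noncomputable def eR : GaussianInt ≃+* RI :=
  RingEquiv.ofBijective GaussianInt.toComplex.rangeRestrict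
    ⟨fun a b h => by
      have h1 : GaussianInt.toComplex a = GaussianInt.toComplex b := congrArg Subtype.val h
      exact GaussianInt.toComplex_injective h1,
      GaussianInt.toComplex.rangeRestrict_surjective⟩

theorem eR_coe (a : GaussianInt) : ((eR a : RI) : ℂ) = (a : ℂ) := rfl

theorem eR_symm_coe (r : RI) : ((eR.symm r : GaussianInt) : ℂ) = (r : ℂ) := by
  rw [← eR_coe, eR.apply_symm_apply]

theorem qr : QR RI Complex.I where
  im := by simp
  mem := fun z => by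
    constructor
    · rintro ⟨g, rfl⟩
      exact ⟨g.re, g.im, by rw [GaussianInt.toComplex_def]⟩
    · rintro ⟨x, y, rfl⟩
      exact ⟨⟨x, y⟩, by rw [GaussianInt.toComplex_def]⟩
  ded := by
    have : IsPrincipalIdealRing RI :=
      IsPrincipalIdealRing.of_surjective (eR : GaussianInt →+* RI) eR.surjective
    exact IsPrincipalIdealRing.isDedekindDomain RI

theorem pid : IsPrincipalIdealRing RI :=
  IsPrincipalIdealRing.of_surjective (eR : GaussianInt →+* RI) eR.surjective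

theorem I_mem : Complex.I ∈ RI := (qr.mem _).2 ⟨0, 1, by simp⟩

variable {L : PeriodPair} {Ω : ℂ}

/-- multiplication by `i` on the lattice -/
noncomputable def mulI (hL : IsLat L RI Ω) : L.lattice ≃ L.lattice where
  toFun l := ⟨Complex.I * l, hL.mul ⟨Complex.I, I_mem⟩ _ l.2⟩
  invFun l := ⟨-(Complex.I * l), neg_mem (hL.mul ⟨Complex.I, I_mem⟩ _ l.2)⟩
  left_inv l := Subtype.ext (by
    show -(Complex.I * (Complex.I * (l : ℂ))) = l
    rw [← mul_assoc, Complex.I_mul_I]; ring)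
  right_inv l := Subtype.ext (by
    show Complex.I * (-(Complex.I * (l : ℂ))) = l
    rw [mul_neg, ← mul_assoc, Complex.I_mul_I]; ring)

theorem mulI_coe (hL : IsLat L RI Ω) (l : L.lattice) : ((mulI hL l : L.lattice) : ℂ) = Complex.I * l := rfl

theorem wp_I (hL : IsLat L RI Ω) (z : ℂ) : ℘[L] (Complex.I * z) = -℘[L] z := by
  unfold PeriodPair.weierstrassP
  rw [← (mulI hL).tsum_eq, ← tsum_neg]
  refine tsum_congr fun l => ?_
  rw [mulI_coe, ← mul_sub, mul_pow, mul_pow, Complex.I_sq]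
  simp only [neg_mul, one_mul, div_neg, neg_sub]
  ring

theorem wp'_I (hL : IsLat L RI Ω) (z : ℂ) : ℘'[L] (Complex.I * z) = Complex.I * ℘'[L] z := by
  unfold PeriodPair.derivWeierstrassP
  rw [← (mulI hL).tsum_eq, mul_neg, ← tsum_mul_left]
  congr 1
  refine tsum_congr fun l => ?_
  rw [mulI_coe, ← mul_sub, mul_pow]
  have h3 : Complex.I ^ 3 = -Complex.I := by
    rw [pow_succ, Complex.I_sq]; ring
  rw [h3]
  by_cases h : z - l = 0
  · rw [h]; simp
  · field_simp
    rw [Complex.I_sq]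

/-- the lattice with `g₂ = 4`, `g₃ = 0` -/
structure Sq (L : PeriodPair) (Ω : ℂ) : Prop extends IsLat L RI Ω where
  g2 : L.g₂ = 4
  g3 : L.g₃ = 0

theorem G6 (hL : IsLat L RI Ω) : L.G 6 = 0 := by
  have h : L.G 6 = -L.G 6 := by
    have e : L.G 6 = ∑' l : L.lattice, ((l : ℂ) ^ 6)⁻¹ := rfl
    have e2 : ∑' l : L.lattice, ((l : ℂ) ^ 6)⁻¹ = ∑' l : L.lattice, -((l : ℂ) ^ 6)⁻¹ := by
      conv_lhs => rw [← (mulI hL).tsum_eq]
      refine tsum_congr fun l => ?_
      rw [mulI_coe, mul_pow]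
      have h6 : Complex.I ^ 6 = -1 := by
        rw [show (6 : ℕ) = 2 * 3 by norm_num, pow_mul, Complex.I_sq]; norm_num
      rw [h6, neg_one_mul, inv_neg]
    rw [e]
    rw [tsum_neg] at e2
    exact e2
  linear_combination (1 / 2 : ℂ) * h

theorem half_of (hL : IsLat L RI Ω) {r : RI} : Ω * r / 2 ∈ L.lattice ↔ ∃ s : RI, (r : ℂ) = 2 * s := by
  have hΩ := hL.ne
  rw [hL.mem]
  constructor
  · rintro ⟨s, hs⟩
    refine ⟨s, ?_⟩
    field_simp at hs
    linear_combination hs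
  · rintro ⟨s, hs⟩
    refine ⟨s, ?_⟩
    rw [hs]
    ring

theorem wp'_half {h : ℂ} (h2 : 2 * h ∈ L.lattice) (h1 : h ∉ L.lattice) : ℘'[L] h = 0 :=
  (two_mem_iff h1).1 h2

theorem g2_ne (hL : IsLat L RI Ω) : L.g₂ ≠ 0 := by
  intro h2
  have h3 : L.g₃ = 0 := by
    unfold PeriodPair.g₃
    rw [G6 hL, mul_zero]
  have key : ∀ h : ℂ, 2 * h ∈ L.lattice → h ∉ L.lattice → ℘[L] h = 0 := by
    intro h a b
    have e := L.derivWeierstrassP_sq h b
    rw [wp'_half a b, h2, h3] at e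
    have : ℘[L] h ^ 3 = 0 := by linear_combination -(1 / 4 : ℂ) * e
    exact pow_eq_zero_iff (by norm_num) |>.1 this
  have ho : (Ω * ((1 : RI) : ℂ) / 2) ∉ L.lattice := by
    rw [half_of hL]
    rintro ⟨s, hs⟩
    obtain ⟨x, y, hxy⟩ := (qr.mem _).1 s.2
    rw [hxy] at hs
    have := congrArg Complex.re hs
    simp at this
    have h5 : ((1 : ℤ) : ℝ) = ((2 * x : ℤ) : ℝ) := by push_cast; exact this
    have h5 := Int.cast_injective h5
    omega
  have hi : (Ω * ((⟨Complex.I, I_mem⟩ : RI) : ℂ) / 2) ∉ L.lattice := by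
    rw [half_of hL]
    rintro ⟨s, hs⟩
    obtain ⟨x, y, hxy⟩ := (qr.mem _).1 s.2
    rw [hxy] at hs
    have := congrArg Complex.im hs
    simp at this
    have h5 : ((1 : ℤ) : ℝ) = ((2 * y : ℤ) : ℝ) := by push_cast; exact this
    have h5 := Int.cast_injective h5
    omega
  have e1 := key _ (by rw [mul_div_cancel₀ _ (by norm_num : (2 : ℂ) ≠ 0)]; exact hL.mem_mul _) ho
  have e2 := key _ (by rw [mul_div_cancel₀ _ (by norm_num : (2 : ℂ) ≠ 0)]; exact hL.mem_mul _) hi
  have h6 := (wp_eq_iff L ho hi).1 (by rw [e1, e2])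
  have hex : ∀ ε : ℤ, (ε = 1 ∨ ε = -1) → Ω * ((1 : RI) : ℂ) / 2 + ε * (Ω * Complex.I / 2) ∉ L.lattice := by
    intro ε hε hc
    obtain ⟨s, hs⟩ := (hL.mem _).1 hc
    obtain ⟨x, y, hxy⟩ := (qr.mem _).1 s.2
    have hΩ := hL.ne
    have h7 : (1 : ℂ) + ε * Complex.I = 2 * (x + y * Complex.I) := by
      rw [← hxy]
      have : Ω * ((1 : ℂ) + ε * Complex.I) = Ω * (2 * (s : ℂ)) := by
        push_cast at hs
        linear_combination 2 * hs
      exact mul_left_cancel₀ hΩ this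
    have := congrArg Complex.re h7
    simp at this
    have h5 : ((1 : ℤ) : ℝ) = ((2 * x : ℤ) : ℝ) := by push_cast; exact this
    have h5 := Int.cast_injective h5
    omega
  rcases h6 with h6 | h6
  · refine hex 1 (Or.inl rfl) ?_
    convert h6 using 1
    push_cast
    ring
  · refine hex (-1) (Or.inr rfl) ?_
    convert h6 using 1
    push_cast
    ring

theorem exists_sq : ∃ (L : PeriodPair) (Ω : ℂ), Sq L Ω := by
  have hR := qr
  set L₁ := mkL Complex.I 1 hR.im one_ne_zero with hL₁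
  have hlat : IsLat L₁ RI 1 := mkL_isLat hR one_ne_zero
  obtain ⟨Ω, hΩ⟩ := IsAlgClosed.exists_pow_nat_eq (L₁.g₂ / 4) (n := 4) (by norm_num)
  have hg := g2_ne hlat
  have hΩ0 : Ω ≠ 0 := by
    rintro rfl
    rw [zero_pow (by norm_num)] at hΩ
    exact hg (by linear_combination -4 * hΩ)
  have hlat' : IsLat (mkL Complex.I Ω hR.im hΩ0) RI Ω := mkL_isLat hR hΩ0
  refine ⟨mkL Complex.I Ω hR.im hΩ0, Ω, ⟨hlat', ?_, ?_⟩⟩
  · have e1 : (mkL Complex.I Ω hR.im hΩ0).g₂ = (Ω ^ 4)⁻¹ * L₁.g₂ := by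
      rw [hL₁]
      unfold PeriodPair.g₂
      rw [G_eq hR.im hΩ0 (k := 4) (by norm_num), G_eq hR.im one_ne_zero (k := 4) (by norm_num)]
      ring
    rw [e1, hΩ]
    field_simp
  · unfold PeriodPair.g₃
    rw [G6 hlat', mul_zero]

/-! ### the function `℘` -/

section
variable (S : Sq L Ω)
include S

theorem sq_eq {z : ℂ} (hz : z ∉ L.lattice) : ℘'[L] z ^ 2 = 4 * ℘[L] z * (℘[L] z ^ 2 - 1) := by
  rw [L.derivWeierstrassP_sq z hz, S.g2, S.g3]
  ring

theorem wp_ne {z : ℂ} (hz : 2 * z ∉ L.lattice) : ℘[L] z ≠ 0 ∧ ℘[L] z ^ 2 - 1 ≠ 0 := by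
  have h1 := wp'_ne_zero L hz
  have h2 := sq_eq S (two_mul_notMem_of L hz)
  have h3 : ℘'[L] z ^ 2 ≠ 0 := pow_ne_zero 2 h1
  rw [h2] at h3
  constructor
  · rintro h; rw [h] at h3; simp at h3
  · rintro h; rw [h] at h3; simp at h3

theorem mul_notMem {z : ℂ} (hz : 2 * z ∉ L.lattice) : (1 + Complex.I) * z ∉ L.lattice ∧
    (1 - Complex.I) * z ∉ L.lattice := by
  have h1 : ∀ w : ℂ, w ∈ L.lattice → Complex.I * w ∈ L.lattice := fun w hw =>
    S.toIsLat.mul ⟨Complex.I, I_mem⟩ w hw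
  constructor
  · intro h
    apply hz
    have h2 := sub_mem h (h1 _ h)
    convert h2 using 1
    linear_combination (z) * Complex.I_sq
  · intro h
    apply hz
    have h2 := add_mem h (h1 _ h)
    convert h2 using 1
    linear_combination (z) * Complex.I_sq

/-- multiplication by `1 + i` -/
theorem wp_mul {z : ℂ} (hz : 2 * z ∉ L.lattice) :
    ℘[L] ((1 + Complex.I) * z) * (2 * Complex.I * ℘[L] z) = ℘[L] z ^ 2 - 1 := by
  have hz' := two_mul_notMem_of L hz
  obtain ⟨h1, h2⟩ := mul_notMem S hz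
  have hI : Complex.I * z ∉ L.lattice := by
    intro h
    apply hz'
    have h3 := neg_mem (S.toIsLat.mul ⟨Complex.I, I_mem⟩ _ h)
    convert h3 using 1
    show z = -(Complex.I * (Complex.I * z))
    linear_combination (z) * Complex.I_sq
  have h3 := wp_add L hz hI (by rwa [show z + Complex.I * z = (1 + Complex.I) * z by ring])
    (by rwa [show z - Complex.I * z = (1 - Complex.I) * z by ring])
  rw [wp_I S.toIsLat, wp'_I S.toIsLat, S.g2] at h3
  have e1 : z + Complex.I * z = (1 + Complex.I) * z := by ring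
  rw [e1] at h3
  obtain ⟨h4, -⟩ := wp_ne S hz
  have h5 := sq_eq S hz'
  rw [h3]
  set X := ℘[L] z with hX
  set Y := ℘'[L] z with hY
  have e2 : ((6 * X ^ 2 - 4 / 2) * (X - -X) - (Y - Complex.I * Y) * Y) =
      2 * X * (6 * X ^ 2 - 2) - (1 - Complex.I) * (4 * X * (X ^ 2 - 1)) := by
    rw [← h5]; ring
  rw [e2]
  field_simp
  linear_combination (4 - 4 * X ^ 2) * Complex.I_sq

end

end Pool.Agent.Y697.MQ
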