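import Pool.Agent.Y697.MQ.Bas

/-! The recursion for the central values. -/

set_option autoImplicit false

open Filter Complex
open scoped Topology PeriodPair

namespace Pool.Agent.Y697.MQ

open Pool.Agent.TH936.CM Pool.Agent.W192.HK H667R3


variable {L : PeriodPair} {Ω : ℂ}

/-- the product of the symbols -/
noncomputable def ch (T : Finset GaussianInt) (α : GaussianInt) : ℤ := ci α * ∏ p ∈ T, leg p α

/-- the sums -/
noncomputable def gs (T U : Finset GaussianInt) (δ : ℝ) : ℂ :=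
  ∑' α : GaussianInt, ((ch T α * ∏ p ∈ U, (leg p α) ^ 2 : ℤ) : ℂ) * fd δ (α : ℂ)

theorem abs_leg (p α : GaussianInt) : |leg p α| ≤ 1 := by
  rcases leg_cases p α with h | h | h <;> rw [h] <;> norm_num

theorem abs_ci (α : GaussianInt) : |ci α| ≤ 1 := by
  unfold ci; split_ifs <;> norm_num

theorem abs_prod_le {ι : Type} (s : Finset ι) (f : ι → ℤ) (h : ∀ i ∈ s, |f i| ≤ 1) :
    |∏ i ∈ s, f i| ≤ 1 := by
  rw [Finset.abs_prod]
  exact Finset.prod_le_one (fun i _ => abs_nonneg _) h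

theorem abs_ch (T : Finset GaussianInt) (α : GaussianInt) : |ch T α| ≤ 1 := by
  unfold ch
  rw [abs_mul]
  exact mul_le_one₀ (abs_ci α) (abs_nonneg _) (abs_prod_le _ _ fun p _ => abs_leg p α)

theorem abs_chs (T U : Finset GaussianInt) (α : GaussianInt) : |ch T α * ∏ p ∈ U, (leg p α) ^ 2| ≤ 1 := by
  rw [abs_mul]
  refine mul_le_one₀ (abs_ch T α) (abs_nonneg _) (abs_prod_le _ _ fun p _ => ?_)
  rw [abs_pow]
  exact pow_le_one₀ (abs_nonneg _) (abs_leg p α)

theorem norm_int {n : ℤ} (h : |n| ≤ 1) : ‖(n : ℂ)‖ ≤ 1 := by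
  rw [Complex.norm_intCast]
  exact_mod_cast h

theorem summ_gs (T U : Finset GaussianInt) {δ : ℝ} (hδ : 0 < δ) :
    Summable (fun α : GaussianInt => ((ch T α * ∏ p ∈ U, (leg p α) ^ 2 : ℤ) : ℂ) * fd δ (α : ℂ)) :=
  summ_c hδ _ fun α => norm_int (abs_chs T U α)

theorem ch_mul {T : Finset GaussianInt} (hT : ∀ p ∈ T, OP p) {q : GaussianInt} (hq : Pr q) (β : GaussianInt) :
    ch T (q * β) = ch T q * ch T β := by
  unfold ch
  rw [ci_mul hq]
  have : ∏ p ∈ T, leg p (q * β) = (∏ p ∈ T, leg p q) * ∏ p ∈ T, leg p β := by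
    rw [← Finset.prod_mul_distrib]
    exact Finset.prod_congr rfl fun p hp => leg_mul (hT p hp).pr q β
  rw [this]
  ring

open Classical in
theorem gs_insert {T U : Finset GaussianInt} (hT : ∀ p ∈ T, OP p) (hU : ∀ p ∈ U, OP p) {q : GaussianInt} (hq : OP q)
    (hqU : q ∉ U) {δ : ℝ} (hδ : 0 < δ) :
    gs T (insert q U) δ = gs T U δ - (ch T q : ℂ) / q * gs T U (δ * Complex.normSq (q : ℂ)) := by
  have h1 : ∀ α : GaussianInt, ((ch T α * ∏ p ∈ insert q U, (leg p α) ^ 2 : ℤ) : ℂ) * fd δ (α : ℂ) =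
      ((ch T α * ∏ p ∈ U, (leg p α) ^ 2 : ℤ) : ℂ) * fd δ (α : ℂ) -
      (if q ∣ α - 0 then ((ch T α * ∏ p ∈ U, (leg p α) ^ 2 : ℤ) : ℂ) * fd δ (α : ℂ) else 0) := by
    intro α
    rw [Finset.prod_insert hqU, sub_zero]
    by_cases h : q ∣ α
    · rw [if_pos h, leg_eq_zero.2 h]
      simp
    · rw [if_neg h, pow_two, leg_sq_eq h, one_mul, sub_zero]
  have hs := summ_gs T U hδ
  unfold gs
  rw [tsum_congr h1, hs.tsum_sub, ← tsum_res hq.pr.ne_zero 0
    (fun α => ((ch T α * ∏ p ∈ U, (leg p α) ^ 2 : ℤ) : ℂ) * fd δ (α : ℂ)), ← tsum_mul_left]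
  · congr 1
    refine tsum_congr fun β => ?_
    rw [zero_add, map_mul, fd_mul, ch_mul hT hq.pm]
    have h2 : ∏ p ∈ U, (leg p (q * β)) ^ 2 = ∏ p ∈ U, (leg p β) ^ 2 := by
      refine Finset.prod_congr rfl fun p hp => ?_
      rw [leg_mul (hU p hp).pr, mul_pow, pow_two (leg p q), leg_sq_eq, one_mul]
      intro h
      have := (hU p hp).dvd hq h
      rw [this] at hp
      exact hqU hp
    rw [h2]
    push_cast
    field_simp
  · refine Summable.of_norm_bounded hs.norm fun α => ?_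
    split_ifs with h
    · exact le_rfl
    · rw [norm_zero]; exact norm_nonneg _

theorem lim_gs {T : Finset GaussianInt} (hT : ∀ p ∈ T, OP p) {l : ℂ}
    (hl : Tendsto (gs T ∅) (𝓝[>] 0) (𝓝 l)) (U : Finset GaussianInt) (hU : ∀ p ∈ U, OP p) :
    Tendsto (gs T U) (𝓝[>] 0) (𝓝 (l * ∏ p ∈ U, (1 - (ch T p : ℂ) / p))) := by
  classical
  induction U using Finset.induction_on with
  | empty => simpa using hl
  | insert q U hq ih =>
    have hU' : ∀ p ∈ U, OP p := fun p hp => hU p (Finset.mem_insert_of_mem hp)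
    have hqo := hU q (Finset.mem_insert_self _ _)
    have h1 := ih hU'
    have hn : 0 < Complex.normSq (q : ℂ) := Complex.normSq_pos.2 (coe_ne hqo.pr.ne_zero)
    have h2 := (h1.comp (tend_scale hn)).const_mul ((ch T q : ℂ) / q)
    have h3 := h1.sub h2
    rw [Finset.prod_insert hq]
    have e : l * ∏ p ∈ U, (1 - (ch T p : ℂ) / p) - (ch T q : ℂ) / q *
        (l * ∏ p ∈ U, (1 - (ch T p : ℂ) / p)) =
        l * ((1 - (ch T q : ℂ) / q) * ∏ p ∈ U, (1 - (ch T p : ℂ) / p)) := by ring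
    rw [e] at h3
    refine h3.congr' ?_
    filter_upwards [self_mem_nhdsWithin] with δ (hδ : 0 < δ)
    rw [gs_insert hT hU' hqo hq hδ]
    rfl

/-- all symbols are one -/
def CC (S : Finset GaussianInt) (α : GaussianInt) : Prop := ∀ p ∈ S, leg p α = 1

open Classical in
theorem sum_gs (S : Finset GaussianInt) {δ : ℝ} (hδ : 0 < δ) :
    ∑ T ∈ S.powerset, gs T (S \ T) δ =
      2 ^ S.card * ∑' α : GaussianInt, (ci α : ℂ) * ((if CC S α then 1 else 0) * fd δ (α : ℂ)) := by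
  unfold gs
  rw [← Summable.tsum_finsetSum (fun T _ => summ_gs T (S \ T) hδ), ← tsum_mul_left]
  refine tsum_congr fun α => ?_
  rw [← Finset.sum_mul]
  have h1 : ∑ T ∈ S.powerset, ((ch T α * ∏ p ∈ S \ T, (leg p α) ^ 2 : ℤ) : ℂ) =
      ((ci α * ∏ p ∈ S, (leg p α + (leg p α) ^ 2) : ℤ) : ℂ) := by
    rw [Finset.prod_add, Finset.mul_sum]
    push_cast
    refine Finset.sum_congr rfl fun T _ => ?_
    unfold ch
    push_cast
    ring
  rw [h1]
  have h2 : ((∏ p ∈ S, (leg p α + (leg p α) ^ 2) : ℤ) : ℂ) =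
      2 ^ S.card * (if CC S α then 1 else 0) := by
    by_cases h : CC S α
    · rw [if_pos h, Finset.prod_congr rfl (g := fun _ => (2 : ℤ)) (fun p hp => by
        rw [h p hp]; rfl)]
      simp
    · rw [if_neg h]
      unfold CC at h
      push Not at h
      obtain ⟨p, hp, hne⟩ := h
      rw [Finset.prod_eq_zero hp]
      · simp
      · rcases leg_cases p α with h | h | h
        · rw [h]; rfl
        · exact absurd h hne
        · rw [h]; rfl
  push_cast at h2 ⊢
  rw [h2]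
  ring

theorem ci_dvd {g h : GaussianInt} (hg : Pr g) (hh : Pr h) (e : ci g = ci h) : (4 : GaussianInt) ∣ g - h := by
  have h1 : ci g = 1 ∧ g.re % 4 = 1 ∧ g.im % 4 = 0 ∨ ci g = -1 ∧ g.re % 4 = 3 ∧ g.im % 4 = 2 := by
    rcases hg with h | h
    · exact Or.inl ⟨ci_pos h.1 h.2, h⟩
    · exact Or.inr ⟨ci_neg h.1 h.2, h⟩
  have h2 : ci h = 1 ∧ h.re % 4 = 1 ∧ h.im % 4 = 0 ∨ ci h = -1 ∧ h.re % 4 = 3 ∧ h.im % 4 = 2 := by
    rcases hh with h | h
    · exact Or.inl ⟨ci_pos h.1 h.2, h⟩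
    · exact Or.inr ⟨ci_neg h.1 h.2, h⟩
  refine ⟨⟨(g.re - h.re) / 4, (g.im - h.im) / 4⟩, ?_⟩
  rw [show (4 : GaussianInt) = ⟨4, 0⟩ by rfl]
  ext
  · simp only [Zsqrtd.re_sub, Zsqrtd.re_mul]
    rcases h1 with h1 | h1 <;> rcases h2 with h2 | h2 <;> omega
  · simp only [Zsqrtd.im_sub, Zsqrtd.im_mul]
    rcases h1 with h1 | h1 <;> rcases h2 with h2 | h2 <;> omega

/-- the second class -/
def c3 : GaussianInt := ⟨3, 2⟩

theorem Pr_c3 : Pr c3 := Or.inr ⟨rfl, rfl⟩

theorem ci_one : ci 1 = 1 := rfl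

theorem ci_c3 : ci c3 = -1 := rfl

open Classical in
theorem ci_split {D : GaussianInt} (hD : Pr D) (α : GaussianInt) : ci α = ∑ c ∈ ({1, c3} : Finset GaussianInt),
    ci D * ci c * (if (4 : GaussianInt) ∣ α - D * c then 1 else 0) := by
  have hne : (1 : GaussianInt) ≠ c3 := by unfold c3; decide
  rw [Finset.sum_pair hne, ci_one, ci_c3]
  have k1 : (4 : GaussianInt) ∣ α - D * 1 → Pr α ∧ ci α = ci D := by
    intro h
    have h1 : (4 : GaussianInt) ∣ D * 1 - α := by
      rw [← neg_sub]; exact (dvd_neg).2 h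
    have h2 := ((hD.mul Pr_one).1).congr h1
    rw [(hD.mul Pr_one).2, ci_one, mul_one] at h2
    exact h2
  have k2 : (4 : GaussianInt) ∣ α - D * c3 → Pr α ∧ ci α = -ci D := by
    intro h
    have h1 : (4 : GaussianInt) ∣ D * c3 - α := by
      rw [← neg_sub]; exact (dvd_neg).2 h
    have h2 := ((hD.mul Pr_c3).1).congr h1
    rw [(hD.mul Pr_c3).2, ci_c3] at h2
    exact ⟨h2.1, by rw [h2.2]; ring⟩
  have hDn := ci_ne hD
  by_cases hα : Pr α
  · rcases ci_ne hα with h | h <;> rcases hDn with h' | h'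
    · rw [if_pos (ci_dvd hα (hD.mul Pr_one).1 (by rw [(hD.mul Pr_one).2, ci_one, h, h']; rfl)),
        if_neg (fun hc => by have := (k2 hc).2; omega), h, h']; rfl
    · rw [if_pos (ci_dvd hα (hD.mul Pr_c3).1 (by rw [(hD.mul Pr_c3).2, ci_c3, h, h']; rfl)),
        if_neg (fun hc => by have := (k1 hc).2; omega), h, h']; rfl
    · rw [if_pos (ci_dvd hα (hD.mul Pr_c3).1 (by rw [(hD.mul Pr_c3).2, ci_c3, h, h']; rfl)),
        if_neg (fun hc => by have := (k1 hc).2; omega), h, h']; rfl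
    · rw [if_pos (ci_dvd hα (hD.mul Pr_one).1 (by rw [(hD.mul Pr_one).2, ci_one, h, h']; rfl)),
        if_neg (fun hc => by have := (k2 hc).2; omega), h, h']; rfl
  · rw [if_neg (fun hc => hα (k1 hc).1), if_neg (fun hc => hα (k2 hc).1), ci_zero hα]
    simp

open Classical in
theorem split_tsum {D : GaussianInt} (hD : Pr D) (h : GaussianInt → ℂ) (hs : Summable h) :
    ∑' α : GaussianInt, (ci α : ℂ) * h α =
      ∑ c ∈ ({1, c3} : Finset GaussianInt), (ci D * ci c : ℤ) * ∑' β : GaussianInt, h (D * c + 4 * β) := by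
  have h4 : (4 : GaussianInt) ≠ 0 := by decide
  have h1 : ∀ α : GaussianInt, (ci α : ℂ) * h α = ∑ c ∈ ({1, c3} : Finset GaussianInt),
      (ci D * ci c : ℤ) * (if (4 : GaussianInt) ∣ α - D * c then h α else 0) := by
    intro α
    rw [ci_split hD α]
    push_cast
    rw [Finset.sum_mul]
    refine Finset.sum_congr rfl fun c _ => ?_
    split_ifs <;> simp
  rw [tsum_congr h1, Summable.tsum_finsetSum]
  · refine Finset.sum_congr rfl fun c _ => ?_
    rw [tsum_mul_left, tsum_res h4]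
  · intro c _
    apply Summable.mul_left
    refine Summable.of_norm_bounded hs.norm fun α => ?_
    split_ifs with h
    · exact le_rfl
    · rw [norm_zero]; exact norm_nonneg _

open Classical in
/-- the sum over the squares -/
theorem sum_CC (hL : IsLat L RI Ω) {S : Finset GaussianInt} (hS : ∀ p ∈ S, OP p) {D : GaussianInt} (hD : D = ∏ p ∈ S, p)
    (hDp : Pr D) {A : Finset GaussianInt} (hA : Reps D A) {δ : ℝ} (hδ : 0 < δ) :
    ∑' α : GaussianInt, (ci α : ℂ) * ((if CC S α then 1 else 0) * fd δ (α : ℂ)) =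
      ∑ c ∈ ({1, c3} : Finset GaussianInt), (ci D * ci c : ℤ) * ((Ω / (4 * D)) *
        ∑ a ∈ A.filter (CC S), EG Ω (δ * Complex.normSq (4 * D / Ω))
          (Ω * (c : ℂ) / 4 + Ω * (a : ℂ) / D)) := by
  have hΩ := hL.ne
  have hD0 := hDp.ne_zero
  have hDc := coe_ne hD0
  have hs : Summable (fun α : GaussianInt => (if CC S α then (1 : ℂ) else 0) * fd δ (α : ℂ)) :=
    summ_c hδ _ fun α => by split_ifs <;> simp
  rw [split_tsum hDp _ hs]
  refine Finset.sum_congr rfl fun c _ => ?_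
  congr 1
  have hpD : ∀ p ∈ S, p ∣ D := fun p hp => by rw [hD]; exact Finset.dvd_prod_of_mem _ hp
  have hcc : ∀ β γ : GaussianInt, CC S (D * c + 4 * β) ↔ CC S (β + D * γ) := by
    intro β γ
    unfold CC
    refine forall₂_congr fun p hp => ?_
    have h1 : leg p (D * c + 4 * β) = leg p β := by
      rw [leg_congr (b := 4 * β) (by rw [add_sub_cancel_right]; exact (hpD p hp).mul_right c),
        leg_mul (hS p hp).pr, leg_of_sq (hS p hp).four 2 (by decide), one_mul]
    have h2 : leg p (β + D * γ) = leg p β :=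
      leg_congr (by rw [add_sub_cancel_left]; exact (hpD p hp).mul_right γ)
    rw [h1, h2]
  have h1 : ∀ β : GaussianInt, (if CC S (D * c + 4 * β) then (1 : ℂ) else 0) *
      fd δ ((D * c + 4 * β : GaussianInt) : ℂ) =
      (if CC S β then (1 : ℂ) else 0) * fd δ ((D * c + 4 * β : GaussianInt) : ℂ) := by
    intro β
    have := hcc β 0
    rw [mul_zero, add_zero] at this
    simp only [this]
  rw [tsum_congr h1]
  have hs2 : Summable (fun β : GaussianInt => (if CC S β then (1 : ℂ) else 0) *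
      fd δ ((D * c + 4 * β : GaussianInt) : ℂ)) := by
    have hinj : Function.Injective (fun β : GaussianInt => D * c + 4 * β) := by
      intro a b h
      exact mul_left_cancel₀ (by decide : (4 : GaussianInt) ≠ 0) (add_left_cancel h)
    refine Summable.of_norm_bounded ((summ_G hδ).comp_injective hinj).norm fun β => ?_
    rw [norm_mul]
    simp only [Function.comp_apply]
    refine mul_le_of_le_one_left (norm_nonneg _) ?_
    split_ifs <;> simp
  rw [tsum_reps hD0 hA hs2, Finset.sum_filter, Finset.mul_sum]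
  refine Finset.sum_congr rfl fun a _ => ?_
  have h2 : ∀ γ : GaussianInt, (if CC S (a + D * γ) then (1 : ℂ) else 0) *
      fd δ ((D * c + 4 * (a + D * γ) : GaussianInt) : ℂ) = (if CC S a then (1 : ℂ) else 0) *
      fd δ (((D : ℂ) * c + 4 * a) + (4 * D) * (γ : ℂ)) := by
    intro γ
    have e1 := hcc a 0
    rw [mul_zero, add_zero, hcc a γ] at e1
    simp only [e1]
    congr 2
    rw [map_add, map_mul, map_mul, map_add, map_mul, c4]
    ring
  rw [tsum_congr h2, tsum_mul_left, tsum_scale hΩ (mul_ne_zero (by norm_num) hDc)]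
  have h3 : Ω * ((D : ℂ) * c + 4 * a) / (4 * D) = Ω * (c : ℂ) / 4 + Ω * (a : ℂ) / D := by
    field_simp
  rw [h3]
  split_ifs <;> simp

/-- the base sum -/
theorem gs_empty (hL : IsLat L RI Ω) {δ : ℝ} (hδ : 0 < δ) :
    gs ∅ ∅ δ = (Ω / 4) * (EG Ω (δ * Complex.normSq (4 / Ω)) (Ω * ((1 : GaussianInt) : ℂ) / 4) -
      EG Ω (δ * Complex.normSq (4 / Ω)) (Ω * (c3 : ℂ) / 4)) := by
  have hΩ := hL.ne
  have h1 : gs ∅ ∅ δ = ∑' α : GaussianInt, (ci α : ℂ) * fd δ (α : ℂ) := by
    unfold gs ch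
    refine tsum_congr fun α => ?_
    simp
  have hne : (1 : GaussianInt) ≠ c3 := by unfold c3; decide
  rw [h1, split_tsum Pr_one _ (summ_G hδ), Finset.sum_pair hne, ci_one, ci_c3]
  have h2 : ∀ c : GaussianInt, ∑' β : GaussianInt, fd δ ((1 * c + 4 * β : GaussianInt) : ℂ) =
      (Ω / 4) * EG Ω (δ * Complex.normSq (4 / Ω)) (Ω * (c : ℂ) / 4) := by
    intro c
    rw [← tsum_scale hΩ (by norm_num : (4 : ℂ) ≠ 0)]
    refine tsum_congr fun β => ?_
    rw [map_add, map_mul, map_mul, c4, map_one, one_mul]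
  rw [h2, h2]
  push_cast
  ring

end Pool.Agent.Y697.MQ
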