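import Mathlib

/-! A valuation of `ℂ` above `1 + i` and the iteration of `x ↦ (x² - 1) / (2 i x)`. -/

set_option autoImplicit false

open Complex

namespace Pool.Agent.Y697.MQ

theorem exists_val : ∃ B : ValuationSubring ℂ, B.valuation 2 < 1 := by
  set A : Subring ℂ := (Int.castRingHom ℂ).range with hA
  have h2 : (2 : ℂ) ∈ A := ⟨2, by simp⟩
  set I₀ : Ideal A := Ideal.span {⟨2, h2⟩} with hI
  have hne : I₀ ≠ ⊤ := by
    intro h
    rw [Ideal.eq_top_iff_one, Ideal.mem_span_singleton'] at h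
    obtain ⟨⟨a, n, hn⟩, ha⟩ := h
    have h3 : a * 2 = 1 := congrArg Subtype.val ha
    rw [← hn] at h3
    have h4 : ((n * 2 : ℤ) : ℂ) = ((1 : ℤ) : ℂ) := by push_cast; exact h3
    have h5 : n * 2 = 1 := by exact_mod_cast h4
    omega
  obtain ⟨B, -, hB⟩ := Ideal.image_subset_nonunits_valuationSubring I₀ hne
  refine ⟨B, ?_⟩
  have h3 : (2 : ℂ) ∈ B.nonunits := hB ⟨⟨2, h2⟩, Ideal.mem_span_singleton_self _, rfl⟩
  exact B.mem_nonunits_iff.1 h3

section
variable {Γ : Type} [LinearOrderedCommGroupWithZero Γ] (v : Valuation ℂ Γ)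

theorem v_I : v I = 1 := by
  have h : v I ^ 4 = 1 := by
    rw [← map_pow, I_pow_four, map_one]
  exact (pow_left_inj₀ zero_le zero_le (by norm_num : (4 : ℕ) ≠ 0)).1 (by rw [h, one_pow])

theorem v_int (n : ℤ) : v n ≤ 1 := by
  induction n using Int.induction_on with
  | zero => simp
  | succ i hi =>
    push_cast at hi ⊢
    exact (v.map_add _ _).trans (max_le hi (by rw [map_one]))
  | pred i hi =>
    push_cast at hi ⊢
    exact (v.map_sub _ _).trans (max_le hi (by rw [map_one]))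

theorem v_gauss (a : GaussianInt) : v (a : ℂ) ≤ 1 := by
  rw [GaussianInt.toComplex_def]
  refine (v.map_add _ _).trans (max_le (v_int v _) ?_)
  rw [map_mul, v_I, mul_one]
  exact v_int v _

theorem v_pi_sq : v (1 + I) ^ 2 = v 2 := by
  rw [← map_pow]
  have : (1 + I) ^ 2 = 2 * I := by linear_combination I_sq
  rw [this, map_mul, v_I, mul_one]

variable (h2 : v 2 < 1)
include h2

theorem v_pi_lt : v (1 + I) < 1 := by
  by_contra h
  push Not at h
  have := one_le_pow₀ h (n := 2)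
  rw [v_pi_sq] at this
  exact absurd h2 (not_lt.2 this)

omit h2 in
theorem v_two_pos : 0 < v 2 := by
  rw [zero_lt_iff]
  exact (map_ne_zero v).2 two_ne_zero

omit h2 in
theorem v_pi_pos : 0 < v (1 + I) := by
  rw [zero_lt_iff]
  intro h
  have h3 := v_pi_sq v
  rw [h, zero_pow (by norm_num)] at h3
  exact (v_two_pos v).ne h3

theorem v_odd {a b : GaussianInt} (h : a = 1 + ⟨1, 1⟩ * b) : v (a : ℂ) = 1 := by
  have e : (a : ℂ) = 1 + (1 + I) * (b : ℂ) := by
    rw [h, map_add, map_mul, map_one]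
    congr 2
    rw [GaussianInt.toComplex_def]
    push_cast
    ring
  rw [e]
  apply Valuation.map_one_add_of_lt
  rw [map_mul]
  calc v (1 + I) * v (b : ℂ) ≤ v (1 + I) * 1 := by gcongr; exact v_gauss v b
    _ < 1 := by rw [mul_one]; exact v_pi_lt v h2

/-- the iteration -/
structure Dyn (X : ℕ → ℂ) : Prop where
  ne : ∀ k, X k ≠ 0
  stp : ∀ k, X (k + 1) * (2 * I * X k) = X k ^ 2 - 1
  per : ∃ r : ℕ, 0 < r ∧ ∀ k, X (k + r) = X k

omit h2 in
theorem Dyn.shift {X : ℕ → ℂ} (h : Dyn X) (m : ℕ) : Dyn (fun k => X (k + m)) where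
  ne k := h.ne _
  stp k := by
    have := h.stp (k + m)
    rw [show k + m + 1 = k + 1 + m by ring] at this
    exact this
  per := by
    obtain ⟨r, hr, h1⟩ := h.per
    exact ⟨r, hr, fun k => by
      show X (k + r + m) = X (k + m)
      rw [show k + r + m = k + m + r by ring]; exact h1 _⟩

theorem Dyn.le_one {X : ℕ → ℂ} (h : Dyn X) (k : ℕ) : v (X k) ≤ 1 := by
  by_contra hc
  push Not at hc
  have hstep : ∀ j, 1 < v (X j) → v (X j) < v (X (j + 1)) := by
    intro j hj
    have e := congrArg v (h.stp j)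
    have hsq : v (X j ^ 2 - 1) = v (X j) ^ 2 := by
      rw [← map_pow]
      apply Valuation.map_sub_eq_of_lt_left
      rw [map_one, map_pow]
      exact one_lt_pow₀ hj (by norm_num)
    rw [hsq, map_mul, map_mul, map_mul, v_I, mul_one] at e
    have hj0 : 0 < v (X j) := zero_lt_one.trans hj
    have e2 : v (X (j + 1)) * v 2 = v (X j) := by
      apply mul_right_cancel₀ hj0.ne'
      rw [mul_assoc, e, pow_two]
    have hp : 0 < v (X (j + 1)) := by
      rw [zero_lt_iff]
      exact (map_ne_zero v).2 (h.ne _)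
    calc v (X j) = v (X (j + 1)) * v 2 := e2.symm
      _ < v (X (j + 1)) * 1 := by gcongr
      _ = v (X (j + 1)) := mul_one _
  have hmono : ∀ m, v (X k) ≤ v (X (k + m)) ∧ (0 < m → v (X k) < v (X (k + m))) := by
    intro m
    induction m with
    | zero => simp
    | succ m ih =>
      have h1 : v (X k) < v (X (k + m + 1)) :=
        lt_of_le_of_lt ih.1 (hstep _ (lt_of_lt_of_le hc ih.1))
      exact ⟨h1.le, fun _ => h1⟩
  obtain ⟨r, hr, h1⟩ := h.per
  have := (hmono r).2 hr
  rw [h1] at this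
  exact lt_irrefl _ this

/-- the values of the iteration have absolute value one -/
theorem Dyn.eq_one {X : ℕ → ℂ} (h : Dyn X) (k : ℕ) : v (X k) = 1 := by
  refine le_antisymm (h.le_one v h2 k) ?_
  by_contra hc
  push Not at hc
  have e := congrArg v (h.stp k)
  have h1 : v (X k ^ 2 - 1) = 1 := by
    rw [← map_one v]
    apply Valuation.map_sub_eq_of_lt_right
    rw [map_one, map_pow]
    exact pow_lt_one₀ zero_le hc (by norm_num)
  rw [h1, map_mul, map_mul, map_mul, v_I, mul_one] at e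
  have h3 := h.le_one v h2 (k + 1)
  have h4 : v (X (k + 1)) * (v 2 * v (X k)) < 1 := by
    calc v (X (k + 1)) * (v 2 * v (X k)) ≤ 1 * (v 2 * v (X k)) := by gcongr
      _ = v 2 * v (X k) := one_mul _
      _ ≤ v 2 * 1 := by gcongr
      _ < 1 := by rw [mul_one]; exact h2
  rw [e] at h4
  exact lt_irrefl _ h4

/-- the values of the iteration are not close to `i` -/
theorem Dyn.far {X : ℕ → ℂ} (h : Dyn X) {j : ℂ} (hj : j ^ 2 = -1) (k : ℕ) :
    v 2 < v (X k - j) := by
  by_contra hc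
  push Not at hc
  have hjv : v j = 1 := by
    have h1 : v j ^ 2 = 1 := by rw [← map_pow, hj, Valuation.map_neg, map_one]
    exact (pow_left_inj₀ zero_le zero_le (by norm_num : (2 : ℕ) ≠ 0)).1 (by rw [h1, one_pow])
  set b : ℂ := (X k - j) / 2 with hb
  have hX : X k = j + 2 * b := by rw [hb]; ring
  have hbv : v b ≤ 1 := by
    rw [hb, map_div₀]
    exact div_le_one_of_le₀ hc zero_le
  set c : ℂ := b * (j + b) with hcd
  have hcv : v c ≤ 1 := by
    rw [hcd, map_mul]
    have : v (j + b) ≤ 1 := (v.map_add _ _).trans (max_le hjv.le hbv)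
    exact mul_le_one' hbv this
  have e0 : X k ^ 2 = -1 + 4 * c := by rw [hX, hcd]; linear_combination hj
  have r0 := h.stp k
  have r1 := h.stp (k + 1)
  have n0 := h.ne k
  have n1 := h.ne (k + 1)
  have e1 : X (k + 1) * (I * X k) = -1 + 2 * c := by
    have : X (k + 1) * (2 * I * X k) = -2 + 4 * c := by rw [r0, e0]; ring
    linear_combination (1 / 2 : ℂ) * this
  have e2 : (X (k + 1) ^ 2 - 1) * (-(X k) ^ 2) = 4 * c ^ 2 := by
    have h3 : (X (k + 1) * (I * X k)) ^ 2 = (-1 + 2 * c) ^ 2 := by rw [e1]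
    have h4 : X (k + 1) ^ 2 * (-(X k) ^ 2) = (-1 + 2 * c) ^ 2 := by
      rw [← h3]; linear_combination (-X (k + 1) ^ 2 * X k ^ 2) * I_sq
    linear_combination h4 + e0
  rw [← r1] at e2
  have e3 := congrArg v e2
  have h4 : v (4 : ℂ) = v 2 ^ 2 := by
    rw [← map_pow]; norm_num
  rw [map_mul, map_mul, map_mul, map_mul, v_I, Valuation.map_neg, map_pow, h.eq_one v h2 (k + 1),
    h.eq_one v h2 k, h.eq_one v h2 (k + 1 + 1), map_mul, h4, map_pow] at e3
  have h5 : v 2 = v 2 ^ 2 * v c ^ 2 := by simpa using e3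
  have h6 : v 2 ^ 2 * v c ^ 2 < v 2 := by
    calc v 2 ^ 2 * v c ^ 2 ≤ v 2 ^ 2 * 1 := by
          gcongr
          exact pow_le_one₀ zero_le hcv
      _ = v 2 * v 2 := by rw [mul_one, pow_two]
      _ < 1 * v 2 := by
          have := v_two_pos v
          gcongr
      _ = v 2 := one_mul _
  rw [← h5] at h6
  exact lt_irrefl _ h6

/-- a fourth division value -/
structure Four (X₀ x₀ Y₀ : ℂ) : Prop where
  ne : X₀ ≠ 0
  sq : x₀ ^ 2 = -1
  stp : x₀ * (2 * I * X₀) = X₀ ^ 2 - 1
  eq : Y₀ ^ 2 = 4 * X₀ * (X₀ ^ 2 - 1)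

variable {X₀ x₀ Y₀ : ℂ}

omit h2 in
theorem Four.vx (F : Four X₀ x₀ Y₀) : v x₀ = 1 := by
  have h1 : v x₀ ^ 2 = 1 := by rw [← map_pow, F.sq, Valuation.map_neg, map_one]
  exact (pow_left_inj₀ zero_le zero_le (by norm_num : (2 : ℕ) ≠ 0)).1 (by rw [h1, one_pow])

theorem Four.vX (F : Four X₀ x₀ Y₀) : v X₀ = 1 := by
  have e := congrArg v F.stp
  rw [map_mul, map_mul, map_mul, v_I, mul_one, F.vx, one_mul] at e
  rcases lt_trichotomy (v X₀) 1 with h | h | h
  · have h1 : v (X₀ ^ 2 - 1) = 1 := by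
      rw [← map_one v]
      apply Valuation.map_sub_eq_of_lt_right
      rw [map_one, map_pow]
      exact pow_lt_one₀ zero_le h (by norm_num)
    rw [h1] at e
    have h4 : v 2 * v X₀ < 1 := by
      calc v 2 * v X₀ ≤ v 2 * 1 := by gcongr
        _ < 1 := by rw [mul_one]; exact h2
    rw [e] at h4
    exact absurd h4 (lt_irrefl _)
  · exact h
  · have hsq : v (X₀ ^ 2 - 1) = v X₀ ^ 2 := by
      rw [← map_pow]
      apply Valuation.map_sub_eq_of_lt_left
      rw [map_one, map_pow]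
      exact one_lt_pow₀ h (by norm_num)
    rw [hsq, pow_two] at e
    have h5 : v 2 = v X₀ := mul_right_cancel₀ (zero_lt_one.trans h).ne' e
    rw [← h5] at h
    exact absurd (h.trans h2) (lt_irrefl _)

theorem Four.vY (F : Four X₀ x₀ Y₀) : v Y₀ = v (1 + I) ^ 3 := by
  have e := congrArg v F.eq
  rw [← F.stp, map_mul, map_mul, map_mul, map_mul, map_mul, v_I, F.vx, F.vX v h2, map_pow] at e
  have h4 : v (4 : ℂ) = v 2 ^ 2 := by
    rw [← map_pow]; norm_num
  rw [h4, ← v_pi_sq] at e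
  have h6 : v Y₀ ^ 2 = (v (1 + I) ^ 3) ^ 2 := by
    rw [e]
    simp only [mul_one, one_mul]
    rw [← pow_mul, ← pow_mul, ← pow_add]
  exact (pow_left_inj₀ zero_le zero_le (by norm_num)).1 h6

/-- the values of the iteration are not close to the fourth division value -/
theorem Four.far (F : Four X₀ x₀ Y₀) {X : ℕ → ℂ} (h : Dyn X) (k : ℕ) : v 2 < v (X₀ - X k) := by
  rw [Valuation.map_sub_swap]
  by_contra hc
  push Not at hc
  set b : ℂ := (X k - X₀) / 2 with hb
  have hX : X k = X₀ + 2 * b := by rw [hb]; ring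
  have hbv : v b ≤ 1 := by
    rw [hb, map_div₀]
    exact div_le_one_of_le₀ hc zero_le
  have r0 := h.stp k
  have n0 := h.ne k
  have f0 := F.ne
  have key : (X (k + 1) - x₀) * (I * X k * X₀) = 2 * (b * (1 + I * X₀ * x₀ + b * X₀)) := by
    have e1 : X (k + 1) * (2 * I * X k) * X₀ = (X k ^ 2 - 1) * X₀ := by rw [r0]
    have e2 : x₀ * (2 * I * X₀) * X k = (X₀ ^ 2 - 1) * X k := by rw [F.stp]
    have e3 : (X (k + 1) - x₀) * (2 * I * X k * X₀) = (X k - X₀) * (X k * X₀ + 1) := by
      linear_combination e1 - e2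
    have e4 : X k * X₀ + 1 = 2 * (1 + I * X₀ * x₀ + b * X₀) := by
      rw [hX]
      linear_combination -F.stp
    have e5 : X k - X₀ = 2 * b := by rw [hX]; ring
    rw [e4, e5] at e3
    linear_combination (1 / 2 : ℂ) * e3
  have e := congrArg v key
  rw [map_mul, map_mul, map_mul, v_I, h.eq_one v h2 k, F.vX v h2, map_mul, map_mul] at e
  simp only [mul_one] at e
  have h5 : v (1 + I * X₀ * x₀ + b * X₀) ≤ 1 := by
    refine (v.map_add _ _).trans (max_le ((v.map_add _ _).trans (max_le (by rw [map_one]) ?_)) ?_)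
    · rw [map_mul, map_mul, v_I, F.vX v h2, F.vx]; simp
    · rw [map_mul, F.vX v h2, mul_one]; exact hbv
  have h6 : v (X (k + 1) - x₀) ≤ v 2 := by
    rw [e]
    calc v 2 * (v b * v (1 + I * X₀ * x₀ + b * X₀)) ≤ v 2 * 1 := by
          gcongr
          exact mul_le_one' hbv h5
      _ = v 2 := mul_one _
  exact absurd (h.far v h2 F.sq (k + 1)) (not_lt.2 h6)

/-- the distance to a second division value -/
theorem Four.two (F : Four X₀ x₀ Y₀) {e : ℂ} (he : e ^ 2 = 1) : v (X₀ - e) = v (1 + I) := by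
  have hev : v e = 1 := by
    have h1 : v e ^ 2 = 1 := by rw [← map_pow, he, map_one]
    exact (pow_left_inj₀ zero_le zero_le (by norm_num : (2 : ℕ) ≠ 0)).1 (by rw [h1, one_pow])
  have hprod : v (X₀ - e) * v (X₀ + e) = v (1 + I) ^ 2 := by
    rw [← map_mul, v_pi_sq]
    have : (X₀ - e) * (X₀ + e) = x₀ * (2 * I * X₀) := by
      rw [F.stp]; linear_combination -he
    rw [this, map_mul, map_mul, map_mul, v_I, F.vx, F.vX v h2]; simp
  have hdiff : v (X₀ + e - (X₀ - e)) = v (1 + I) ^ 2 := by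
    rw [v_pi_sq]
    have : X₀ + e - (X₀ - e) = 2 * e := by ring
    rw [this, map_mul, hev, mul_one]
  have hp := v_pi_lt v h2
  have hp0 := v_pi_pos v
  have heq : v (X₀ - e) = v (X₀ + e) := by
    rcases lt_trichotomy (v (X₀ - e)) (v (X₀ + e)) with h | h | h
    · rw [Valuation.map_sub_eq_of_lt_left v h] at hdiff
      rw [hdiff] at h hprod
      have : v (X₀ - e) = 1 := by
        apply mul_right_cancel₀ (pow_pos hp0 2).ne'
        rw [hprod, one_mul]
      rw [this] at h
      exact absurd h (not_lt.2 (pow_le_one₀ zero_le hp.le))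
    · exact h
    · rw [Valuation.map_sub_eq_of_lt_right v h] at hdiff
      rw [hdiff] at h hprod
      have : v (X₀ + e) = 1 := by
        apply mul_left_cancel₀ (pow_pos hp0 2).ne'
        rw [hprod, mul_one]
      rw [this] at h
      exact absurd h (not_lt.2 (pow_le_one₀ zero_le hp.le))
  rw [← heq, ← pow_two] at hprod
  exact (pow_left_inj₀ zero_le zero_le (by norm_num)).1 hprod

end

end Pool.Agent.Y697.MQ
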