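import Pool.Agent.Y697.MQ.Lat
import Pool.Agent.Y697.MQ.Sym
import Pool.Agent.Y697.MQ.Val

/-! Sums over the Gaussian integers. -/

set_option autoImplicit false

open Filter
open scoped Topology PeriodPair

namespace Pool.Agent.Y697.MQ

open Pool.Agent.TH936.CM Pool.Agent.W192.HK H667R3


variable {L : PeriodPair} {Ω : ℂ}

/-- the regularized Eisenstein series -/
noncomputable def EG (Ω : ℂ) (δ : ℝ) (z : ℂ) : ℂ := ∑' β : GaussianInt, fd δ (z + Ω * (β : ℂ))

theorem EG_eq (Ω : ℂ) (δ : ℝ) (z : ℂ) : EG Ω δ z = EE RI Ω δ z := by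
  unfold EG EE
  rw [← eR.toEquiv.tsum_eq (fun β : RI => fd δ (z + Ω * (β : ℂ)))]
  rfl

theorem EG_per (hL : IsLat L RI Ω) (δ : ℝ) {z w : ℂ} (h : w - z ∈ L.lattice) :
    EG Ω δ w = EG Ω δ z := by
  rw [EG_eq, EG_eq]
  exact EE_per hL δ h

theorem EG_neg (Ω : ℂ) (δ : ℝ) (z : ℂ) : EG Ω δ (-z) = -EG Ω δ z := by
  unfold EG
  rw [← (Equiv.neg GaussianInt).tsum_eq, ← tsum_neg]
  refine tsum_congr fun β => ?_
  rw [Equiv.neg_apply, map_neg, ← fd_neg]
  congr 1
  ring

theorem summ_G {δ : ℝ} (hδ : 0 < δ) : Summable (fun α : GaussianInt => fd δ (α : ℂ)) := by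
  have h1 := summ_fd (mkL_isLat qr one_ne_zero) 0 hδ
  have h2 := (eR.toEquiv.summable_iff (f := fun β : RI => fd δ (0 + 1 * (β : ℂ)))).2 h1
  refine h2.congr fun β => ?_
  show fd δ (0 + 1 * (β : ℂ)) = _
  rw [zero_add, one_mul]

theorem summ_EG (hL : IsLat L RI Ω) (z : ℂ) {δ : ℝ} (hδ : 0 < δ) :
    Summable (fun β : GaussianInt => fd δ (z + Ω * (β : ℂ))) :=
  (eR.toEquiv.summable_iff (f := fun β : RI => fd δ (z + Ω * (β : ℂ)))).2 (summ_fd hL z hδ)

theorem summ_c {δ : ℝ} (hδ : 0 < δ) (c : GaussianInt → ℂ) (hc : ∀ α, ‖c α‖ ≤ 1) :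
    Summable (fun α : GaussianInt => c α * fd δ (α : ℂ)) := by
  refine Summable.of_norm_bounded (summ_G hδ).norm fun α => ?_
  rw [norm_mul]
  exact mul_le_of_le_one_left (norm_nonneg _) (hc α)

open Classical in
theorem tsum_res {m : GaussianInt} (hm : m ≠ 0) (c : GaussianInt) (F : GaussianInt → ℂ) :
    ∑' β : GaussianInt, F (c + m * β) = ∑' α : GaussianInt, if m ∣ α - c then F α else 0 := by
  have hinj : Function.Injective (fun β : GaussianInt => c + m * β) := by
    intro a b h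
    exact mul_left_cancel₀ hm (add_left_cancel h)
  rw [← hinj.tsum_eq (f := fun α : GaussianInt => if m ∣ α - c then F α else 0)]
  · refine tsum_congr fun β => ?_
    rw [if_pos]
    rw [add_sub_cancel_left]
    exact dvd_mul_right _ _
  · intro α hα
    rw [Function.mem_support] at hα
    have h1 : m ∣ α - c := by
      by_contra h
      exact hα (if_neg h)
    obtain ⟨b, hb⟩ := h1
    exact ⟨b, by show c + m * b = α; rw [← hb]; ring⟩

/-- a system of representatives -/
def Reps (m : GaussianInt) (A : Finset GaussianInt) : Prop := ∀ α : GaussianInt, ∃! a, a ∈ A ∧ m ∣ α - a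

theorem exists_reps {m : GaussianInt} (hm : m ≠ 0) : ∃ A, Reps m A := by
  classical
  have := fin_quot hm
  have := Fintype.ofFinite (GaussianInt ⧸ Ideal.span {m})
  refine ⟨Finset.univ.image (fun q : GaussianInt ⧸ Ideal.span {m} => q.out), fun α => ?_⟩
  have h1 : ∀ a b : GaussianInt, m ∣ a - b ↔ Ideal.Quotient.mk (Ideal.span {m}) a =
      Ideal.Quotient.mk (Ideal.span {m}) b := by
    intro a b
    rw [Ideal.Quotient.mk_eq_mk_iff_sub_mem, Ideal.mem_span_singleton]
  refine ⟨(Ideal.Quotient.mk (Ideal.span {m}) α).out, ⟨Finset.mem_image_of_mem _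
    (Finset.mem_univ _), ?_⟩, ?_⟩
  · rw [h1, Ideal.Quotient.mk_out]
  · rintro b ⟨hb, hb2⟩
    rw [Finset.mem_image] at hb
    obtain ⟨q, -, rfl⟩ := hb
    rw [h1, Ideal.Quotient.mk_out] at hb2
    rw [hb2]

theorem tsum_reps {m : GaussianInt} (hm : m ≠ 0) {A : Finset GaussianInt} (hA : Reps m A) {F : GaussianInt → ℂ}
    (hF : Summable F) : ∑' α : GaussianInt, F α = ∑ a ∈ A, ∑' β : GaussianInt, F (a + m * β) := by
  classical
  simp only [tsum_res hm]
  rw [← Summable.tsum_finsetSum]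
  · refine tsum_congr fun α => ?_
    obtain ⟨a, ⟨ha, hma⟩, hu⟩ := hA α
    rw [Finset.sum_eq_single_of_mem a ha, if_pos hma]
    intro b hb hne
    rw [if_neg]
    intro h
    exact hne (hu b ⟨hb, h⟩)
  · intro a _
    refine Summable.of_norm_bounded hF.norm fun α => ?_
    split_ifs with h
    · exact le_rfl
    · rw [norm_zero]; exact norm_nonneg _

theorem tsum_scale (hΩ : Ω ≠ 0) {m : ℂ} (hm : m ≠ 0) (δ : ℝ) (x : ℂ) :
    ∑' β : GaussianInt, fd δ (x + m * (β : ℂ)) =
      (Ω / m) * EG Ω (δ * Complex.normSq (m / Ω)) (Ω * x / m) := by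
  unfold EG
  rw [← tsum_mul_left]
  refine tsum_congr fun β => ?_
  have : x + m * (β : ℂ) = (m / Ω) * (Ω * x / m + Ω * (β : ℂ)) := by
    field_simp
  rw [this, fd_mul, inv_div]

theorem tend_scale {c : ℝ} (hc : 0 < c) : Tendsto (fun δ : ℝ => δ * c) (𝓝[>] 0) (𝓝[>] 0) := by
  have h1 : Tendsto (fun δ : ℝ => δ * c) (𝓝 0) (𝓝 0) := by
    have : Continuous (fun δ : ℝ => δ * c) := by fun_prop
    simpa using this.tendsto 0
  refine tendsto_nhdsWithin_iff.2 ⟨h1.mono_left nhdsWithin_le_nhds, ?_⟩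
  filter_upwards [self_mem_nhdsWithin] with δ (hδ : 0 < δ)
  exact mul_pos hδ hc

/-! ### division points -/

theorem coe_ne {m : GaussianInt} (hm : m ≠ 0) : (m : ℂ) ≠ 0 := by
  intro h
  exact hm (GaussianInt.toComplex_eq_zero.1 h)

theorem memL (hL : IsLat L RI Ω) {a m : GaussianInt} (hm : m ≠ 0) :
    Ω * (a : ℂ) / (m : ℂ) ∈ L.lattice ↔ m ∣ a := by
  have hΩ := hL.ne
  have hmc := coe_ne hm
  rw [hL.mem]
  constructor
  · rintro ⟨s, hs⟩
    refine ⟨eR.symm s, ?_⟩
    apply GaussianInt.toComplex_injective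
    rw [map_mul, eR_symm_coe]
    have : Ω * (a : ℂ) = Ω * ((m : ℂ) * s) := by
      field_simp at hs
      linear_combination Ω * hs
    exact mul_left_cancel₀ hΩ this
  · rintro ⟨s, rfl⟩
    refine ⟨eR s, ?_⟩
    rw [eR_coe, map_mul]
    field_simp

/-- a half of an involution without fixed points -/
theorem half {α : Type} [DecidableEq α] (n : ℕ) : ∀ (C : Finset α), C.card = n → ∀ (σ : α → α),
    (∀ a ∈ C, σ a ∈ C) → (∀ a ∈ C, σ (σ a) = a) → (∀ a ∈ C, σ a ≠ a) →
    ∃ C' ⊆ C, ∀ f : α → ℂ, ∑ a ∈ C, f a = ∑ a ∈ C', (f a + f (σ a)) := by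
  induction n using Nat.strong_induction_on with
  | _ n ih =>
    intro C hC σ h1 h2 h3
    rcases C.eq_empty_or_nonempty with h | ⟨a, ha⟩
    · refine ⟨∅, Finset.empty_subset _, fun f => ?_⟩
      rw [h]; simp
    · have hσ := h1 a ha
      set C1 := (C.erase a).erase (σ a) with hC1
      have hσ' : σ a ∈ C.erase a := Finset.mem_erase.2 ⟨h3 a ha, hσ⟩
      have hcard : C1.card < n := by
        rw [hC1, Finset.card_erase_of_mem hσ', Finset.card_erase_of_mem ha]
        have : 0 < C.card := Finset.card_pos.2 ⟨a, ha⟩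
        omega
      have hmem : ∀ b, b ∈ C1 ↔ b ≠ σ a ∧ b ≠ a ∧ b ∈ C := by
        intro b
        rw [hC1, Finset.mem_erase, Finset.mem_erase]
      obtain ⟨C', hC', hf⟩ := ih C1.card hcard C1 rfl σ
        (fun b hb => by
          rw [hmem] at hb ⊢
          refine ⟨fun h => hb.2.1 ?_, fun h => hb.1 ?_, h1 b hb.2.2⟩
          · have := congrArg σ h
            rwa [h2 b hb.2.2, h2 a ha] at this
          · have := congrArg σ h
            rwa [h2 b hb.2.2] at this)
        (fun b hb => h2 b ((hmem b).1 hb).2.2) (fun b hb => h3 b ((hmem b).1 hb).2.2)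
      have ha' : a ∉ C' := by
        intro h
        have := (hmem a).1 (hC' h)
        exact this.2.1 rfl
      refine ⟨insert a C', ?_, fun f => ?_⟩
      · intro b hb
        rw [Finset.mem_insert] at hb
        rcases hb with rfl | hb
        · exact ha
        · exact ((hmem b).1 (hC' hb)).2.2
      · rw [Finset.sum_insert ha', ← hf f, ← Finset.add_sum_erase C f ha,
          ← Finset.add_sum_erase (C.erase a) f hσ', ← hC1]
        ring

end Pool.Agent.Y697.MQ
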